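import Mathlib
import Pool.Agent.H6.Selberg

/-!
# Integers of an interval free of small primes; avoiding one residue class per prime
-/

set_option autoImplicit false

open Finset BoundingSieve ArithmeticFunction

namespace Pool.Agent.H6.HR

noncomputable section

/-- The primes up to `D`. -/
def P (D : ℕ) : Finset ℕ := (Finset.Icc 1 D).filter Nat.Prime

theorem mem_P {D p : ℕ} : p ∈ P D ↔ p.Prime ∧ p ≤ D := by
  unfold P
  rw [Finset.mem_filter, Finset.mem_Icc]
  constructor
  · rintro ⟨⟨_, h2⟩, h3⟩; exact ⟨h3, h2⟩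
  · rintro ⟨h1, h2⟩; exact ⟨⟨h1.one_lt.le, h2⟩, h1⟩

/-- The function `d ↦ 1 / d`. -/
def nuInv : ArithmeticFunction ℝ := ⟨fun d => (d : ℝ)⁻¹, by simp⟩

theorem nuInv_apply (d : ℕ) : nuInv d = (d : ℝ)⁻¹ := rfl

/-- The sieve of an interval by all primes up to `D`. -/
def intSieve (H B D : ℕ) : BoundingSieve where
  support := Finset.Ioc H (H + B)
  prodPrimes := primorial D
  prodPrimes_squarefree := squarefree_primorial D
  weights := fun _ => 1
  weights_nonneg := fun _ => zero_le_one
  totalMass := B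
  nu := nuInv
  nu_mult := by
    refine ⟨?_, ?_⟩
    · simp [nuInv_apply]
    · intro m n _
      simp only [nuInv_apply]
      push_cast
      rw [mul_inv]
  nu_pos_of_prime := by
    intro p hp _
    rw [nuInv_apply]
    have : (0 : ℝ) < p := by exact_mod_cast hp.pos
    positivity
  nu_lt_one_of_prime := by
    intro p hp _
    rw [nuInv_apply]
    have : (1 : ℝ) < p := by exact_mod_cast hp.one_lt
    exact inv_lt_one_of_one_lt₀ this

theorem card_dvd_Ioc (H B d : ℕ) (hd : 0 < d) :
    |(((Finset.Ioc H (H + B)).filter (fun n => d ∣ n)).card : ℝ) - (B : ℝ) / d| ≤ 1 := by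
  have h2 := Nat.Ioc_filter_modEq_card H (H + B) hd 0
  have hfil : (Finset.Ioc H (H + B)).filter (fun n => n ≡ 0 [MOD d]) =
      (Finset.Ioc H (H + B)).filter (fun n => d ∣ n) := by
    apply Finset.filter_congr
    intro n _
    exact Nat.modEq_zero_iff_dvd
  rw [hfil] at h2
  have hdq : (0 : ℚ) < d := by exact_mod_cast hd
  have h3 : (⌊((H : ℕ) - ((0 : ℕ) : ℚ)) / (d : ℚ)⌋ : ℤ) ≤ ⌊(((H + B : ℕ) : ℚ) - ((0 : ℕ) : ℚ)) / (d : ℚ)⌋ := by
    apply Int.floor_le_floor
    gcongr
    omega
  rw [max_eq_left (by linarith)] at h2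
  have h4 : ((((Finset.Ioc H (H + B)).filter (fun n => d ∣ n)).card : ℤ) : ℚ) =
      ((⌊(((H + B : ℕ) : ℚ) - ((0 : ℕ) : ℚ)) / (d : ℚ)⌋ - ⌊((H : ℚ) - ((0 : ℕ) : ℚ)) / (d : ℚ)⌋ : ℤ) : ℚ) := by
    rw [h2]
  push_cast at h4
  have e1 := Int.floor_le ((((H : ℚ) + B) - 0) / (d : ℚ))
  have e2 := Int.lt_floor_add_one ((((H : ℚ) + B) - 0) / (d : ℚ))
  have e3 := Int.floor_le (((H : ℚ) - 0) / (d : ℚ))
  have e4 := Int.lt_floor_add_one (((H : ℚ) - 0) / (d : ℚ))
  have e5 : (B : ℚ) / d = (((H : ℚ) + B) - 0) / (d : ℚ) - ((H : ℚ) - 0) / (d : ℚ) := by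
    field_simp
    ring
  have key : |(((Finset.Ioc H (H + B)).filter (fun n => d ∣ n)).card : ℚ) - (B : ℚ) / d| ≤ 1 := by
    rw [h4, abs_le]
    constructor <;> linarith
  have := (Rat.cast_le (K := ℝ)).mpr key
  push_cast at this
  simpa using this

theorem int_rem (H B D d : ℕ) (hd : 0 < d) : |(intSieve H B D).rem d| ≤ 1 := by
  unfold BoundingSieve.rem
  have h1 : (intSieve H B D).multSum d =
      (((Finset.Ioc H (H + B)).filter (fun n => d ∣ n)).card : ℝ) := by
    unfold multSum intSieve
    dsimp only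
    rw [Finset.sum_boole]
  have h2 : (intSieve H B D).nu d = (d : ℝ)⁻¹ := rfl
  have h3 : (intSieve H B D).totalMass = B := rfl
  rw [h1, h2, h3]
  have := card_dvd_Ioc H B d hd
  rwa [div_eq_inv_mul] at this

theorem sum_inv_sq_le (w : ℕ) : ∑ s ∈ Finset.Icc 1 w, (1 : ℝ) / (s : ℝ) ^ 2 ≤ 2 := by
  have h := sum_Ioo_inv_sq_le (α := ℝ) 0 (w + 1)
  have h2 : Finset.Icc 1 w = Finset.Ioo 0 (w + 1) := by
    ext x
    simp only [Finset.mem_Icc, Finset.mem_Ioo]
    omega
  rw [h2]
  simp only [one_div]
  refine h.trans ?_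
  norm_num

theorem SS_ge (H B D : ℕ) :
    ∑ l ∈ (Finset.Icc 1 D).filter Squarefree, (1 : ℝ) / l ≤ SS (intSieve H B D) D := by
  unfold SS
  have hsub : (Finset.Icc 1 D).filter Squarefree ⊆ (intSieve H B D).prodPrimes.divisors := by
    intro l hl
    rw [Finset.mem_filter, Finset.mem_Icc] at hl
    rw [Nat.mem_divisors]
    refine ⟨?_, prodPrimes_ne_zero⟩
    exact hl.2.dvd_primorial.trans (primorial_dvd_primorial hl.1.2)
  calc ∑ l ∈ (Finset.Icc 1 D).filter Squarefree, (1 : ℝ) / l
      ≤ ∑ l ∈ (Finset.Icc 1 D).filter Squarefree,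
          (if l ≤ D then (intSieve H B D).selbergTerms l else 0) := by
        apply Finset.sum_le_sum
        intro l hl
        rw [Finset.mem_filter, Finset.mem_Icc] at hl
        rw [if_pos hl.1.2, selbergTerms_apply]
        have hnu : (intSieve H B D).nu l = (l : ℝ)⁻¹ := rfl
        rw [hnu, one_div]
        apply le_mul_of_one_le_right (by positivity)
        have hprod : ∏ p ∈ l.primeFactors, (1 : ℝ) ≤
            ∏ p ∈ l.primeFactors, (1 - (intSieve H B D).nu p)⁻¹ := by
          apply Finset.prod_le_prod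
          · intro i _; exact zero_le_one
          · intro p hp
            have hpp := Nat.prime_of_mem_primeFactors hp
            have hpl := Nat.dvd_of_mem_primeFactors hp
            have hdvd : p ∣ (intSieve H B D).prodPrimes := by
              show p ∣ primorial D
              rw [hpp.dvd_primorial_iff]
              exact (Nat.le_of_dvd (by omega) hpl).trans hl.1.2
            have e1 := (intSieve H B D).nu_pos_of_prime p hpp hdvd
            have e2 := (intSieve H B D).nu_lt_one_of_prime p hpp hdvd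
            rw [one_le_inv₀ (by linarith)]
            linarith
        simpa using hprod
    _ ≤ _ := by
        apply Finset.sum_le_sum_of_subset_of_nonneg hsub
        intro i hi _
        split_ifs
        · exact (selbergTerms_pos (Nat.dvd_of_mem_divisors hi)).le
        · exact le_rfl

theorem sum_sqfree_ge (D : ℕ) :
    Real.log D ≤ 2 * ∑ l ∈ (Finset.Icc 1 D).filter Squarefree, (1 : ℝ) / l := by
  have h1 : Real.log D ≤ ∑ n ∈ Finset.Icc 1 D, (1 : ℝ) / n := by
    rcases Nat.eq_zero_or_pos D with h | h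
    · subst h; simp
    have h2 : Real.log D ≤ (harmonic D : ℝ) :=
      (Real.log_le_log (by exact_mod_cast h) (by push_cast; linarith)).trans
        (log_add_one_le_harmonic D)
    rw [harmonic_eq_sum_Icc] at h2
    push_cast at h2
    simpa [one_div] using h2
  have h2 : ∑ n ∈ Finset.Icc 1 D, (1 : ℝ) / n ≤
      ∑ x ∈ ((Finset.Icc 1 D).filter Squarefree) ×ˢ (Finset.Icc 1 D), (1 : ℝ) / x.1 * (1 / (x.2 : ℝ) ^ 2) := by
    have hex : ∀ n : ℕ, ∃ x : ℕ × ℕ, x.2 ^ 2 * x.1 = n ∧ Squarefree x.1 := by
      intro n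
      obtain ⟨a, b, h, hs⟩ := Nat.sq_mul_squarefree n
      exact ⟨(a, b), h, hs⟩
    choose f hf using hex
    have hinj : Set.InjOn f (Finset.Icc 1 D : Set ℕ) := by
      intro a _ b _ hab
      rw [← (hf a).1, ← (hf b).1, hab]
    calc ∑ n ∈ Finset.Icc 1 D, (1 : ℝ) / n
        = ∑ x ∈ (Finset.Icc 1 D).image f, (1 : ℝ) / x.1 * (1 / (x.2 : ℝ) ^ 2) := by
          rw [Finset.sum_image hinj]
          apply Finset.sum_congr rfl
          intro n _
          conv_lhs => rw [← (hf n).1]
          push_cast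
          rw [one_div, one_div, one_div, mul_inv]
          ring
      _ ≤ _ := by
          apply Finset.sum_le_sum_of_subset_of_nonneg
          · intro x hx
            rw [Finset.mem_image] at hx
            obtain ⟨n, hn, rfl⟩ := hx
            rw [Finset.mem_Icc] at hn
            obtain ⟨h3, h4⟩ := hf n
            have hx1 : 0 < (f n).1 := Nat.pos_of_ne_zero h4.ne_zero
            have hx2 : 0 < (f n).2 := by
              rcases Nat.eq_zero_or_pos (f n).2 with h | h
              · rw [h] at h3; simp at h3; omega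
              · exact h
            rw [Finset.mem_product, Finset.mem_filter, Finset.mem_Icc, Finset.mem_Icc]
            refine ⟨⟨⟨hx1, ?_⟩, h4⟩, hx2, ?_⟩
            · calc (f n).1 ≤ (f n).2 ^ 2 * (f n).1 := Nat.le_mul_of_pos_left _ (by positivity)
                _ ≤ D := by omega
            · calc (f n).2 ≤ (f n).2 ^ 2 := Nat.le_self_pow (by norm_num) _
                _ ≤ (f n).2 ^ 2 * (f n).1 := Nat.le_mul_of_pos_right _ hx1
                _ ≤ D := by omega
          · intro x _ _
            positivity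
  have h3 : ∑ x ∈ ((Finset.Icc 1 D).filter Squarefree) ×ˢ (Finset.Icc 1 D), (1 : ℝ) / x.1 * (1 / (x.2 : ℝ) ^ 2)
      = (∑ l ∈ (Finset.Icc 1 D).filter Squarefree, (1 : ℝ) / l) *
        ∑ s ∈ Finset.Icc 1 D, (1 : ℝ) / (s : ℝ) ^ 2 := by
    rw [Finset.sum_product, Finset.sum_mul_sum]
  rw [h3] at h2
  have h4 := sum_inv_sq_le D
  have h5 : 0 ≤ ∑ l ∈ (Finset.Icc 1 D).filter Squarefree, (1 : ℝ) / (l : ℝ) :=
    Finset.sum_nonneg (fun i _ => by positivity)
  nlinarith

/-- Integers of an interval of length `B` free of primes `≤ D`. -/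
theorem card_rough (H B D : ℕ) (hD : 2 ≤ D) :
    (((Finset.Ioc H (H + B)).filter (fun n => ∀ p ∈ P D, ¬ p ∣ n)).card : ℝ) ≤
      2 * B / Real.log D + (D : ℝ) ^ 4 := by
  have h := selberg_bound (intSieve H B D) D (by omega) (D : ℝ) 1 (by positivity) zero_le_one ?_ ?_
  · have hlog : 0 < Real.log D := Real.log_pos (by exact_mod_cast (by omega : 1 < D))
    have h1 : (intSieve H B D).siftedSum =
        (((Finset.Ioc H (H + B)).filter (fun n => ∀ p ∈ P D, ¬ p ∣ n)).card : ℝ) := by
      unfold siftedSum intSieve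
      dsimp only
      rw [Finset.sum_boole]
      congr 2
      apply Finset.filter_congr
      intro n _
      constructor
      · intro hn p hpD hpn
        have hp := (mem_P.mp hpD).1
        have h2 : p ∣ primorial D := (hp.dvd_primorial_iff).mpr (mem_P.mp hpD).2
        have := Nat.dvd_gcd h2 hpn
        rw [Nat.Coprime] at hn
        rw [hn] at this
        exact hp.one_lt.ne' (Nat.dvd_one.mp this)
      · intro hn
        rw [Nat.coprime_iff_gcd_eq_one]
        by_contra hne
        obtain ⟨p, hp, hpd⟩ := Nat.exists_prime_and_dvd hne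
        have h2 : p ∣ primorial D := hpd.trans (Nat.gcd_dvd_left _ _)
        exact hn p (mem_P.mpr ⟨hp, (hp.dvd_primorial_iff).mp h2⟩) (hpd.trans (Nat.gcd_dvd_right _ _))
    rw [h1] at h
    refine h.trans ?_
    have h2 : (intSieve H B D).totalMass = B := rfl
    rw [h2]
    have h3 : Real.log D / 2 ≤ SS (intSieve H B D) D := by
      have := sum_sqfree_ge D
      have := SS_ge H B D
      linarith
    have h4 : (B : ℝ) / SS (intSieve H B D) D ≤ 2 * B / Real.log D := by
      calc (B : ℝ) / SS (intSieve H B D) D ≤ B / (Real.log D / 2) := by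
            apply div_le_div_of_nonneg_left (by positivity) (by positivity) h3
        _ = _ := by ring
    have h5 : (D : ℝ) ^ 2 * (D : ℝ) ^ 2 * 1 = (D : ℝ) ^ 4 := by ring
    rw [h5]
    linarith
  · intro d _ hdD
    have : (intSieve H B D).nu d = (d : ℝ)⁻¹ := rfl
    rw [this, inv_inv]
    exact_mod_cast hdD
  · intro d hdP _
    exact int_rem H B D d (Nat.pos_of_dvd_of_pos hdP (Nat.pos_of_ne_zero prodPrimes_ne_zero))

/-- Some residue class can be removed at relative cost at most `1 / p`. -/
theorem exists_class_small (S : Finset ℕ) (p : ℕ) (hp : 0 < p) :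
    ∃ c : ℕ, (1 - 1 / (p : ℝ)) * (S.card : ℝ) ≤ ((S.filter (fun b => ¬ b ≡ c [MOD p])).card : ℝ) := by
  have hp' : (0 : ℝ) < p := by exact_mod_cast hp
  have h1 : ∑ c ∈ range p, (S.filter (fun b => b % p = c)).card = S.card := by
    symm
    apply Finset.card_eq_sum_card_fiberwise
    intro b _
    simp only [Finset.coe_range, Set.mem_Iio]
    exact Nat.mod_lt _ hp
  obtain ⟨c, hc, hle⟩ : ∃ c ∈ range p, (S.filter (fun b => b % p = c)).card * p ≤ S.card := by
    by_contra hcon
    push Not at hcon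
    have h2 : ∑ c ∈ range p, S.card < ∑ c ∈ range p, (S.filter (fun b => b % p = c)).card * p :=
      Finset.sum_lt_sum_of_nonempty ⟨0, by simpa using hp⟩ hcon
    rw [← Finset.sum_mul, h1, Finset.sum_const, card_range, smul_eq_mul, mul_comm] at h2
    exact lt_irrefl _ h2
  refine ⟨c, ?_⟩
  have hc' : c < p := by simpa using hc
  have h3 := Finset.card_filter_add_card_filter_not (s := S) (fun b => b ≡ c [MOD p])
  have h4 : S.filter (fun b => b ≡ c [MOD p]) = S.filter (fun b => b % p = c) := by
    apply Finset.filter_congr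
    intro b _
    unfold Nat.ModEq
    rw [Nat.mod_eq_of_lt hc']
  rw [h4] at h3
  have h5 : (((S.filter (fun b => b % p = c)).card : ℝ)) * p ≤ S.card := by exact_mod_cast hle
  have h6 : (((S.filter (fun b => b % p = c)).card : ℝ)) +
      ((S.filter (fun b => ¬ b ≡ c [MOD p])).card : ℝ) = S.card := by exact_mod_cast h3
  have h7 : ((S.filter (fun b => b % p = c)).card : ℝ) ≤ (S.card : ℝ) / p := by
    rw [le_div_iff₀ hp']
    exact h5
  have h8 : (1 - 1 / (p : ℝ)) * (S.card : ℝ) = S.card - S.card / p := by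
    ring
  rw [h8]
  linarith

/-- Some residue class contains at least the expected number of elements. -/
theorem exists_class_large (S : Finset ℕ) (p : ℕ) (hp : 0 < p) :
    ∃ c : ℕ, ((S.filter (fun b => ¬ b ≡ c [MOD p])).card : ℝ) ≤ (1 - 1 / (p : ℝ)) * (S.card : ℝ) := by
  have hp' : (0 : ℝ) < p := by exact_mod_cast hp
  have h1 : ∑ c ∈ range p, (S.filter (fun b => b % p = c)).card = S.card := by
    symm
    apply Finset.card_eq_sum_card_fiberwise
    intro b _
    simp only [Finset.coe_range, Set.mem_Iio]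
    exact Nat.mod_lt _ hp
  obtain ⟨c, hc, hle⟩ : ∃ c ∈ range p, S.card ≤ (S.filter (fun b => b % p = c)).card * p := by
    by_contra hcon
    push Not at hcon
    have h2 : ∑ c ∈ range p, (S.filter (fun b => b % p = c)).card * p < ∑ c ∈ range p, S.card :=
      Finset.sum_lt_sum_of_nonempty ⟨0, by simpa using hp⟩ hcon
    rw [← Finset.sum_mul, h1, Finset.sum_const, card_range, smul_eq_mul, mul_comm] at h2
    exact lt_irrefl _ h2
  refine ⟨c, ?_⟩
  have hc' : c < p := by simpa using hc
  have h3 := Finset.card_filter_add_card_filter_not (s := S) (fun b => b ≡ c [MOD p])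
  have h4 : S.filter (fun b => b ≡ c [MOD p]) = S.filter (fun b => b % p = c) := by
    apply Finset.filter_congr
    intro b _
    unfold Nat.ModEq
    rw [Nat.mod_eq_of_lt hc']
  rw [h4] at h3
  have h5 : (S.card : ℝ) ≤ (((S.filter (fun b => b % p = c)).card : ℝ)) * p := by exact_mod_cast hle
  have h6 : (((S.filter (fun b => b % p = c)).card : ℝ)) +
      ((S.filter (fun b => ¬ b ≡ c [MOD p])).card : ℝ) = S.card := by exact_mod_cast h3
  have h7 : (S.card : ℝ) / p ≤ ((S.filter (fun b => b % p = c)).card : ℝ) := by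
    rw [div_le_iff₀ hp']
    exact h5
  have h8 : (1 - 1 / (p : ℝ)) * (S.card : ℝ) = S.card - S.card / p := by
    ring
  rw [h8]
  linarith

theorem one_sub_inv_nonneg (p : ℕ) : 0 ≤ 1 - 1 / (p : ℝ) := by
  rcases Nat.eq_zero_or_pos p with h | h
  · subst h; simp
  · have : (1 : ℝ) ≤ p := by exact_mod_cast h
    have := div_le_one_of_le₀ this (by positivity)
    linarith

/-- Removing one class for each element of `Q` so that many elements remain. -/
theorem exists_classes_small (S : Finset ℕ) (Q : Finset ℕ) (hQ : ∀ p ∈ Q, 0 < p) :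
    ∃ h : ℕ → ℕ, (∏ p ∈ Q, (1 - 1 / (p : ℝ))) * (S.card : ℝ) ≤
      ((S.filter (fun b => ∀ p ∈ Q, ¬ b ≡ h p [MOD p])).card : ℝ) := by
  classical
  induction Q using Finset.induction_on with
  | empty => exact ⟨fun _ => 0, by simp⟩
  | insert p Q hpQ ih =>
    obtain ⟨h, hh⟩ := ih (fun q hq => hQ q (Finset.mem_insert_of_mem hq))
    obtain ⟨c, hc⟩ := exists_class_small (S.filter (fun b => ∀ p ∈ Q, ¬ b ≡ h p [MOD p])) p
      (hQ p (Finset.mem_insert_self _ _))
    refine ⟨fun q => if q = p then c else h q, ?_⟩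
    have e : S.filter (fun b => ∀ q ∈ insert p Q, ¬ b ≡ (if q = p then c else h q) [MOD q]) =
        (S.filter (fun b => ∀ p ∈ Q, ¬ b ≡ h p [MOD p])).filter (fun b => ¬ b ≡ c [MOD p]) := by
      ext b
      simp only [Finset.mem_filter, Finset.mem_insert]
      constructor
      · rintro ⟨h1, h2⟩
        refine ⟨⟨h1, ?_⟩, ?_⟩
        · intro q hq
          have := h2 q (Or.inr hq)
          rwa [if_neg (by rintro rfl; exact hpQ hq)] at this
        · simpa using h2 p (Or.inl rfl)
      · rintro ⟨⟨h1, h2⟩, h3⟩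
        refine ⟨h1, ?_⟩
        rintro q (rfl | hq)
        · simpa using h3
        · rw [if_neg (by rintro rfl; exact hpQ hq)]
          exact h2 q hq
    rw [e, Finset.prod_insert hpQ]
    refine le_trans ?_ hc
    rw [mul_assoc]
    exact mul_le_mul_of_nonneg_left hh (one_sub_inv_nonneg p)

/-- Removing one class for each element of `Q` so that few elements remain. -/
theorem exists_classes_large (S : Finset ℕ) (Q : Finset ℕ) (hQ : ∀ p ∈ Q, 0 < p) :
    ∃ h : ℕ → ℕ, ((S.filter (fun b => ∀ p ∈ Q, ¬ b ≡ h p [MOD p])).card : ℝ) ≤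
      (∏ p ∈ Q, (1 - 1 / (p : ℝ))) * (S.card : ℝ) := by
  classical
  induction Q using Finset.induction_on with
  | empty => exact ⟨fun _ => 0, by simp⟩
  | insert p Q hpQ ih =>
    obtain ⟨h, hh⟩ := ih (fun q hq => hQ q (Finset.mem_insert_of_mem hq))
    obtain ⟨c, hc⟩ := exists_class_large (S.filter (fun b => ∀ p ∈ Q, ¬ b ≡ h p [MOD p])) p
      (hQ p (Finset.mem_insert_self _ _))
    refine ⟨fun q => if q = p then c else h q, ?_⟩
    have e : S.filter (fun b => ∀ q ∈ insert p Q, ¬ b ≡ (if q = p then c else h q) [MOD q]) =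
        (S.filter (fun b => ∀ p ∈ Q, ¬ b ≡ h p [MOD p])).filter (fun b => ¬ b ≡ c [MOD p]) := by
      ext b
      simp only [Finset.mem_filter, Finset.mem_insert]
      constructor
      · rintro ⟨h1, h2⟩
        refine ⟨⟨h1, ?_⟩, ?_⟩
        · intro q hq
          have := h2 q (Or.inr hq)
          rwa [if_neg (by rintro rfl; exact hpQ hq)] at this
        · simpa using h2 p (Or.inl rfl)
      · rintro ⟨⟨h1, h2⟩, h3⟩
        refine ⟨h1, ?_⟩
        rintro q (rfl | hq)
        · simpa using h3
        · rw [if_neg (by rintro rfl; exact hpQ hq)]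
          exact h2 q hq
    rw [e, Finset.prod_insert hpQ]
    refine hc.trans ?_
    rw [mul_assoc]
    exact mul_le_mul_of_nonneg_left hh (one_sub_inv_nonneg p)

/-- Simultaneous congruences modulo distinct primes. -/
theorem exists_crt (Q : Finset ℕ) (hQ : ∀ p ∈ Q, p.Prime) (h : ℕ → ℕ) :
    ∃ a : ℕ, a < ∏ p ∈ Q, p ∧ ∀ p ∈ Q, a ≡ h p [MOD p] := by
  classical
  obtain ⟨a, ha⟩ : ∃ a : ℕ, ∀ p ∈ Q, a ≡ h p [MOD p] := by
    induction Q using Finset.induction_on with
    | empty => exact ⟨0, by simp⟩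
    | insert p Q hpQ ih =>
      obtain ⟨a, ha⟩ := ih (fun q hq => hQ q (Finset.mem_insert_of_mem hq))
      have hcop : Nat.Coprime p (∏ q ∈ Q, q) := by
        apply Nat.Coprime.prod_right
        intro q hq
        rw [Nat.coprime_primes (hQ p (Finset.mem_insert_self _ _)) (hQ q (Finset.mem_insert_of_mem hq))]
        rintro rfl
        exact hpQ hq
      obtain ⟨b, hb⟩ := Nat.chineseRemainder hcop (h p) a
      refine ⟨b, ?_⟩
      intro q hq
      rcases Finset.mem_insert.mp hq with rfl | hq
      · exact hb.1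
      · exact (Nat.ModEq.of_dvd (Finset.dvd_prod_of_mem _ hq) hb.2).trans (ha q hq)
  have hpos : 0 < ∏ p ∈ Q, p := Finset.prod_pos (fun p hp => (hQ p hp).pos)
  refine ⟨a % ∏ p ∈ Q, p, Nat.mod_lt _ hpos, ?_⟩
  intro p hp
  exact (Nat.ModEq.of_dvd (Finset.dvd_prod_of_mem _ hp) (Nat.mod_modEq a _)).trans (ha p hp)

/-- Elements of `[0, B)` avoiding one class modulo each prime in `(w, D]`. -/
theorem card_classes (B D w : ℕ) (hD : 2 ≤ D) (h : ℕ → ℕ) :
    (∏ p ∈ P w, (1 - 1 / (p : ℝ))) *
      (((range B).filter (fun b => ∀ p ∈ P D, w < p → ¬ b ≡ h p [MOD p])).card : ℝ) ≤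
      2 * B / Real.log D + (D : ℝ) ^ 4 := by
  classical
  set S := (range B).filter (fun b => ∀ p ∈ P D, w < p → ¬ b ≡ h p [MOD p]) with hS
  obtain ⟨g, hg⟩ := exists_classes_small S (P w) (fun p hp => (mem_P.mp hp).1.pos)
  refine hg.trans ?_
  -- the shift
  set k : ℕ → ℕ := fun p => if p ≤ w then g p else h p with hk
  obtain ⟨a, -, ha⟩ := exists_crt (P D) (fun p hp => (mem_P.mp hp).1)
    (fun p => (p - 1) * k p)
  have hav : ∀ p : ℕ, p.Prime → p ≤ D → ∀ b : ℕ, p ∣ a + b → b ≡ k p [MOD p] := by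
    intro p hp hpD b hb
    have h1 := ha p (mem_P.mpr ⟨hp, hpD⟩)
    have h2 : (p - 1) * k p + b ≡ 0 [MOD p] :=
      ((Nat.ModEq.add_right b h1).symm).trans (Nat.modEq_zero_iff_dvd.mpr hb)
    have h3 : (p - 1) * k p + b + k p ≡ k p [MOD p] := by
      have := Nat.ModEq.add_right (k p) h2
      simpa using this
    have h4 : (p - 1) * k p + b + k p = b + p * k p := by
      obtain ⟨r, hr⟩ : ∃ r, p = r + 1 := ⟨p - 1, by have := hp.pos; omega⟩
      rw [hr]
      simp only [Nat.add_sub_cancel]
      ring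
    rw [h4] at h3
    have h5 : b + p * k p ≡ b [MOD p] := by
      have : p * k p ≡ 0 [MOD p] := Nat.modEq_zero_iff_dvd.mpr (dvd_mul_right _ _)
      simpa using Nat.ModEq.add_left b this
    exact h5.symm.trans h3
  by_cases ha0 : 0 < a
  · have hcard := card_rough (a - 1) B D hD
    refine le_trans ?_ hcard
    have hle : (S.filter (fun b => ∀ p ∈ P w, ¬ b ≡ g p [MOD p])).card ≤
        ((Finset.Ioc (a - 1) (a - 1 + B)).filter (fun n => ∀ p ∈ P D, ¬ p ∣ n)).card := by
      apply Finset.card_le_card_of_injOn (fun b => a + b)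
      · intro b hb
        simp only [Finset.coe_filter, Set.mem_setOf_eq, hS, Finset.mem_filter, Finset.mem_range] at hb
        obtain ⟨⟨h1, h2⟩, h3⟩ := hb
        simp only [Finset.coe_filter, Set.mem_setOf_eq, Finset.mem_Ioc]
        refine ⟨by omega, ?_⟩
        intro p hpP hdvd
        obtain ⟨hp, hpD⟩ := mem_P.mp hpP
        have h4 := hav p hp hpD b hdvd
        rw [hk] at h4
        dsimp only at h4
        split_ifs at h4 with h5
        · exact h3 p (mem_P.mpr ⟨hp, h5⟩) h4
        · exact h2 p hpP (by omega) h4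
      · intro x _ y _ hxy
        dsimp only at hxy
        omega
    exact_mod_cast hle
  · -- `a = 0`: shift by a large multiple of the primorial
    have ha0' : a = 0 := by omega
    have hcard := card_rough (primorial D - 1) B D hD
    refine le_trans ?_ hcard
    have hpr : 0 < primorial D := primorial_pos D
    have hle : (S.filter (fun b => ∀ p ∈ P w, ¬ b ≡ g p [MOD p])).card ≤
        ((Finset.Ioc (primorial D - 1) (primorial D - 1 + B)).filter
          (fun n => ∀ p ∈ P D, ¬ p ∣ n)).card := by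
      apply Finset.card_le_card_of_injOn (fun b => primorial D + b)
      · intro b hb
        simp only [Finset.coe_filter, Set.mem_setOf_eq, hS, Finset.mem_filter, Finset.mem_range] at hb
        obtain ⟨⟨h1, h2⟩, h3⟩ := hb
        simp only [Finset.coe_filter, Set.mem_setOf_eq, Finset.mem_Ioc]
        refine ⟨by omega, ?_⟩
        intro p hpP hdvd
        obtain ⟨hp, hpD⟩ := mem_P.mp hpP
        have h6 : p ∣ b := (Nat.dvd_add_right ((hp.dvd_primorial_iff).mpr hpD)).mp hdvd
        have h4 := hav p hp hpD b (by rw [ha0', zero_add]; exact h6)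
        rw [hk] at h4
        dsimp only at h4
        split_ifs at h4 with h5
        · exact h3 p (mem_P.mpr ⟨hp, h5⟩) h4
        · exact h2 p hpP (by omega) h4
      · intro x _ y _ hxy
        dsimp only at hxy
        omega
    exact_mod_cast hle

end

end Pool.Agent.H6.HR
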