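import Mathlib
import Pool.Agent.CoprimeSieve.Mertens
import Pool.Agent.H6.HR.Sieve

/-!
# Mertens type estimates
-/

set_option autoImplicit false

open Finset Pool.Agent.CoprimeSieve

namespace Pool.Agent.H6.HR

theorem pr_eq (n : ℕ) : pr (n : ℝ) = P n := by
  ext p
  rw [mem_pr, mem_P]
  simp

theorem mertens_second_lower : ∃ C : ℝ, 0 ≤ C ∧ ∀ a b : ℝ, 2 ≤ a → a ≤ b →
    Real.log (Real.log b / Real.log a) - C / Real.log a ≤
      ∑ p ∈ (pr b).filter (fun p : ℕ => a < (p:ℝ)), (1:ℝ) / p := by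
  obtain ⟨C, hC, hM⟩ := mertens_first
  refine ⟨2 * C, by linarith, ?_⟩
  intro a b ha hab
  have hloga : 0 < Real.log a := Real.log_pos (by linarith)
  have hlogb : 0 < Real.log b := Real.log_pos (by linarith)
  have hlog : ∀ t ∈ Set.Icc a b, 0 < Real.log t := fun t ht => Real.log_pos (by linarith [ht.1])
  have hpos : ∀ t ∈ Set.Icc a b, 0 < t := fun t ht => by linarith [ht.1]
  have hderiv : ∀ t ∈ Set.Icc a b, HasDerivAt (fun t => (Real.log t)⁻¹) (-(t⁻¹) / (Real.log t)^2) t := by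
    intro t ht
    exact (Real.hasDerivAt_log (hpos t ht).ne').inv (hlog t ht).ne'
  have hderiv' : ∀ t ∈ Set.Icc a b, deriv (fun t => (Real.log t)⁻¹) t = -(t⁻¹) / (Real.log t)^2 :=
    fun t ht => (hderiv t ht).deriv
  have hcont : ContinuousOn (fun t : ℝ => -(t⁻¹) / (Real.log t)^2) (Set.Icc a b) := by
    apply ContinuousOn.div
    · apply ContinuousOn.neg
      apply ContinuousOn.inv₀ continuousOn_id
      intro t ht; exact (hpos t ht).ne'
    · apply ContinuousOn.pow
      apply Real.continuousOn_log.mono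
      intro t ht
      simp only [Set.mem_compl_iff, Set.mem_singleton_iff]
      exact (hpos t ht).ne'
    · intro t ht
      have := hlog t ht
      positivity
  have hint : MeasureTheory.IntegrableOn (deriv (fun t => (Real.log t)⁻¹)) (Set.Icc a b) := by
    apply (hcont.integrableOn_Icc).congr_fun _ measurableSet_Icc
    intro t ht
    exact (hderiv' t ht).symm
  have key := sum_mul_eq_sub_sub_integral_mul (𝕜 := ℝ) mc (f := fun t => (Real.log t)⁻¹) (a := a) (b := b)
    (by linarith) hab (fun t ht => (hderiv t ht).differentiableAt) hint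
  have hLHS : ∑ k ∈ Finset.Ioc ⌊a⌋₊ ⌊b⌋₊, (Real.log (k:ℝ))⁻¹ * mc k
      = ∑ p ∈ (pr b).filter (fun p : ℕ => a < (p:ℝ)), (1:ℝ) / p := by
    have e1 : ∑ k ∈ Finset.Ioc ⌊a⌋₊ ⌊b⌋₊, (Real.log (k:ℝ))⁻¹ * mc k
        = ∑ k ∈ Finset.Ioc ⌊a⌋₊ ⌊b⌋₊, if k.Prime then (1:ℝ)/k else 0 := by
      apply Finset.sum_congr rfl
      intro k _
      unfold mc
      split_ifs with h
      · have hk : 0 < Real.log k := Real.log_pos (by exact_mod_cast h.one_lt)
        have hk0 : (0:ℝ) < k := by exact_mod_cast h.pos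
        field_simp
      · simp
    rw [e1, ← Finset.sum_filter]
    apply Finset.sum_congr _ (fun _ _ => rfl)
    ext p
    simp only [mem_filter, mem_Ioc, mem_pr]
    constructor
    · rintro ⟨⟨h1, h2⟩, h3⟩
      exact ⟨⟨h3, (Nat.le_floor_iff' h3.ne_zero).mp h2⟩, Nat.lt_of_floor_lt h1⟩
    · rintro ⟨⟨h1, h2⟩, h3⟩
      exact ⟨⟨(Nat.floor_lt (by linarith)).mpr h3, (Nat.le_floor_iff' h1.ne_zero).mpr h2⟩, h1⟩
  rw [hLHS, sum_mc, sum_mc] at key
  rw [key]
  -- bound the integral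
  have hmE : ∀ t ∈ Set.Icc a b, Real.log t - C ≤ mE t := by
    intro t ht
    have := (abs_le.mp (hM t (by linarith [ht.1]))).1
    linarith
  have hint2 : MeasureTheory.IntegrableOn (fun t => deriv (fun t => (Real.log t)⁻¹) t *
      ∑ k ∈ Finset.Icc 0 ⌊t⌋₊, mc k) (Set.Icc a b) :=
    integrableOn_mul_sum_Icc mc (by linarith) hint
  have hint3 : ContinuousOn (fun t : ℝ => -(t⁻¹) / (Real.log t)^2 * (Real.log t - C)) (Set.Icc a b) := by
    apply hcont.mul
    apply ContinuousOn.sub _ continuousOn_const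
    apply Real.continuousOn_log.mono
    intro t ht
    simp only [Set.mem_compl_iff, Set.mem_singleton_iff]
    exact (hpos t ht).ne'
  have hI : ∫ t in Set.Ioc a b, deriv (fun t => (Real.log t)⁻¹) t * ∑ k ∈ Finset.Icc 0 ⌊t⌋₊, mc k
      ≤ ∫ t in Set.Ioc a b, -(t⁻¹) / (Real.log t)^2 * (Real.log t - C) := by
    apply MeasureTheory.setIntegral_mono_on
    · exact hint2.mono_set Set.Ioc_subset_Icc_self
    · exact hint3.integrableOn_Icc.mono_set Set.Ioc_subset_Icc_self
    · exact measurableSet_Ioc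
    · intro t ht
      have ht' := Set.Ioc_subset_Icc_self ht
      rw [hderiv' t ht', sum_mc]
      have h1 := hmE t ht'
      have h2 : -(t⁻¹) / (Real.log t)^2 ≤ 0 := by
        apply div_nonpos_of_nonpos_of_nonneg
        · have := hpos t ht'
          simp only [Left.neg_nonpos_iff]
          positivity
        · positivity
      nlinarith
  have hI2 : ∫ t in Set.Ioc a b, -(t⁻¹) / (Real.log t)^2 * (Real.log t - C)
      = (-(Real.log (Real.log b)) + (-C) * (Real.log b)⁻¹) - (-(Real.log (Real.log a)) + (-C) * (Real.log a)⁻¹) := by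
    rw [← intervalIntegral.integral_of_le hab]
    apply intervalIntegral.integral_eq_sub_of_hasDerivAt
    · intro t ht
      rw [Set.uIcc_of_le hab] at ht
      have h0 := hpos t ht
      have h1 := hlog t ht
      have h2 : HasDerivAt (fun t => Real.log (Real.log t)) (t⁻¹ / Real.log t) t :=
        (Real.hasDerivAt_log h0.ne').log h1.ne'
      have h3 := h2.neg.add ((hderiv t ht).const_mul (-C))
      refine h3.congr_deriv ?_
      field_simp
      ring
    · apply ContinuousOn.intervalIntegrable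
      rw [Set.uIcc_of_le hab]
      exact hint3
  have h1 := (abs_le.mp (hM b (by linarith))).1
  have h2 := (abs_le.mp (hM a (by linarith))).2
  have h3 : 1 - C * (Real.log b)⁻¹ ≤ (Real.log b)⁻¹ * mE b := by
    have : (Real.log b)⁻¹ * (Real.log b - C) ≤ (Real.log b)⁻¹ * mE b :=
      mul_le_mul_of_nonneg_left (by linarith) (by positivity)
    have e : (Real.log b)⁻¹ * (Real.log b - C) = 1 - C * (Real.log b)⁻¹ := by
      field_simp
    linarith
  have h4 : (Real.log a)⁻¹ * mE a ≤ 1 + C * (Real.log a)⁻¹ := by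
    have : (Real.log a)⁻¹ * mE a ≤ (Real.log a)⁻¹ * (Real.log a + C) :=
      mul_le_mul_of_nonneg_left (by linarith) (by positivity)
    have e : (Real.log a)⁻¹ * (Real.log a + C) = 1 + C * (Real.log a)⁻¹ := by
      field_simp
    linarith
  rw [Real.log_div hlogb.ne' hloga.ne']
  have e2 : 2 * C / Real.log a = 2 * (C * (Real.log a)⁻¹) := by rw [div_eq_mul_inv]; ring
  rw [e2]
  linarith

/-- Reciprocals of the primes in `(y, K]`. -/
theorem sum_recip_le : ∃ C : ℝ, 0 ≤ C ∧ ∀ y K : ℕ, 2 ≤ y → y ≤ K →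
    ∑ p ∈ (P K).filter (fun p => y < p), (1:ℝ) / p ≤
      Real.log (Real.log K / Real.log y) + C / Real.log y := by
  obtain ⟨C, hC, h⟩ := mertens_second_upper
  refine ⟨C, hC, ?_⟩
  intro y K hy hyK
  have := h y K (by exact_mod_cast hy) (by exact_mod_cast hyK)
  rw [pr_eq] at this
  simpa using this

theorem sum_recip_ge : ∃ C : ℝ, 0 ≤ C ∧ ∀ y K : ℕ, 2 ≤ y → y ≤ K →
    Real.log (Real.log K / Real.log y) - C / Real.log y ≤
      ∑ p ∈ (P K).filter (fun p => y < p), (1:ℝ) / p := by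
  obtain ⟨C, hC, h⟩ := mertens_second_lower
  refine ⟨C, hC, ?_⟩
  intro y K hy hyK
  have := h y K (by exact_mod_cast hy) (by exact_mod_cast hyK)
  rw [pr_eq] at this
  simpa using this

theorem sum_P_le : ∃ C : ℝ, 0 ≤ C ∧ ∀ w : ℕ, 2 ≤ w →
    ∑ p ∈ P w, (1:ℝ) / p ≤ Real.log (Real.log w) + C := by
  obtain ⟨C, hC, h⟩ := sum_recip_le
  have hl2 : 0 < Real.log 2 := Real.log_pos (by norm_num)
  refine ⟨max 0 (1 / 2 - Real.log (Real.log 2) + C / Real.log 2), le_max_left _ _, ?_⟩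
  intro w hw
  have h1 := h 2 w le_rfl hw
  have h2 := Finset.sum_filter_add_sum_filter_not (P w) (fun p => 2 < p) (fun p => (1:ℝ) / p)
  have h3 : (P w).filter (fun p => ¬ 2 < p) = {2} := by
    ext p
    rw [Finset.mem_filter, mem_P, Finset.mem_singleton]
    constructor
    · rintro ⟨⟨hp, -⟩, h4⟩
      have := hp.two_le
      omega
    · rintro rfl
      exact ⟨⟨Nat.prime_two, hw⟩, by omega⟩
  rw [h3, Finset.sum_singleton] at h2
  have hlw : 0 < Real.log w := Real.log_pos (by exact_mod_cast (by omega : 1 < w))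
  push_cast at h1 h2
  rw [Real.log_div hlw.ne' hl2.ne'] at h1
  have h5 := le_max_right (0 : ℝ) (1 / 2 - Real.log (Real.log 2) + C / Real.log 2)
  linarith

theorem sum_P_ge : ∃ C : ℝ, 0 ≤ C ∧ ∀ w : ℕ, 2 ≤ w →
    Real.log (Real.log w) - C ≤ ∑ p ∈ P w, (1:ℝ) / p := by
  obtain ⟨C, hC, h⟩ := sum_recip_ge
  have hl2 : 0 < Real.log 2 := Real.log_pos (by norm_num)
  refine ⟨max 0 (Real.log (Real.log 2) + C / Real.log 2), le_max_left _ _, ?_⟩
  intro w hw
  have h1 := h 2 w le_rfl hw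
  have h2 : ∑ p ∈ (P w).filter (fun p => 2 < p), (1:ℝ) / p ≤ ∑ p ∈ P w, (1:ℝ) / p :=
    Finset.sum_le_sum_of_subset_of_nonneg (Finset.filter_subset _ _) (fun _ _ _ => by positivity)
  have hlw : 0 < Real.log w := Real.log_pos (by exact_mod_cast (by omega : 1 < w))
  push_cast at h1
  rw [Real.log_div hlw.ne' hl2.ne'] at h1
  have h5 := le_max_right (0 : ℝ) (Real.log (Real.log 2) + C / Real.log 2)
  linarith

theorem prod_ge : ∃ c : ℝ, 0 < c ∧ ∀ w : ℕ, 2 ≤ w →
    c / Real.log w ≤ ∏ p ∈ P w, (1 - 1 / (p : ℝ)) := by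
  obtain ⟨C, hC, h⟩ := sum_P_le
  refine ⟨Real.exp (-(C + 4)), Real.exp_pos _, ?_⟩
  intro w hw
  have hlw : 0 < Real.log w := Real.log_pos (by exact_mod_cast (by omega : 1 < w))
  have h1 : ∀ p ∈ P w, Real.exp (-(1 / (p : ℝ) + 2 * (1 / (p : ℝ) ^ 2))) ≤ 1 - 1 / (p : ℝ) := by
    intro p hp
    have hp2 : (2 : ℝ) ≤ p := by exact_mod_cast (mem_P.mp hp).1.two_le
    have ht : 1 / (p : ℝ) ≤ 1 / 2 := one_div_le_one_div_of_le (by norm_num) hp2
    have ht0 : 0 < 1 / (p : ℝ) := by positivity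
    set t := 1 / (p : ℝ) with htd
    have e : 1 / (p : ℝ) ^ 2 = t ^ 2 := by rw [htd]; ring
    rw [e, Real.exp_neg]
    have h2 : 1 + (t + 2 * t ^ 2) ≤ Real.exp (t + 2 * t ^ 2) := by
      have := Real.add_one_le_exp (t + 2 * t ^ 2)
      linarith
    have h3 : 1 ≤ (1 - t) * (1 + (t + 2 * t ^ 2)) := by nlinarith [mul_pos ht0 ht0]
    rw [inv_le_iff_one_le_mul₀ (Real.exp_pos _)]
    calc (1 : ℝ) ≤ (1 - t) * (1 + (t + 2 * t ^ 2)) := h3
      _ ≤ (1 - t) * Real.exp (t + 2 * t ^ 2) := by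
          apply mul_le_mul_of_nonneg_left h2
          linarith
  have h2 : Real.exp (-∑ p ∈ P w, (1 / (p : ℝ) + 2 * (1 / (p : ℝ) ^ 2))) ≤
      ∏ p ∈ P w, (1 - 1 / (p : ℝ)) := by
    rw [← Finset.sum_neg_distrib, Real.exp_sum]
    apply Finset.prod_le_prod
    · intro p _; exact (Real.exp_pos _).le
    · exact h1
  refine le_trans ?_ h2
  have h3 : ∑ p ∈ P w, (1 / (p : ℝ) ^ 2) ≤ 2 := by
    refine le_trans ?_ (sum_inv_sq_le w)
    apply Finset.sum_le_sum_of_subset_of_nonneg (Finset.filter_subset _ _)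
    intro i _ _
    positivity
  have h4 := h w hw
  rw [Finset.sum_add_distrib, ← Finset.mul_sum]
  have h5 : Real.exp (-(C + 4)) / Real.log w = Real.exp (-(C + 4) - Real.log (Real.log w)) := by
    rw [Real.exp_sub, Real.exp_log hlw]
  rw [h5]
  apply Real.exp_le_exp.mpr
  linarith

theorem prod_le (z : ℕ) : ∃ C : ℝ, 0 < C ∧ ∀ w : ℕ, 2 ≤ w →
    ∏ p ∈ (P w).filter (fun p => z < p), (1 - 1 / (p : ℝ)) ≤ C / Real.log w := by
  obtain ⟨C, hC, h⟩ := sum_P_ge
  refine ⟨Real.exp (C + ∑ p ∈ P z, (1:ℝ) / p), Real.exp_pos _, ?_⟩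
  intro w hw
  have hlw : 0 < Real.log w := Real.log_pos (by exact_mod_cast (by omega : 1 < w))
  have h1 : ∏ p ∈ (P w).filter (fun p => z < p), (1 - 1 / (p : ℝ)) ≤
      Real.exp (-∑ p ∈ (P w).filter (fun p => z < p), 1 / (p : ℝ)) := by
    rw [← Finset.sum_neg_distrib, Real.exp_sum]
    apply Finset.prod_le_prod
    · intro p _; exact one_sub_inv_nonneg p
    · intro p _
      have := Real.add_one_le_exp (-(1 / (p : ℝ)))
      linarith
  refine h1.trans ?_
  have h2 := Finset.sum_filter_add_sum_filter_not (P w) (fun p => z < p) (fun p => (1:ℝ) / p)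
  have h3 : ∑ p ∈ (P w).filter (fun p => ¬ z < p), (1:ℝ) / p ≤ ∑ p ∈ P z, (1:ℝ) / p := by
    apply Finset.sum_le_sum_of_subset_of_nonneg
    · intro p hp
      rw [Finset.mem_filter, mem_P] at hp
      rw [mem_P]
      exact ⟨hp.1.1, by omega⟩
    · intro i _ _
      positivity
  have h4 := h w hw
  have h5 : Real.exp (C + ∑ p ∈ P z, (1:ℝ) / p) / Real.log w =
      Real.exp (C + ∑ p ∈ P z, (1:ℝ) / p - Real.log (Real.log w)) := by
    rw [Real.exp_sub, Real.exp_log hlw]
  rw [h5]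
  apply Real.exp_le_exp.mpr
  linarith

/-- Chebyshev's upper bound. -/
theorem pi_le : ∃ C : ℝ, 0 < C ∧ ∀ x : ℝ, 2 ≤ x → (Nat.primeCounting ⌊x⌋₊ : ℝ) ≤ C * x / Real.log x := by
  refine ⟨2 * Real.log 4 + 2, ?_, ?_⟩
  · have : 0 < Real.log 4 := Real.log_pos (by norm_num)
    linarith
  intro x hx
  have h := Chebyshev.pi_le_log4_mul_div (show 1 < x by linarith)
  refine h.trans ?_
  have hx0 : 0 < x := by linarith
  have hlog : 0 < Real.log x := Real.log_pos (by linarith)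
  have h1 : Real.log √x = Real.log x / 2 := Real.log_sqrt hx0.le
  have hs0 : 0 < √x := Real.sqrt_pos.mpr hx0
  have hs : √x * √x = x := Real.mul_self_sqrt hx0.le
  have h2 : Real.log x ≤ 2 * √x := by
    have := Real.log_le_sub_one_of_pos hs0
    rw [h1] at this
    linarith
  have h3 : √x ≤ 2 * x / Real.log x := by
    rw [le_div_iff₀ hlog]
    nlinarith
  rw [h1]
  have h4 : Real.log 4 * x / (Real.log x / 2) = 2 * Real.log 4 * x / Real.log x := by
    field_simp
  rw [h4]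
  have h5 : (2 * Real.log 4 + 2) * x / Real.log x = 2 * Real.log 4 * x / Real.log x + 2 * x / Real.log x := by
    ring
  rw [h5]
  linarith

end Pool.Agent.H6.HR
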