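import Mathlib
import Pool.Agent.H6.HR.Mertens

/-!
# An upper bound for the number of smooth numbers
-/

set_option autoImplicit false

open Finset ArithmeticFunction

namespace Pool.Agent.H6.HR

noncomputable section

/-- The completely multiplicative function `n ↦ (4/3)^Ω(n) / n`. -/
def fS : ℕ →* ℝ where
  toFun n := (4 / 3 : ℝ) ^ (cardFactors n) * (n : ℝ)⁻¹
  map_one' := by simp
  map_mul' m n := by
    rcases Nat.eq_zero_or_pos m with h | h
    · subst h; simp
    rcases Nat.eq_zero_or_pos n with h' | h'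
    · subst h'; simp
    rw [cardFactors_mul h.ne' h'.ne', pow_add]
    push_cast
    rw [mul_inv]
    ring

theorem fS_apply (n : ℕ) : fS n = (4 / 3 : ℝ) ^ (cardFactors n) * (n : ℝ)⁻¹ := rfl

theorem fS_prime {p : ℕ} (hp : p.Prime) : fS p = (4 / 3) / p := by
  rw [fS_apply, cardFactors_apply_prime hp]
  ring

theorem fS_nonneg (n : ℕ) : 0 ≤ fS n := by
  rw [fS_apply]; positivity

/-- `Ω(n) log w ≥ log n` for `w`-smooth `n`. -/
theorem log_le_cardFactors (w n : ℕ) (hn : n ≠ 0) (h : ∀ p : ℕ, p.Prime → p ∣ n → p ≤ w) :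
    Real.log n ≤ (cardFactors n : ℝ) * Real.log w := by
  induction n using Nat.recOnMul with
  | zero => exact absurd rfl hn
  | one => simp
  | prime p hp =>
    rw [cardFactors_apply_prime hp]
    have := h p hp dvd_rfl
    have h2 : Real.log p ≤ Real.log w := Real.log_le_log (by exact_mod_cast hp.pos) (by exact_mod_cast this)
    simpa using h2
  | mul a b iha ihb =>
    have ha : a ≠ 0 := left_ne_zero_of_mul hn
    have hb : b ≠ 0 := right_ne_zero_of_mul hn
    rw [cardFactors_mul ha hb]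
    push_cast
    rw [Real.log_mul (by exact_mod_cast ha) (by exact_mod_cast hb), add_mul]
    exact add_le_add (iha ha (fun p hp hpa => h p hp (hpa.mul_right b)))
      (ihb hb (fun p hp hpb => h p hp (hpb.mul_left a)))

theorem sum_smooth_le : ∃ C : ℝ, 0 < C ∧ ∀ w J : ℕ, 2 ≤ w →
    ∑ n ∈ (Finset.Icc 1 J).filter (fun n => ∀ p ∈ n.primeFactors, p ≤ w), fS n ≤
      C * (Real.log w) ^ 3 := by
  obtain ⟨C, hC, h⟩ := sum_P_le
  have hl2 : 0 < Real.log 2 := Real.log_pos (by norm_num)
  refine ⟨Real.exp (8 / 3 * C) * (1 / Real.log 2) , by positivity, ?_⟩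
  intro w J hw
  have hlw : 0 < Real.log w := Real.log_pos (by exact_mod_cast (by omega : 1 < w))
  have hlw2 : Real.log 2 ≤ Real.log w := Real.log_le_log (by norm_num) (by exact_mod_cast hw)
  have hf : ∀ {p : ℕ}, p.Prime → ‖fS p‖ < 1 := by
    intro p hp
    have hp2 : (2 : ℝ) ≤ p := by exact_mod_cast hp.two_le
    rw [fS_prime hp, Real.norm_of_nonneg (by positivity), div_lt_one (by linarith)]
    linarith
  obtain ⟨h1, h2⟩ := EulerProduct.summable_and_hasSum_smoothNumbers_prod_primesBelow_geometric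
    (f := fS) hf (w + 1)
  -- the sum over the finite set is at most the product
  have h3 : ∑ n ∈ (Finset.Icc 1 J).filter (fun n => ∀ p ∈ n.primeFactors, p ≤ w), fS n ≤
      ∏ p ∈ (w + 1).primesBelow, (1 - fS p)⁻¹ := by
    have hmem : ∀ n ∈ (Finset.Icc 1 J).filter (fun n => ∀ p ∈ n.primeFactors, p ≤ w),
        n ∈ (w + 1).smoothNumbers := by
      intro n hn
      rw [Finset.mem_filter, Finset.mem_Icc] at hn
      refine ⟨by omega, ?_⟩
      intro p hp
      have := hn.2 p (by rw [Nat.primeFactors]; simpa using hp)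
      omega
    classical
    have h4 := sum_le_hasSum (((Finset.Icc 1 J).filter
      (fun n => ∀ p ∈ n.primeFactors, p ≤ w)).subtype (fun n => n ∈ (w + 1).smoothNumbers))
      (fun i _ => fS_nonneg i.1) h2
    refine le_trans (le_of_eq ?_) h4
    exact (Finset.sum_subtype_of_mem (fun x => fS x) hmem).symm
  refine h3.trans ?_
  have h5 : ∏ p ∈ (w + 1).primesBelow, (1 - fS p)⁻¹ ≤
      Real.exp (∑ p ∈ (w + 1).primesBelow, 8 / 3 * (1 / (p : ℝ))) := by
    rw [Real.exp_sum]
    apply Finset.prod_le_prod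
    · intro p hp
      have hpp := Nat.prime_of_mem_primesBelow hp
      have := hf hpp
      rw [Real.norm_of_nonneg (fS_nonneg p)] at this
      have : 0 < 1 - fS p := by linarith
      positivity
    · intro p hp
      have hpp := Nat.prime_of_mem_primesBelow hp
      have hp2 : (2 : ℝ) ≤ p := by exact_mod_cast hpp.two_le
      have hp0 : (0 : ℝ) < p := by linarith
      rw [fS_prime hpp]
      have e : (8 : ℝ) / 3 * (1 / (p : ℝ)) = 2 * ((4 / 3) / p) := by ring
      rw [e]
      set t := (4 / 3 : ℝ) / p with ht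
      have ht0 : 0 < t := by positivity
      have ht1 : t ≤ 2 / 3 := by
        rw [ht, div_le_iff₀ hp0]
        linarith
      have h6 : 1 + 2 * t + 2 * t ^ 2 ≤ Real.exp (2 * t) := by
        have := Real.quadratic_le_exp_of_nonneg (show 0 ≤ 2 * t by linarith)
        linarith [this]
      have h7 : 1 ≤ (1 - t) * (1 + 2 * t + 2 * t ^ 2) := by nlinarith [mul_pos ht0 ht0]
      have h8 : 0 < 1 - t := by linarith
      rw [inv_le_iff_one_le_mul₀ h8]
      calc (1 : ℝ) ≤ (1 - t) * (1 + 2 * t + 2 * t ^ 2) := h7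
        _ ≤ (1 - t) * Real.exp (2 * t) := mul_le_mul_of_nonneg_left h6 h8.le
        _ = _ := by ring
  refine h5.trans ?_
  have h6 : (w + 1).primesBelow = P w := by
    ext p
    rw [Nat.mem_primesBelow, mem_P]
    constructor
    · rintro ⟨h1, h2⟩; exact ⟨h2, by omega⟩
    · rintro ⟨h1, h2⟩; exact ⟨by omega, h1⟩
  rw [h6, ← Finset.mul_sum]
  have h7 := h w hw
  calc Real.exp (8 / 3 * ∑ p ∈ P w, 1 / (p : ℝ)) ≤ Real.exp (8 / 3 * C + 8 / 3 * Real.log (Real.log w)) := by
        apply Real.exp_le_exp.mpr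
        linarith
    _ = Real.exp (8 / 3 * C) * (Real.log w) ^ (8 / 3 : ℝ) := by
        rw [Real.exp_add, Real.rpow_def_of_pos hlw]
        ring_nf
    _ ≤ Real.exp (8 / 3 * C) * ((1 / Real.log 2) * (Real.log w) ^ 3) := by
        apply mul_le_mul_of_nonneg_left _ (Real.exp_pos _).le
        rcases le_total 1 (Real.log w) with h8 | h8
        · calc (Real.log w) ^ (8 / 3 : ℝ) ≤ (Real.log w) ^ (3 : ℝ) :=
                Real.rpow_le_rpow_of_exponent_le h8 (by norm_num)
            _ = (Real.log w) ^ 3 := by norm_cast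
            _ ≤ _ := by
                apply le_mul_of_one_le_left (by positivity)
                rw [le_div_iff₀ hl2]
                have := Real.log_two_lt_d9
                linarith
        · have e1 : (Real.log w) ^ (8 / 3 : ℝ) = (Real.log w) ^ (3 : ℝ) * (Real.log w) ^ (-(1 / 3) : ℝ) := by
            rw [← Real.rpow_add hlw]
            norm_num
          have e2 : (Real.log w) ^ (-(1 / 3) : ℝ) ≤ 1 / Real.log 2 := by
            calc (Real.log w) ^ (-(1 / 3) : ℝ) ≤ (Real.log w) ^ (-1 : ℝ) :=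
                  Real.rpow_le_rpow_of_exponent_ge hlw h8 (by norm_num)
              _ = 1 / Real.log w := by rw [Real.rpow_neg_one, one_div]
              _ ≤ 1 / Real.log 2 := one_div_le_one_div_of_le hl2 hlw2
          rw [e1]
          calc (Real.log w) ^ (3 : ℝ) * (Real.log w) ^ (-(1 / 3) : ℝ)
              ≤ (Real.log w) ^ (3 : ℝ) * (1 / Real.log 2) :=
                mul_le_mul_of_nonneg_left e2 (by positivity)
            _ = _ := by
                rw [mul_comm]
                congr 1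
                norm_cast
    _ = _ := by ring

/-- Upper bound for the number of `w`-smooth numbers up to `J`. -/
theorem smooth_le : ∃ C : ℝ, 0 < C ∧ ∀ w J : ℕ, 2 ≤ w → 1 ≤ J →
    (((Finset.Icc 1 J).filter (fun n => ∀ p ∈ n.primeFactors, p ≤ w)).card : ℝ) ≤
      √J + C * J * (Real.log w) ^ 3 * (3 / 4 : ℝ) ^ (Real.log J / (2 * Real.log w)) := by
  obtain ⟨C, hC, h⟩ := sum_smooth_le
  refine ⟨C, hC, ?_⟩
  intro w J hw hJ
  have hlw : 0 < Real.log w := Real.log_pos (by exact_mod_cast (by omega : 1 < w))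
  have hJ0 : (0 : ℝ) < J := by exact_mod_cast hJ
  set S := (Finset.Icc 1 J).filter (fun n => ∀ p ∈ n.primeFactors, p ≤ w) with hS
  have h1 := Finset.card_filter_add_card_filter_not (s := S) (fun n : ℕ => (n : ℝ) ≤ √J)
  have h2 : ((S.filter (fun n : ℕ => (n : ℝ) ≤ √J)).card : ℝ) ≤ √J := by
    have : S.filter (fun n : ℕ => (n : ℝ) ≤ √J) ⊆ Finset.Icc 1 ⌊√J⌋₊ := by
      intro n hn
      rw [Finset.mem_filter, hS, Finset.mem_filter, Finset.mem_Icc] at hn
      rw [Finset.mem_Icc]
      exact ⟨hn.1.1.1, Nat.le_floor hn.2⟩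
    have h3 := Finset.card_le_card this
    rw [Nat.card_Icc, Nat.add_sub_cancel] at h3
    calc ((S.filter (fun n : ℕ => (n : ℝ) ≤ √J)).card : ℝ) ≤ (⌊√J⌋₊ : ℝ) := by exact_mod_cast h3
      _ ≤ √J := Nat.floor_le (by positivity)
  have h3 : ((S.filter (fun n : ℕ => ¬ (n : ℝ) ≤ √J)).card : ℝ) ≤
      C * J * (Real.log w) ^ 3 * (3 / 4 : ℝ) ^ (Real.log J / (2 * Real.log w)) := by
    set A := (4 / 3 : ℝ) ^ (Real.log J / (2 * Real.log w)) with hA
    have hA0 : 0 < A := Real.rpow_pos_of_pos (by norm_num) _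
    have hAinv : (3 / 4 : ℝ) ^ (Real.log J / (2 * Real.log w)) = A⁻¹ := by
      rw [hA, ← Real.inv_rpow (by norm_num)]
      norm_num
    have h4 : ∀ n ∈ S.filter (fun n : ℕ => ¬ (n : ℝ) ≤ √J), A / J ≤ fS n := by
      intro n hn
      rw [Finset.mem_filter, hS, Finset.mem_filter, Finset.mem_Icc] at hn
      obtain ⟨⟨⟨h5, h6⟩, h7⟩, h8⟩ := hn
      push Not at h8
      have hn0 : (0 : ℝ) < n := by exact_mod_cast h5
      have h9 : Real.log n ≤ (cardFactors n : ℝ) * Real.log w := by
        apply log_le_cardFactors w n (by omega)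
        intro p hp hpn
        exact h7 p (Nat.mem_primeFactors.mpr ⟨hp, hpn, by omega⟩)
      have h10 : Real.log J / 2 ≤ Real.log n := by
        rw [← Real.log_sqrt hJ0.le]
        exact Real.log_le_log (by positivity) h8.le
      have h11 : Real.log J / (2 * Real.log w) ≤ (cardFactors n : ℝ) := by
        rw [div_le_iff₀ (by positivity)]
        linarith
      rw [fS_apply, div_eq_mul_inv]
      apply mul_le_mul
      · rw [hA, ← Real.rpow_natCast (4 / 3 : ℝ) (cardFactors n)]
        exact Real.rpow_le_rpow_of_exponent_le (by norm_num) h11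
      · rw [inv_le_inv₀ hJ0 hn0]
        exact_mod_cast h6
      · positivity
      · positivity
    have h5 := Finset.card_nsmul_le_sum _ _ _ h4
    rw [nsmul_eq_mul] at h5
    have h6 : ∑ n ∈ S.filter (fun n : ℕ => ¬ (n : ℝ) ≤ √J), fS n ≤ ∑ n ∈ S, fS n :=
      Finset.sum_le_sum_of_subset_of_nonneg (Finset.filter_subset _ _) (fun i _ _ => fS_nonneg i)
    have h7 := h w J hw
    rw [hAinv]
    have h8 : ((S.filter (fun n : ℕ => ¬ (n : ℝ) ≤ √J)).card : ℝ) * (A / J) ≤ C * (Real.log w) ^ 3 :=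
      h5.trans (h6.trans h7)
    have h9 : ((S.filter (fun n : ℕ => ¬ (n : ℝ) ≤ √J)).card : ℝ) ≤ C * (Real.log w) ^ 3 / (A / J) := by
      rw [le_div_iff₀ (by positivity)]
      exact h8
    refine h9.trans (le_of_eq ?_)
    field_simp
  have h4 : (S.card : ℝ) = ((S.filter (fun n : ℕ => (n : ℝ) ≤ √J)).card : ℝ) +
      ((S.filter (fun n : ℕ => ¬ (n : ℝ) ≤ √J)).card : ℝ) := by exact_mod_cast h1.symm
  rw [h4]
  exact add_le_add h2 h3

end

end Pool.Agent.H6.HR
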