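import Mathlib
import Pool.Agent.H6.HR.Smooth

/-!
# Covering an interval by residue classes (after Rankin)
-/

set_option autoImplicit false

open Finset

namespace Pool.Agent.H6.HR

noncomputable section

theorem P_eq_primesBelow (n : ℕ) : P n = (n + 1).primesBelow := by
  ext p
  rw [Nat.mem_primesBelow, mem_P]
  constructor
  · rintro ⟨h1, h2⟩; exact ⟨by omega, h1⟩
  · rintro ⟨h1, h2⟩; exact ⟨h2, by omega⟩

theorem card_P (n : ℕ) : (P n).card = Nat.primeCounting n := by
  rw [P_eq_primesBelow, Nat.primesBelow_card_eq_primeCounting', Nat.primeCounting]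

/-- Numbers below `J` with a prime factor above `w`. -/
theorem card_large_factor : ∃ C : ℝ, 0 < C ∧ ∀ w J : ℕ, 2 ≤ w →
    (((range J).filter (fun j => j ≠ 0 ∧ ∃ p ∈ j.primeFactors, w < p)).card : ℝ) ≤
      C * J / Real.log w * (1 + Real.log (1 + J / w)) := by
  obtain ⟨C, hC, hpi⟩ := pi_le
  refine ⟨C, hC, ?_⟩
  intro w J hw
  have hlw : 0 < Real.log w := Real.log_pos (by exact_mod_cast (by omega : 1 < w))
  have hw0 : (0 : ℝ) < w := by exact_mod_cast (by omega : 0 < w)
  have hsub : (range J).filter (fun j => j ≠ 0 ∧ ∃ p ∈ j.primeFactors, w < p) ⊆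
      (Finset.Icc 1 (J / w)).biUnion (fun i => (P (J / i)).image (fun p => i * p)) := by
    intro j hj
    rw [Finset.mem_filter, Finset.mem_range] at hj
    obtain ⟨h1, h2, p, hp, hwp⟩ := hj
    have hpp := Nat.prime_of_mem_primeFactors hp
    obtain ⟨i, hi⟩ := Nat.dvd_of_mem_primeFactors hp
    have hi0 : 0 < i := by
      rcases Nat.eq_zero_or_pos i with h | h
      · rw [h] at hi; simp at hi; exact absurd hi h2
      · exact h
    rw [Finset.mem_biUnion]
    refine ⟨i, ?_, ?_⟩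
    · rw [Finset.mem_Icc]
      refine ⟨hi0, ?_⟩
      rw [Nat.le_div_iff_mul_le (by omega)]
      calc i * w ≤ i * p := Nat.mul_le_mul_left _ hwp.le
        _ = j := by rw [hi]; ring
        _ ≤ J := h1.le
    · rw [Finset.mem_image]
      refine ⟨p, ?_, by rw [hi]; ring⟩
      rw [mem_P]
      refine ⟨hpp, ?_⟩
      rw [Nat.le_div_iff_mul_le hi0]
      omega
  have h1 : (((range J).filter (fun j => j ≠ 0 ∧ ∃ p ∈ j.primeFactors, w < p)).card : ℝ) ≤
      ∑ i ∈ Finset.Icc 1 (J / w), (Nat.primeCounting (J / i) : ℝ) := by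
    have h2 := (Finset.card_le_card hsub).trans Finset.card_biUnion_le
    have h3 : ∑ i ∈ Finset.Icc 1 (J / w), ((P (J / i)).image (fun p => i * p)).card ≤
        ∑ i ∈ Finset.Icc 1 (J / w), Nat.primeCounting (J / i) := by
      apply Finset.sum_le_sum
      intro i _
      rw [← card_P]
      exact Finset.card_image_le
    exact_mod_cast h2.trans h3
  refine h1.trans ?_
  have h2 : ∀ i ∈ Finset.Icc 1 (J / w), (Nat.primeCounting (J / i) : ℝ) ≤ C * J / Real.log w * (1 / i) := by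
    intro i hi
    rw [Finset.mem_Icc] at hi
    have hi0 : (0 : ℝ) < i := by exact_mod_cast hi.1
    have hiw : i * w ≤ J := (Nat.le_div_iff_mul_le (by omega)).mp hi.2
    have h3 : (w : ℝ) ≤ (J : ℝ) / i := by
      rw [le_div_iff₀ hi0]
      have : ((i * w : ℕ) : ℝ) ≤ J := by exact_mod_cast hiw
      push_cast at this
      linarith
    have h4 : (2 : ℝ) ≤ (J : ℝ) / i := le_trans (by exact_mod_cast hw) h3
    have h5 := hpi ((J : ℝ) / i) h4
    rw [Nat.floor_div_eq_div (K := ℝ)] at h5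
    refine h5.trans ?_
    have h6 : Real.log w ≤ Real.log ((J : ℝ) / i) := Real.log_le_log hw0 h3
    calc C * ((J : ℝ) / i) / Real.log ((J : ℝ) / i) ≤ C * ((J : ℝ) / i) / Real.log w := by
          apply div_le_div_of_nonneg_left (by positivity) hlw h6
      _ = _ := by ring
  refine (Finset.sum_le_sum h2).trans ?_
  rw [← Finset.mul_sum]
  apply mul_le_mul_of_nonneg_left _ (by positivity)
  have h3 : ∑ i ∈ Finset.Icc 1 (J / w), (1 : ℝ) / i = (harmonic (J / w) : ℝ) := by
    rw [harmonic_eq_sum_Icc]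
    push_cast
    simp [one_div]
  rw [h3]
  rcases Nat.eq_zero_or_pos (J / w) with h | h
  · rw [h]
    simp only [harmonic_zero, Rat.cast_zero]
    have : 0 ≤ Real.log (1 + J / w) := Real.log_nonneg (by
      have : (0 : ℝ) ≤ (J : ℝ) / w := by positivity
      linarith)
    linarith
  · refine (harmonic_le_one_add_log (J / w)).trans ?_
    have h4 : ((J / w : ℕ) : ℝ) ≤ (J : ℝ) / w := Nat.cast_div_le
    have h5 : Real.log ((J / w : ℕ) : ℝ) ≤ Real.log (1 + J / w) :=
      Real.log_le_log (by exact_mod_cast h) (by linarith)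
    linarith

/-- Residue classes modulo the primes in `(z, w1]` that cover nearly all of `[0, J)`. -/
theorem cover (z : ℕ) : ∃ C : ℝ, 0 < C ∧ ∀ w3 w1 J : ℕ, 2 ≤ w3 → z ≤ w3 → w3 ≤ w1 → 1 ≤ J →
    ∃ h : ℕ → ℕ, (((range J).filter (fun j => ∀ p ∈ P w1, z < p → ¬ j ≡ h p [MOD p])).card : ℝ) ≤
      C / Real.log w3 * (1 + √J + J * (Real.log w3) ^ 3 * (3 / 4 : ℝ) ^ (Real.log J / (2 * Real.log w3))
        + J / Real.log w1 * (1 + Real.log (1 + J / w1))) := by
  obtain ⟨C1, hC1, hsm⟩ := smooth_le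
  obtain ⟨C2, hC2, hlf⟩ := card_large_factor
  obtain ⟨C3, hC3, hpl⟩ := prod_le z
  refine ⟨C3 * (1 + C1 + C2), by positivity, ?_⟩
  intro w3 w1 J hw3 hz hw31 hJ
  have hlw3 : 0 < Real.log w3 := Real.log_pos (by exact_mod_cast (by omega : 1 < w3))
  have hlw1 : 0 < Real.log w1 := Real.log_pos (by exact_mod_cast (by omega : 1 < w1))
  set R0 := (range J).filter (fun j => ∀ p ∈ P w1, w3 < p → ¬ p ∣ j) with hR0
  obtain ⟨g, hg⟩ := exists_classes_large R0 ((P w3).filter (fun p => z < p))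
    (fun p hp => (mem_P.mp (Finset.mem_filter.mp hp).1).1.pos)
  refine ⟨fun p => if p ≤ w3 then g p else 0, ?_⟩
  have hsub : (range J).filter (fun j => ∀ p ∈ P w1, z < p → ¬ j ≡ (if p ≤ w3 then g p else 0) [MOD p]) ⊆
      R0.filter (fun j => ∀ p ∈ (P w3).filter (fun p => z < p), ¬ j ≡ g p [MOD p]) := by
    intro j hj
    rw [Finset.mem_filter] at hj
    rw [Finset.mem_filter, hR0, Finset.mem_filter]
    refine ⟨⟨hj.1, ?_⟩, ?_⟩
    · intro p hp hwp hpj
      have := hj.2 p hp (by omega)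
      rw [if_neg (by omega)] at this
      exact this (Nat.modEq_zero_iff_dvd.mpr hpj)
    · intro p hp
      rw [Finset.mem_filter, mem_P] at hp
      have := hj.2 p (mem_P.mpr ⟨hp.1.1, by omega⟩) hp.2
      rwa [if_pos hp.1.2] at this
  have h1 : (((range J).filter (fun j => ∀ p ∈ P w1, z < p →
      ¬ j ≡ (if p ≤ w3 then g p else 0) [MOD p])).card : ℝ) ≤ C3 / Real.log w3 * R0.card := by
    calc _ ≤ ((R0.filter (fun j => ∀ p ∈ (P w3).filter (fun p => z < p), ¬ j ≡ g p [MOD p])).card : ℝ) := by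
          exact_mod_cast Finset.card_le_card hsub
      _ ≤ _ := hg
      _ ≤ _ := by
          apply mul_le_mul_of_nonneg_right (hpl w3 hw3)
          positivity
  refine h1.trans ?_
  have h2 : R0 ⊆ ({0} ∪ (Finset.Icc 1 J).filter (fun n => ∀ p ∈ n.primeFactors, p ≤ w3)) ∪
      (range J).filter (fun j => j ≠ 0 ∧ ∃ p ∈ j.primeFactors, w1 < p) := by
    intro j hj
    rw [hR0, Finset.mem_filter, Finset.mem_range] at hj
    rw [Finset.mem_union, Finset.mem_union, Finset.mem_singleton, Finset.mem_filter, Finset.mem_Icc,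
      Finset.mem_filter, Finset.mem_range]
    by_cases hj0 : j = 0
    · exact Or.inl (Or.inl hj0)
    · by_cases hl : ∃ p ∈ j.primeFactors, w1 < p
      · exact Or.inr ⟨hj.1, hj0, hl⟩
      · push Not at hl
        refine Or.inl (Or.inr ⟨⟨by omega, by omega⟩, ?_⟩)
        intro p hp
        by_contra hcon
        have hpp := Nat.prime_of_mem_primeFactors hp
        exact hj.2 p (mem_P.mpr ⟨hpp, hl p hp⟩) (by omega) (Nat.dvd_of_mem_primeFactors hp)
  have h3 : (R0.card : ℝ) ≤ 1 + (((Finset.Icc 1 J).filter (fun n => ∀ p ∈ n.primeFactors, p ≤ w3)).card : ℝ) +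
      (((range J).filter (fun j => j ≠ 0 ∧ ∃ p ∈ j.primeFactors, w1 < p)).card : ℝ) := by
    have h4 := (Finset.card_le_card h2).trans (Finset.card_union_le _ _)
    have h5 := Finset.card_union_le {0} ((Finset.Icc 1 J).filter (fun n => ∀ p ∈ n.primeFactors, p ≤ w3))
    rw [Finset.card_singleton] at h5
    exact_mod_cast h4.trans (Nat.add_le_add_right h5 _)
  have h4 := hsm w3 J hw3 hJ
  have h5 := hlf w1 J (by omega)
  have h6 : (R0.card : ℝ) ≤ (1 + C1 + C2) * (1 + √J + J * (Real.log w3) ^ 3 *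
      (3 / 4 : ℝ) ^ (Real.log J / (2 * Real.log w3)) + J / Real.log w1 * (1 + Real.log (1 + J / w1))) := by
    have e1 : 0 ≤ √(J : ℝ) := Real.sqrt_nonneg _
    have e2 : 0 ≤ (J : ℝ) * (Real.log w3) ^ 3 * (3 / 4 : ℝ) ^ (Real.log J / (2 * Real.log w3)) := by
      positivity
    have e3 : 0 ≤ (J : ℝ) / Real.log w1 * (1 + Real.log (1 + J / w1)) := by
      have : 0 ≤ Real.log (1 + (J : ℝ) / w1) := Real.log_nonneg (by
        have : (0 : ℝ) ≤ (J : ℝ) / w1 := by positivity
        linarith)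
      positivity
    have e4 : C1 * J * (Real.log w3) ^ 3 * (3 / 4 : ℝ) ^ (Real.log J / (2 * Real.log w3)) =
      C1 * (J * (Real.log w3) ^ 3 * (3 / 4 : ℝ) ^ (Real.log J / (2 * Real.log w3))) := by ring
    have e5 : C2 * J / Real.log w1 * (1 + Real.log (1 + J / w1)) =
      C2 * (J / Real.log w1 * (1 + Real.log (1 + J / w1))) := by ring
    rw [e4] at h4
    rw [e5] at h5
    set X1 := √(J : ℝ)
    set X2 := (J : ℝ) * (Real.log w3) ^ 3 * (3 / 4 : ℝ) ^ (Real.log J / (2 * Real.log w3))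
    set X3 := (J : ℝ) / Real.log w1 * (1 + Real.log (1 + J / w1))
    have e6 : 0 ≤ C1 * X1 := by positivity
    have e7 : 0 ≤ C1 * X3 := by positivity
    have e8 : 0 ≤ C2 * X1 := by positivity
    have e9 : 0 ≤ C2 * X2 := by positivity
    nlinarith
  calc C3 / Real.log w3 * R0.card ≤ C3 / Real.log w3 * ((1 + C1 + C2) * (1 + √J + J * (Real.log w3) ^ 3 *
      (3 / 4 : ℝ) ^ (Real.log J / (2 * Real.log w3)) + J / Real.log w1 * (1 + Real.log (1 + J / w1)))) :=
        mul_le_mul_of_nonneg_left h6 (by positivity)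
    _ = _ := by ring

end

end Pool.Agent.H6.HR
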