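import Mathlib
import Pool.Agent.H6.HR.Cover

/-!
# A residue class modulo a prime `q` that contains few elements of a sifted set
-/

set_option autoImplicit false

open Finset

namespace Pool.Agent.H6.HR

noncomputable section

theorem dvd_int_iff (p : ℕ) (n : ℤ) : (p : ℤ) ∣ n ↔ ((n : ℤ) : ZMod p) = 0 :=
  (ZMod.intCast_zmod_eq_zero_iff_dvd n p).symm

theorem exists_class_few (z w1 D y N q J : ℕ) (T : Finset ℤ) (h : ℕ → ℕ) (hz : z ≤ w1) (hw1 : w1 ≤ y)
    (hD : 2 ≤ D) (hDy : D ≤ y)
    (hq : q.Prime) (hyq : y < q) (hJ : 2 * N / q + 1 ≤ J)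
    (hTN : ∀ n ∈ T, -(N : ℤ) ≤ n ∧ n ≤ N) (hT : ∀ n ∈ T, ∀ p ∈ P y, z < p → ¬ (p : ℤ) ∣ n)
    (hB : 0 < q / (∏ p ∈ (P w1).filter (fun p => z < p), p)) :
    ∃ a : ℤ, ((T.filter (fun n => (q : ℤ) ∣ n - a)).card : ℝ) *
        ((∏ p ∈ P w1, (1 - 1 / (p : ℝ))) * (q / (∏ p ∈ (P w1).filter (fun p => z < p), p) : ℕ)) ≤
      (((range J).filter (fun j => ∀ p ∈ P w1, z < p → ¬ j ≡ h p [MOD p])).card : ℝ) *
        (2 * (q / (∏ p ∈ (P w1).filter (fun p => z < p), p) : ℕ) / Real.log D + (D : ℝ) ^ 4) := by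
  classical
  set P1 := ∏ p ∈ (P w1).filter (fun p => z < p), p with hP1
  set B := q / P1 with hBd
  set R := (range J).filter (fun j => ∀ p ∈ P w1, z < p → ¬ j ≡ h p [MOD p]) with hR
  have hP1pos : 0 < P1 := Finset.prod_pos (fun p hp => (mem_P.mp (Finset.mem_filter.mp hp).1).1.pos)
  obtain ⟨a0, ha0, ha0'⟩ := exists_crt ((P w1).filter (fun p => z < p))
    (fun p hp => (mem_P.mp (Finset.mem_filter.mp hp).1).1) (fun p => N + (p - 1) * (q * h p))
  have hPB : P1 * B ≤ q := Nat.mul_div_le q P1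
  -- the number attached to `(j, b)`
  set n : ℕ → ℕ → ℤ := fun j b => (a0 : ℤ) + P1 * b - N + q * j with hn
  have hab : ∀ b < B, a0 + P1 * b < q := by
    intro b hb
    calc a0 + P1 * b < P1 + P1 * b := by omega
      _ = P1 * (b + 1) := by ring
      _ ≤ P1 * B := Nat.mul_le_mul_left _ hb
      _ ≤ q := hPB
  -- step 1: each class is contained in the image
  have hstep : ∀ b < B, (T.filter (fun m => (q : ℤ) ∣ m - ((a0 : ℤ) + P1 * b - N))).card ≤
      (R.filter (fun j => n j b ∈ T)).card := by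
    intro b hb
    have hlt := hab b hb
    have hq0 : (0 : ℤ) < q := by exact_mod_cast hq.pos
    apply Finset.card_le_card_of_injOn (fun m => ((m + N - (a0 + P1 * b : ℤ)) / q).toNat)
    · intro m hm
      simp only [Finset.coe_filter, Set.mem_ofPred_eq] at hm
      obtain ⟨hmT, c, hc⟩ := hm
      have hc' : m + N - (a0 + P1 * b : ℤ) = q * c := by linarith
      have hdiv : (m + N - (a0 + P1 * b : ℤ)) / q = c := by
        rw [hc', Int.mul_ediv_cancel_left _ hq0.ne']
      obtain ⟨hm1, hm2⟩ := hTN m hmT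
      have hcnn : 0 ≤ c := by
        by_contra hcn
        push Not at hcn
        have h1 : (q : ℤ) * c ≤ q * (-1) := mul_le_mul_of_nonneg_left (by omega) hq0.le
        have h2 : ((a0 + P1 * b : ℕ) : ℤ) < q := by exact_mod_cast hlt
        push_cast at h2
        linarith
      obtain ⟨j, rfl⟩ := Int.eq_ofNat_of_zero_le hcnn
      have hmn : n j b = m := by
        rw [hn]
        dsimp only
        linarith
      simp only [Finset.coe_filter, Set.mem_ofPred_eq]
      rw [hdiv]
      simp only [Int.ofNat_eq_natCast, Int.toNat_natCast]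
      refine ⟨?_, by rw [hmn]; exact hmT⟩
      rw [hR, Finset.mem_filter, Finset.mem_range]
      constructor
      · have h1 : q * j ≤ 2 * N := by
          have : (q : ℤ) * j ≤ 2 * N := by
            have h3 : (0 : ℤ) ≤ a0 + P1 * b := by positivity
            linarith
          exact_mod_cast this
        have h2 : j ≤ 2 * N / q := (Nat.le_div_iff_mul_le hq.pos).mpr (by linarith)
        omega
      · intro p hp hzp hmod
        have hpp := (mem_P.mp hp).1
        have hpw := (mem_P.mp hp).2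
        haveI : Fact p.Prime := ⟨hpp⟩
        apply hT m hmT p (mem_P.mpr ⟨hpp, hpw.trans hw1⟩) hzp
        rw [dvd_int_iff, ← hmn, hn]
        have e1 := ha0' p (Finset.mem_filter.mpr ⟨hp, hzp⟩)
        have e1' : (a0 : ZMod p) = ((N + (p - 1) * (q * h p) : ℕ) : ZMod p) :=
          (ZMod.natCast_eq_natCast_iff _ _ _).mpr e1
        have e2 : (j : ZMod p) = (h p : ZMod p) := (ZMod.natCast_eq_natCast_iff _ _ _).mpr hmod
        have e3 : (P1 : ZMod p) = 0 := by
          rw [ZMod.natCast_eq_zero_iff]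
          exact Finset.dvd_prod_of_mem _ (Finset.mem_filter.mpr ⟨hp, hzp⟩)
        have e4 : ((p - 1 : ℕ) : ZMod p) = -1 := by
          rw [Nat.cast_sub hpp.one_lt.le]
          simp
        push_cast at e1' ⊢
        rw [e1', e2, e3, e4]
        ring
    · intro m hm m' hm' hmm
      simp only [Finset.coe_filter, Set.mem_ofPred_eq] at hm hm'
      obtain ⟨hmT, c, hc⟩ := hm
      obtain ⟨hmT', c', hc'⟩ := hm'
      dsimp only at hmm
      have hcc : m + N - (a0 + P1 * b : ℤ) = q * c := by linarith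
      have hcc' : m' + N - (a0 + P1 * b : ℤ) = q * c' := by linarith
      rw [hcc, hcc', Int.mul_ediv_cancel_left _ hq0.ne', Int.mul_ediv_cancel_left _ hq0.ne'] at hmm
      have hnn : ∀ (m : ℤ), m ∈ T → ∀ c : ℤ, m - ((a0 : ℤ) + P1 * b - N) = q * c → 0 ≤ c := by
        intro m hm c hc
        obtain ⟨hm1, hm2⟩ := hTN m hm
        by_contra hcn
        push Not at hcn
        have h1 : (q : ℤ) * c ≤ q * (-1) := mul_le_mul_of_nonneg_left (by omega) hq0.le
        have h2 : ((a0 + P1 * b : ℕ) : ℤ) < q := by exact_mod_cast hlt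
        push_cast at h2
        linarith
      have h1 := hnn m hmT c hc
      have h2 := hnn m' hmT' c' hc'
      have h3 : c = c' := by omega
      rw [h3] at hcc
      linarith
  -- step 2: for each `j`, few `b`
  have hstep2 : ∀ j ∈ R, (∏ p ∈ P w1, (1 - 1 / (p : ℝ))) * (((range B).filter (fun b => n j b ∈ T)).card : ℝ) ≤
      2 * B / Real.log D + (D : ℝ) ^ 4 := by
    intro j _
    have hex : ∀ p : ℕ, ∃ g : ℕ, p.Prime → w1 < p → ∀ b : ℕ, b ≡ g [MOD p] → (p : ℤ) ∣ n j b := by
      intro p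
      by_cases hp : p.Prime
      · haveI : Fact p.Prime := ⟨hp⟩
        refine ⟨(((N : ZMod p) - a0 - q * j) * (P1 : ZMod p)⁻¹).val, ?_⟩
        intro _ hwp b hb
        have hne : (P1 : ZMod p) ≠ 0 := by
          rw [Ne, ZMod.natCast_eq_zero_iff, hP1, hp.prime.dvd_finsetProd_iff]
          rintro ⟨r, hr, hpr⟩
          rw [Finset.mem_filter, mem_P] at hr
          have := (Nat.prime_dvd_prime_iff_eq hp hr.1.1).mp hpr
          omega
        have e1 : (b : ZMod p) = ((N : ZMod p) - a0 - q * j) * (P1 : ZMod p)⁻¹ := by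
          have := (ZMod.natCast_eq_natCast_iff _ _ _).mpr hb
          rw [this, ZMod.natCast_zmod_val]
        rw [dvd_int_iff, hn]
        push_cast
        rw [e1]
        have e2 : (P1 : ZMod p) * (((N : ZMod p) - a0 - q * j) * (P1 : ZMod p)⁻¹) =
            (N : ZMod p) - a0 - q * j := by
          field_simp
        rw [e2]
        ring
      · exact ⟨0, fun h => absurd h hp⟩
    choose g hg using hex
    refine le_trans ?_ (card_classes B D w1 hD g)
    apply mul_le_mul_of_nonneg_left _ (Finset.prod_nonneg (fun p _ => one_sub_inv_nonneg p))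
    have : (range B).filter (fun b => n j b ∈ T) ⊆
        (range B).filter (fun b => ∀ p ∈ P D, w1 < p → ¬ b ≡ g p [MOD p]) := by
      intro b hb
      rw [Finset.mem_filter] at hb ⊢
      refine ⟨hb.1, ?_⟩
      intro p hp hwp hmod
      have hpp := (mem_P.mp hp).1
      exact hT _ hb.2 p (mem_P.mpr ⟨hpp, (mem_P.mp hp).2.trans hDy⟩) (by omega) (hg p hpp hwp b hmod)
    exact_mod_cast Finset.card_le_card this
  -- step 3: double counting
  have hdc : ∑ b ∈ range B, (R.filter (fun j => n j b ∈ T)).card =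
      ∑ j ∈ R, ((range B).filter (fun b => n j b ∈ T)).card := by
    simp only [Finset.card_filter]
    rw [Finset.sum_comm]
  set W := ∏ p ∈ P w1, (1 - 1 / (p : ℝ)) with hW
  have hW0 : 0 ≤ W := Finset.prod_nonneg (fun p _ => one_sub_inv_nonneg p)
  have htot : W * ∑ b ∈ range B, ((R.filter (fun j => n j b ∈ T)).card : ℝ) ≤
      (R.card : ℝ) * (2 * B / Real.log D + (D : ℝ) ^ 4) := by
    have : (∑ b ∈ range B, ((R.filter (fun j => n j b ∈ T)).card : ℝ)) =
        ∑ j ∈ R, (((range B).filter (fun b => n j b ∈ T)).card : ℝ) := by exact_mod_cast hdc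
    rw [this, Finset.mul_sum]
    calc _ ≤ ∑ j ∈ R, (2 * B / Real.log D + (D : ℝ) ^ 4) := Finset.sum_le_sum hstep2
      _ = _ := by rw [Finset.sum_const, nsmul_eq_mul]
  obtain ⟨b, hb, hbmin⟩ := Finset.exists_min_image (range B) (fun b => (R.filter (fun j => n j b ∈ T)).card)
    ⟨0, by simpa using hB⟩
  refine ⟨(a0 : ℤ) + P1 * b - N, ?_⟩
  have h1 : (B : ℝ) * ((R.filter (fun j => n j b ∈ T)).card : ℝ) ≤
      ∑ b ∈ range B, ((R.filter (fun j => n j b ∈ T)).card : ℝ) := by
    have := Finset.card_nsmul_le_sum (range B) (fun b => ((R.filter (fun j => n j b ∈ T)).card : ℝ))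
      ((R.filter (fun j => n j b ∈ T)).card : ℝ) (fun b' hb' => by exact_mod_cast hbmin b' hb')
    rw [card_range, nsmul_eq_mul] at this
    exact this
  have h2 : ((T.filter (fun m => (q : ℤ) ∣ m - ((a0 : ℤ) + P1 * b - N))).card : ℝ) ≤
      ((R.filter (fun j => n j b ∈ T)).card : ℝ) := by exact_mod_cast hstep b (by simpa using hb)
  calc ((T.filter (fun m => (q : ℤ) ∣ m - ((a0 : ℤ) + P1 * b - N))).card : ℝ) * (W * B)
      ≤ ((R.filter (fun j => n j b ∈ T)).card : ℝ) * (W * B) := by
        apply mul_le_mul_of_nonneg_right h2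
        positivity
    _ = W * (B * ((R.filter (fun j => n j b ∈ T)).card : ℝ)) := by ring
    _ ≤ W * ∑ b ∈ range B, ((R.filter (fun j => n j b ∈ T)).card : ℝ) := mul_le_mul_of_nonneg_left h1 hW0
    _ ≤ _ := htot

end

end Pool.Agent.H6.HR
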