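import Mathlib
import Pool.Agent.H6.HR.Class

/-!
# The set `± m p` and a good choice of residue classes modulo the small primes
-/

set_option autoImplicit false

open Finset

namespace Pool.Agent.H6.HR

noncomputable section

/-- The local factor. -/
def phi (w : ℕ) (n : ℤ) : ℝ := if (w : ℤ) ∣ n then 1 else ((w : ℝ) - 2) / (w - 1)

theorem phi_nonneg {w : ℕ} (hw : 2 ≤ w) (n : ℤ) : 0 ≤ phi w n := by
  unfold phi
  have : (2 : ℝ) ≤ w := by exact_mod_cast hw
  split_ifs
  · exact zero_le_one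
  · apply div_nonneg <;> linarith

/-- One step of the choice of residue classes. -/
theorem choose_one (E : Finset ℤ) (w : ℕ) (hw : w.Prime) (W : ℤ → ℝ) (hW : ∀ n ∈ E, 0 ≤ W n) :
    ∃ c : ℤ, ∑ n ∈ E, phi w n * W n ≤ ∑ n ∈ E.filter (fun n => ¬ (w : ℤ) ∣ n - c), W n := by
  classical
  have hw2 : 2 ≤ w := hw.two_le
  have hw1 : (0 : ℝ) < (w : ℝ) - 1 := by
    have : (2 : ℝ) ≤ w := by exact_mod_cast hw2
    linarith
  by_contra hcon
  push Not at hcon
  have h1 : ∑ c ∈ Finset.Icc 1 (w - 1), ∑ n ∈ E.filter (fun n => ¬ (w : ℤ) ∣ n - (c : ℕ)), W n <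
      ∑ c ∈ Finset.Icc 1 (w - 1), ∑ n ∈ E, phi w n * W n := by
    apply Finset.sum_lt_sum_of_nonempty
    · exact ⟨1, by rw [Finset.mem_Icc]; omega⟩
    · intro c _
      exact hcon (c : ℕ)
  have h2 : ∑ c ∈ Finset.Icc 1 (w - 1), ∑ n ∈ E.filter (fun n => ¬ (w : ℤ) ∣ n - (c : ℕ)), W n =
      ∑ n ∈ E, (((Finset.Icc 1 (w - 1)).filter (fun c : ℕ => ¬ (w : ℤ) ∣ n - c)).card : ℝ) * W n := by
    simp only [Finset.sum_filter]
    rw [Finset.sum_comm]
    apply Finset.sum_congr rfl
    intro n _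
    rw [← Finset.sum_filter, Finset.sum_const, nsmul_eq_mul]
  have h3 : ∑ c ∈ Finset.Icc 1 (w - 1), ∑ n ∈ E, phi w n * W n =
      ∑ n ∈ E, ((w : ℝ) - 1) * (phi w n * W n) := by
    rw [Finset.sum_const, Nat.card_Icc, Nat.add_sub_cancel, nsmul_eq_mul, Finset.mul_sum,
      Nat.cast_sub (by omega), Nat.cast_one]
  rw [h2, h3] at h1
  have h4 : ∑ n ∈ E, ((w : ℝ) - 1) * (phi w n * W n) ≤
      ∑ n ∈ E, (((Finset.Icc 1 (w - 1)).filter (fun c : ℕ => ¬ (w : ℤ) ∣ n - c)).card : ℝ) * W n := by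
    apply Finset.sum_le_sum
    intro n hn
    rw [← mul_assoc]
    apply mul_le_mul_of_nonneg_right _ (hW n hn)
    unfold phi
    have hadd := Finset.card_filter_add_card_filter_not (s := Finset.Icc 1 (w - 1)) (fun c : ℕ => (w : ℤ) ∣ n - c)
    rw [Nat.card_Icc, Nat.add_sub_cancel] at hadd
    split_ifs with hd
    · -- no class is excluded
      have h5 : (Finset.Icc 1 (w - 1)).filter (fun c : ℕ => (w : ℤ) ∣ n - c) = ∅ := by
        rw [Finset.filter_eq_empty_iff]
        intro c hc hdc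
        rw [Finset.mem_Icc] at hc
        have h6 : (w : ℤ) ∣ (c : ℤ) := by
          have := dvd_sub hd hdc
          simpa using this
        have h7 : w ∣ c := by exact_mod_cast h6
        have := Nat.le_of_dvd (by omega) h7
        omega
      rw [h5, Finset.card_empty, zero_add] at hadd
      rw [hadd, Nat.cast_sub (by omega)]
      simp
    · have h5 : ((Finset.Icc 1 (w - 1)).filter (fun c : ℕ => (w : ℤ) ∣ n - c)).card ≤ 1 := by
        rw [Finset.card_le_one]
        intro a ha b hb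
        rw [Finset.mem_filter, Finset.mem_Icc] at ha hb
        have h6 : (w : ℤ) ∣ (a : ℤ) - b := by
          have := dvd_sub hb.2 ha.2
          have e : n - (b : ℤ) - (n - a) = (a : ℤ) - b := by ring
          rwa [e] at this
        have h7 : (a : ℤ) - b = 0 := by
          apply Int.eq_zero_of_abs_lt_dvd h6
          rw [abs_lt]
          constructor <;> omega
        omega
      have h6 : w - 2 ≤ ((Finset.Icc 1 (w - 1)).filter (fun c : ℕ => ¬ (w : ℤ) ∣ n - c)).card := by omega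
      have h7 : ((w : ℝ) - 2) ≤ (((Finset.Icc 1 (w - 1)).filter (fun c : ℕ => ¬ (w : ℤ) ∣ n - c)).card : ℝ) := by
        have : ((w - 2 : ℕ) : ℝ) ≤ (((Finset.Icc 1 (w - 1)).filter (fun c : ℕ => ¬ (w : ℤ) ∣ n - c)).card : ℝ) := by
          exact_mod_cast h6
        rw [Nat.cast_sub hw2] at this
        push_cast at this
        exact this
      calc ((w : ℝ) - 1) * (((w : ℝ) - 2) / (w - 1)) = (w : ℝ) - 2 := by field_simp
        _ ≤ _ := h7
  linarith

/-- The choice of residue classes modulo the primes of `Q`. -/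
theorem choose_all (Q : Finset ℕ) (hQ : ∀ w ∈ Q, w.Prime) (E : Finset ℤ) :
    ∃ c : ℕ → ℤ, ∑ n ∈ E, ∏ w ∈ Q, phi w n ≤
      ((E.filter (fun n => ∀ w ∈ Q, ¬ (w : ℤ) ∣ n - c w)).card : ℝ) := by
  classical
  induction Q using Finset.induction_on generalizing E with
  | empty => exact ⟨fun _ => 0, by simp⟩
  | insert w Q hwQ ih =>
    have hw := hQ w (Finset.mem_insert_self _ _)
    obtain ⟨c0, hc0⟩ := choose_one E w hw (fun n => ∏ w ∈ Q, phi w n)
      (fun n _ => Finset.prod_nonneg (fun w' hw' =>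
        phi_nonneg (hQ w' (Finset.mem_insert_of_mem hw')).two_le n))
    obtain ⟨c, hc⟩ := ih (fun w' hw' => hQ w' (Finset.mem_insert_of_mem hw'))
      (E.filter (fun n => ¬ (w : ℤ) ∣ n - c0))
    refine ⟨fun w' => if w' = w then c0 else c w', ?_⟩
    have e : E.filter (fun n => ∀ w' ∈ insert w Q, ¬ (w' : ℤ) ∣ n - (if w' = w then c0 else c w')) =
        (E.filter (fun n => ¬ (w : ℤ) ∣ n - c0)).filter (fun n => ∀ w ∈ Q, ¬ (w : ℤ) ∣ n - c w) := by
      ext n
      simp only [Finset.mem_filter, Finset.mem_insert]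
      constructor
      · rintro ⟨h1, h2⟩
        refine ⟨⟨h1, ?_⟩, ?_⟩
        · simpa using h2 w (Or.inl rfl)
        · intro q hq
          have := h2 q (Or.inr hq)
          rwa [if_neg (by rintro rfl; exact hwQ hq)] at this
      · rintro ⟨⟨h1, h2⟩, h3⟩
        refine ⟨h1, ?_⟩
        rintro q (rfl | hq)
        · simpa using h2
        · rw [if_neg (by rintro rfl; exact hwQ hq)]
          exact h3 q hq
    rw [e]
    refine le_trans ?_ hc
    refine le_trans (le_of_eq ?_) hc0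
    apply Finset.sum_congr rfl
    intro n _
    rw [Finset.prod_insert hwQ]

/-- The weight `g(m) = ∏_{w ≤ z, w ∤ m} (w - 2) / (w - 1)`. -/
def g (z m : ℕ) : ℝ := ∏ w ∈ P z, phi w (m : ℤ)

theorem g_nonneg (z m : ℕ) : 0 ≤ g z m :=
  Finset.prod_nonneg (fun _ hw => phi_nonneg (mem_P.mp hw).1.two_le _)

theorem exists_T (z y N : ℕ) (M : Finset ℕ) (hM : ∀ m ∈ M, m ≠ 0 ∧ ∀ p ∈ m.primeFactors, p ≤ z)
    (hzy : z ≤ y) :
    ∃ (c : ℕ → ℤ) (T : Finset ℤ), (∀ n ∈ T, -(N : ℤ) ≤ n ∧ n ≤ N) ∧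
      (∀ n ∈ T, ∀ w ∈ P z, ¬ (w : ℤ) ∣ n - c w) ∧
      (∀ n ∈ T, ∀ p ∈ P y, z < p → ¬ (p : ℤ) ∣ n) ∧
      ∑ m ∈ M, 2 * g z m * ((Nat.primeCounting (N / m) : ℝ) - Nat.primeCounting y) ≤ (T.card : ℝ) := by
  classical
  set pm : ℕ → Finset ℕ := fun m => (P (N / m)).filter (fun p => y < p) with hpm
  set E0 : Finset ℕ := M.biUnion (fun m => (pm m).image (fun p => m * p)) with hE0
  have hE0mem : ∀ n ∈ E0, 0 < n ∧ n ≤ N ∧ ∀ r : ℕ, r.Prime → z < r → r ≤ y → ¬ r ∣ n := by
    intro n hn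
    rw [hE0, Finset.mem_biUnion] at hn
    obtain ⟨m, hm, hn⟩ := hn
    rw [Finset.mem_image] at hn
    obtain ⟨p, hp, rfl⟩ := hn
    rw [hpm, Finset.mem_filter, mem_P] at hp
    obtain ⟨⟨hpp, hpN⟩, hyp⟩ := hp
    obtain ⟨hm0, hmz⟩ := hM m hm
    have hmpos : 0 < m := Nat.pos_of_ne_zero hm0
    refine ⟨Nat.mul_pos hmpos hpp.pos, ?_, ?_⟩
    · calc m * p ≤ m * (N / m) := Nat.mul_le_mul_left _ hpN
        _ ≤ N := Nat.mul_div_le N m
    · intro r hr hzr hry hrd
      rcases (hr.dvd_mul).mp hrd with h | h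
      · have := hmz r (Nat.mem_primeFactors.mpr ⟨hr, h, hm0⟩)
        omega
      · have := (Nat.prime_dvd_prime_iff_eq hr hpp).mp h
        omega
  -- sums over `E0`
  have hsum : ∀ F : ℕ → ℝ, ∑ n ∈ E0, F n = ∑ m ∈ M, ∑ p ∈ pm m, F (m * p) := by
    intro F
    rw [hE0, Finset.sum_biUnion]
    · apply Finset.sum_congr rfl
      intro m hm
      rw [Finset.sum_image]
      intro a _ b _ hab
      exact Nat.eq_of_mul_eq_mul_left (Nat.pos_of_ne_zero (hM m hm).1) hab
    · intro m hm m' hm' hne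
      rw [Function.onFun, Finset.disjoint_left]
      intro n hn hn'
      rw [Finset.mem_image] at hn hn'
      obtain ⟨p, hp, rfl⟩ := hn
      obtain ⟨p', hp', hpp'⟩ := hn'
      rw [hpm, Finset.mem_filter, mem_P] at hp hp'
      apply hne
      have h1 : p ∣ m' * p' := by rw [hpp']; exact dvd_mul_left _ _
      have h2 : p = p' := by
        rcases (hp.1.1.dvd_mul).mp h1 with h | h
        · have := (hM m' hm').2 p (Nat.mem_primeFactors.mpr ⟨hp.1.1, h, (hM m' hm').1⟩)
          omega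
        · exact (Nat.prime_dvd_prime_iff_eq hp.1.1 hp'.1.1).mp h
      rw [h2] at hpp'
      exact (Nat.eq_of_mul_eq_mul_right hp'.1.1.pos hpp').symm
  set E : Finset ℤ := E0.image (fun n : ℕ => (n : ℤ)) ∪ E0.image (fun n : ℕ => -(n : ℤ)) with hE
  have hEmem : ∀ n ∈ E, ∃ k ∈ E0, n = k ∨ n = -k := by
    intro n hn
    rw [hE, Finset.mem_union, Finset.mem_image, Finset.mem_image] at hn
    rcases hn with ⟨k, hk, rfl⟩ | ⟨k, hk, rfl⟩
    · exact ⟨k, hk, Or.inl rfl⟩
    · exact ⟨k, hk, Or.inr rfl⟩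
  obtain ⟨c, hc⟩ := choose_all (P z) (fun w hw => (mem_P.mp hw).1) E
  refine ⟨c, E.filter (fun n => ∀ w ∈ P z, ¬ (w : ℤ) ∣ n - c w), ?_, ?_, ?_, ?_⟩
  · intro n hn
    obtain ⟨k, hk, h⟩ := hEmem n (Finset.mem_filter.mp hn).1
    have h1 := (hE0mem k hk).1
    have h2 := (hE0mem k hk).2.1
    have h2' : (k : ℤ) ≤ N := by exact_mod_cast h2
    rcases h with h | h <;> rw [h] <;> constructor <;> omega
  · intro n hn
    exact (Finset.mem_filter.mp hn).2
  · intro n hn p hp hzp hdvd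
    obtain ⟨k, hk, h⟩ := hEmem n (Finset.mem_filter.mp hn).1
    have hpk : (p : ℤ) ∣ (k : ℤ) := by
      rcases h with h | h
      · rwa [h] at hdvd
      · rw [h] at hdvd
        exact (dvd_neg).mp hdvd
    exact (hE0mem k hk).2.2 p (mem_P.mp hp).1 hzp (mem_P.mp hp).2 (by exact_mod_cast hpk)
  · refine le_trans ?_ hc
    have hdisj : Disjoint (E0.image (fun n : ℕ => (n : ℤ))) (E0.image (fun n : ℕ => -(n : ℤ))) := by
      rw [Finset.disjoint_left]
      intro n hn hn'
      rw [Finset.mem_image] at hn hn'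
      obtain ⟨k, hk, rfl⟩ := hn
      obtain ⟨k', hk', h⟩ := hn'
      have := (hE0mem k hk).1
      omega
    have hphi : ∀ w : ℕ, ∀ n : ℕ, phi w (-(n : ℤ)) = phi w (n : ℤ) := by
      intro w n
      unfold phi
      simp only [dvd_neg]
    rw [hE, Finset.sum_union hdisj, Finset.sum_image (fun a _ b _ h => by exact_mod_cast h),
      Finset.sum_image (fun a _ b _ h => by simpa using h)]
    simp only [hphi]
    rw [hsum (fun n => ∏ w ∈ P z, phi w (n : ℤ)), ← two_mul, Finset.mul_sum]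
    apply Finset.sum_le_sum
    intro m hm
    have h1 : ∀ p ∈ pm m, ∏ w ∈ P z, phi w ((m * p : ℕ) : ℤ) = g z m := by
      intro p hp
      unfold g
      apply Finset.prod_congr rfl
      intro w hw
      unfold phi
      rw [hpm, Finset.mem_filter, mem_P] at hp
      rw [mem_P] at hw
      have h2 : ((w : ℤ) ∣ ((m * p : ℕ) : ℤ)) ↔ ((w : ℤ) ∣ (m : ℤ)) := by
        rw [Int.natCast_dvd_natCast, Int.natCast_dvd_natCast, hw.1.dvd_mul]
        constructor
        · rintro (h | h)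
          · exact h
          · have := (Nat.prime_dvd_prime_iff_eq hw.1 hp.1.1).mp h
            omega
        · exact Or.inl
      simp only [h2]
    rw [Finset.sum_congr rfl h1, Finset.sum_const, nsmul_eq_mul]
    have h2 : (Nat.primeCounting (N / m) : ℝ) - Nat.primeCounting y ≤ ((pm m).card : ℝ) := by
      have h3 := Finset.card_filter_add_card_filter_not (s := P (N / m)) (fun p => y < p)
      have h4 : ((P (N / m)).filter (fun p => ¬ y < p)).card ≤ Nat.primeCounting y := by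
        rw [← card_P]
        apply Finset.card_le_card
        intro p hp
        rw [Finset.mem_filter, mem_P] at hp
        rw [mem_P]
        exact ⟨hp.1.1, by omega⟩
      rw [card_P] at h3
      have h5 : Nat.primeCounting (N / m) ≤ (pm m).card + Nat.primeCounting y := by
        have h6 : (pm m).card = ((P (N / m)).filter (fun p => y < p)).card := rfl
        omega
      have : (Nat.primeCounting (N / m) : ℝ) ≤ ((pm m).card : ℝ) + Nat.primeCounting y := by
        exact_mod_cast h5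
      linarith
    have h3 : 0 ≤ 2 * g z m := by
      have := g_nonneg z m
      linarith
    calc 2 * g z m * ((Nat.primeCounting (N / m) : ℝ) - Nat.primeCounting y) ≤ 2 * g z m * ((pm m).card : ℝ) :=
          mul_le_mul_of_nonneg_left h2 h3
      _ = _ := by ring

end

end Pool.Agent.H6.HR
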