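import Mathlib
import Pool.Agent.H6.HR.Count

/-!
# The box of smooth numbers and its weights
-/

set_option autoImplicit false

open Finset

namespace Pool.Agent.H6.HR

noncomputable section

theorem sum_divisors_coprime {m n : ℕ} (hmn : m.Coprime n) (F : ℕ → ℝ) :
    ∑ d ∈ (m * n).divisors, F d = ∑ a ∈ m.divisors, ∑ b ∈ n.divisors, F (a * b) := by
  rw [Nat.divisors_mul, Finset.mul_def, Finset.sum_image (Nat.Coprime.mul_injOn_divisors hmn),
    Finset.sum_product]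

/-- The numbers composed of primes in `Q` with exponents at most `V`. -/
def box (Q : Finset ℕ) (V : ℕ) : Finset ℕ := ((∏ w ∈ Q, w) ^ V).divisors

/-- The weight. -/
def wt (Q : Finset ℕ) (m : ℕ) : ℝ := (∏ w ∈ Q, phi w (m : ℤ)) / m

theorem wt_nonneg {Q : Finset ℕ} (hQ : ∀ w ∈ Q, w.Prime) (m : ℕ) : 0 ≤ wt Q m := by
  unfold wt
  apply div_nonneg
  · exact Finset.prod_nonneg (fun _ hw => phi_nonneg (hQ _ hw).two_le _)
  · positivity

theorem box_mono {Q : Finset ℕ} (hQ : ∀ w ∈ Q, w.Prime) {V V' : ℕ} (h : V ≤ V') : box Q V ⊆ box Q V' := by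
  unfold box
  apply Nat.divisors_subset_of_dvd
  · apply pow_ne_zero
    exact Finset.prod_ne_zero_iff.mpr (fun w hw => (hQ w hw).ne_zero)
  · exact pow_dvd_pow _ h

theorem box_mem {Q : Finset ℕ} (hQ : ∀ w ∈ Q, w.Prime) {V m : ℕ} (hm : m ∈ box Q V) :
    m ≠ 0 ∧ (∀ p ∈ m.primeFactors, p ∈ Q) ∧ m ≤ (∏ w ∈ Q, w) ^ V := by
  unfold box at hm
  have h0 : (∏ w ∈ Q, w) ^ V ≠ 0 := by
    apply pow_ne_zero
    exact Finset.prod_ne_zero_iff.mpr (fun w hw => (hQ w hw).ne_zero)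
  rw [Nat.mem_divisors] at hm
  have hm0 : m ≠ 0 := by
    rintro rfl
    exact h0 (Nat.eq_zero_of_zero_dvd hm.1)
  refine ⟨hm0, ?_, Nat.le_of_dvd (Nat.pos_of_ne_zero h0) hm.1⟩
  intro p hp
  have hpp := Nat.prime_of_mem_primeFactors hp
  have h1 : p ∣ ∏ w ∈ Q, w := hpp.dvd_of_dvd_pow ((Nat.dvd_of_mem_primeFactors hp).trans hm.1)
  rw [hpp.prime.dvd_finsetProd_iff] at h1
  obtain ⟨r, hr, hpr⟩ := h1
  rwa [(Nat.prime_dvd_prime_iff_eq hpp (hQ r hr)).mp hpr]

theorem coprime_pow_prod {w V : ℕ} {Q : Finset ℕ} (hw : w.Prime) (hQ : ∀ w ∈ Q, w.Prime) (hwQ : w ∉ Q) :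
    Nat.Coprime (w ^ V) ((∏ w ∈ Q, w) ^ V) := by
  apply Nat.Coprime.pow
  apply Nat.Coprime.prod_right
  intro q hq
  rw [Nat.coprime_primes hw (hQ q hq)]
  rintro rfl
  exact hwQ hq

theorem card_box {Q : Finset ℕ} (hQ : ∀ w ∈ Q, w.Prime) (V : ℕ) : (box Q V).card = (V + 1) ^ Q.card := by
  classical
  induction Q using Finset.induction_on with
  | empty => simp [box]
  | insert w Q hwQ ih =>
    have hw := hQ w (Finset.mem_insert_self _ _)
    have hQ' : ∀ w ∈ Q, w.Prime := fun w' hw' => hQ w' (Finset.mem_insert_of_mem hw')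
    have ih' := ih hQ'
    unfold box at ih' ⊢
    rw [Finset.prod_insert hwQ, mul_pow, Nat.Coprime.card_divisors_mul (coprime_pow_prod hw hQ' hwQ),
      ih', Finset.card_insert_of_notMem hwQ, Nat.divisors_prime_pow hw, Finset.card_map, card_range,
      pow_succ]
    ring

theorem phi_pow {w v e : ℕ} (hv : v ≠ 0) : phi w ((w ^ v * e : ℕ) : ℤ) = 1 := by
  unfold phi
  rw [if_pos]
  exact_mod_cast (dvd_pow_self w hv).mul_right e

theorem phi_other {w w' v e : ℕ} (hw : w.Prime) (hw' : w'.Prime) (h : w' ≠ w) :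
    phi w' ((w ^ v * e : ℕ) : ℤ) = phi w' (e : ℤ) := by
  unfold phi
  have : ((w' : ℤ) ∣ ((w ^ v * e : ℕ) : ℤ)) ↔ ((w' : ℤ) ∣ (e : ℤ)) := by
    rw [Int.natCast_dvd_natCast, Int.natCast_dvd_natCast, hw'.dvd_mul]
    constructor
    · rintro (h1 | h1)
      · exact absurd ((Nat.prime_dvd_prime_iff_eq hw' hw).mp (hw'.dvd_of_dvd_pow h1)) h
      · exact h1
    · exact Or.inr
  simp only [this]

/-- The coefficient of `w ^ v`. -/
def cf (w v : ℕ) : ℝ := if v = 0 then ((w : ℝ) - 2) / (w - 1) else ((w : ℝ) ^ v)⁻¹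

theorem cf_nonneg {w : ℕ} (hw : 2 ≤ w) (v : ℕ) : 0 ≤ cf w v := by
  unfold cf
  have : (2 : ℝ) ≤ w := by exact_mod_cast hw
  split_ifs
  · apply div_nonneg <;> linarith
  · positivity

theorem wt_insert {w v e : ℕ} {Q : Finset ℕ} {V : ℕ} (hw : w.Prime) (hQ : ∀ w ∈ Q, w.Prime) (hwQ : w ∉ Q)
    (he : e ∈ box Q V) : wt (insert w Q) (w ^ v * e) = cf w v * wt Q e := by
  have hw0 : (w : ℝ) ≠ 0 := by exact_mod_cast hw.ne_zero
  obtain ⟨he0, heQ, -⟩ := box_mem hQ he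
  have he0' : (e : ℝ) ≠ 0 := by exact_mod_cast he0
  unfold wt
  rw [Finset.prod_insert hwQ]
  have h1 : ∏ w' ∈ Q, phi w' ((w ^ v * e : ℕ) : ℤ) = ∏ w' ∈ Q, phi w' (e : ℤ) := by
    apply Finset.prod_congr rfl
    intro w' hw'
    exact phi_other hw (hQ w' hw') (by rintro rfl; exact hwQ hw')
  rw [h1]
  rcases Nat.eq_zero_or_pos v with hv | hv
  · subst hv
    have h2 : phi w ((w ^ 0 * e : ℕ) : ℤ) = ((w : ℝ) - 2) / (w - 1) := by
      unfold phi
      rw [if_neg]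
      intro h
      have h3 : w ∣ w ^ 0 * e := by exact_mod_cast h
      rw [pow_zero, one_mul] at h3
      exact hwQ (heQ w (Nat.mem_primeFactors.mpr ⟨hw, h3, he0⟩))
    rw [h2]
    unfold cf
    rw [if_pos rfl]
    push_cast
    rw [pow_zero, one_mul]
    ring
  · rw [phi_pow hv.ne', one_mul]
    unfold cf
    rw [if_neg hv.ne']
    push_cast
    field_simp

theorem sum_box_insert {w : ℕ} {Q : Finset ℕ} (V : ℕ) (hw : w.Prime) (hQ : ∀ w ∈ Q, w.Prime) (hwQ : w ∉ Q)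
    (F : ℕ → ℝ) : ∑ m ∈ box (insert w Q) V, wt (insert w Q) m * F m =
      ∑ v ∈ range (V + 1), cf w v * ∑ e ∈ box Q V, wt Q e * F (w ^ v * e) := by
  have h1 : box (insert w Q) V = (w ^ V * (∏ w ∈ Q, w) ^ V).divisors := by
    unfold box
    rw [Finset.prod_insert hwQ, mul_pow]
  rw [h1, sum_divisors_coprime (coprime_pow_prod hw hQ hwQ), Nat.divisors_prime_pow hw, Finset.sum_map]
  apply Finset.sum_congr rfl
  intro v _
  simp only [Function.Embedding.coeFn_mk]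
  rw [Finset.mul_sum]
  apply Finset.sum_congr rfl
  intro e he
  rw [wt_insert (V := V) hw hQ hwQ he]
  ring

theorem sum_cf {w : ℕ} (hw : 2 ≤ w) (V : ℕ) :
    ∑ v ∈ range (V + 1), cf w v = 1 - ((w : ℝ) ^ V)⁻¹ / (w - 1) := by
  have hw' : (2 : ℝ) ≤ w := by exact_mod_cast hw
  have hw1 : (w : ℝ) - 1 ≠ 0 := by linarith
  have hw0 : (w : ℝ) ≠ 0 := by linarith
  induction V with
  | zero =>
    simp only [zero_add, Finset.sum_range_one, cf, if_true, pow_zero, inv_one]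
    field_simp
    ring
  | succ V ih =>
    rw [Finset.sum_range_succ, ih]
    unfold cf
    rw [if_neg (by omega)]
    rw [pow_succ]
    field_simp
    ring

/-- The total weight of a box. -/
theorem sum_wt {Q : Finset ℕ} (hQ : ∀ w ∈ Q, w.Prime) (V : ℕ) :
    ∑ m ∈ box Q V, wt Q m = ∏ w ∈ Q, (1 - ((w : ℝ) ^ V)⁻¹ / (w - 1)) := by
  classical
  induction Q using Finset.induction_on with
  | empty => simp [box, wt]
  | insert w Q hwQ ih =>
    have hw := hQ w (Finset.mem_insert_self _ _)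
    have hQ' : ∀ w ∈ Q, w.Prime := fun w' hw' => hQ w' (Finset.mem_insert_of_mem hw')
    have h1 := sum_box_insert V hw hQ' hwQ (fun _ => 1)
    simp only [mul_one] at h1
    rw [h1, ih hQ', ← Finset.sum_mul, sum_cf hw.two_le, Finset.prod_insert hwQ]

theorem prod_one_sub_ge (Q : Finset ℕ) (a : ℕ → ℝ) (h : ∀ w ∈ Q, 0 ≤ a w ∧ a w ≤ 1) :
    1 - ∑ w ∈ Q, a w ≤ ∏ w ∈ Q, (1 - a w) ∧ ∏ w ∈ Q, (1 - a w) ≤ 1 ∧ 0 ≤ ∏ w ∈ Q, (1 - a w) := by
  classical
  induction Q using Finset.induction_on with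
  | empty => simp
  | insert w Q hwQ ih =>
    obtain ⟨h1, h2, h3⟩ := ih (fun w' hw' => h w' (Finset.mem_insert_of_mem hw'))
    obtain ⟨h4, h5⟩ := h w (Finset.mem_insert_self _ _)
    rw [Finset.sum_insert hwQ, Finset.prod_insert hwQ]
    refine ⟨?_, ?_, ?_⟩
    · nlinarith
    · nlinarith
    · exact mul_nonneg (by linarith) h3

theorem coeff_le {w : ℕ} (hw : 2 ≤ w) (V : ℕ) :
    0 ≤ ((w : ℝ) ^ V)⁻¹ / (w - 1) ∧ ((w : ℝ) ^ V)⁻¹ / (w - 1) ≤ ((2 : ℝ) ^ V)⁻¹ := by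
  have hw' : (2 : ℝ) ≤ w := by exact_mod_cast hw
  constructor
  · apply div_nonneg (by positivity)
    linarith
  · calc ((w : ℝ) ^ V)⁻¹ / (w - 1) ≤ ((w : ℝ) ^ V)⁻¹ := by
          apply div_le_self (by positivity)
          linarith
      _ ≤ ((2 : ℝ) ^ V)⁻¹ := by
          apply inv_anti₀ (by positivity)
          exact pow_le_pow_left₀ (by norm_num) hw' V

theorem sum_wt_ge {Q : Finset ℕ} (hQ : ∀ w ∈ Q, w.Prime) (V : ℕ) :
    1 - Q.card * ((2 : ℝ) ^ V)⁻¹ ≤ ∑ m ∈ box Q V, wt Q m ∧ ∑ m ∈ box Q V, wt Q m ≤ 1 := by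
  have h1 := prod_one_sub_ge Q (fun w => ((w : ℝ) ^ V)⁻¹ / (w - 1)) (by
    intro w hw
    obtain ⟨h1, h2⟩ := coeff_le (hQ w hw).two_le V
    refine ⟨h1, h2.trans ?_⟩
    exact inv_le_one_of_one_le₀ (one_le_pow₀ (by norm_num)))
  rw [sum_wt hQ V]
  refine ⟨le_trans ?_ h1.1, h1.2.1⟩
  have h2 : ∑ w ∈ Q, ((w : ℝ) ^ V)⁻¹ / (w - 1) ≤ ∑ w ∈ Q, ((2 : ℝ) ^ V)⁻¹ :=
    Finset.sum_le_sum (fun w hw => (coeff_le (hQ w hw).two_le V).2)
  rw [Finset.sum_const, nsmul_eq_mul] at h2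
  linarith

/-- Logarithmic mean over the squarefree box. -/
theorem sum_wt_log {Q : Finset ℕ} (hQ : ∀ w ∈ Q, w.Prime) :
    (∑ m ∈ box Q 1, wt Q m) * ∑ w ∈ Q, Real.log w / w ≤ ∑ m ∈ box Q 1, wt Q m * Real.log m := by
  classical
  induction Q using Finset.induction_on with
  | empty => simp [box, wt]
  | insert w Q hwQ ih =>
    have hw := hQ w (Finset.mem_insert_self _ _)
    have hw2 : (2 : ℝ) ≤ w := by exact_mod_cast hw.two_le
    have hQ' : ∀ w ∈ Q, w.Prime := fun w' hw' => hQ w' (Finset.mem_insert_of_mem hw')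
    have ih' := ih hQ'
    have h1 := sum_box_insert 1 hw hQ' hwQ (fun _ => 1)
    have h2 := sum_box_insert 1 hw hQ' hwQ (fun m => Real.log m)
    simp only [mul_one] at h1
    rw [h1, h2, Finset.sum_insert hwQ]
    have h3 : ∀ v : ℕ, ∑ e ∈ box Q 1, wt Q e * Real.log ((w ^ v * e : ℕ) : ℝ) =
        v * Real.log w * (∑ e ∈ box Q 1, wt Q e) + ∑ e ∈ box Q 1, wt Q e * Real.log e := by
      intro v
      rw [Finset.mul_sum, ← Finset.sum_add_distrib]
      apply Finset.sum_congr rfl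
      intro e he
      have he0 := (box_mem hQ' he).1
      push_cast
      rw [Real.log_mul (by positivity) (by exact_mod_cast he0), Real.log_pow]
      ring
    simp only [h3]
    rw [Finset.sum_range_succ, Finset.sum_range_one, Finset.sum_range_succ, Finset.sum_range_one]
    have hc0 : cf w 0 = ((w : ℝ) - 2) / (w - 1) := by simp [cf]
    have hc1 : cf w 1 = 1 / w := by simp [cf]
    have hc0' := cf_nonneg hw.two_le 0
    have hc1' := cf_nonneg hw.two_le 1
    have hS0 : 0 ≤ ∑ e ∈ box Q 1, wt Q e := Finset.sum_nonneg (fun e _ => wt_nonneg hQ' e)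
    have hsum : cf w 0 + cf w 1 ≤ 1 := by
      have := sum_cf hw.two_le 1
      rw [Finset.sum_range_succ, Finset.sum_range_one] at this
      rw [this]
      have := (coeff_le hw.two_le 1).1
      linarith
    set S := ∑ e ∈ box Q 1, wt Q e
    set L := ∑ e ∈ box Q 1, wt Q e * Real.log e
    set Z := ∑ w ∈ Q, Real.log w / (w : ℝ)
    have hlog : 0 ≤ Real.log w := Real.log_nonneg (by linarith)
    have e1 : Real.log w / w = cf w 1 * Real.log w := by rw [hc1]; ring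
    rw [e1]
    push_cast
    have h5 : (cf w 0 + cf w 1) * (S * Z) ≤ (cf w 0 + cf w 1) * L :=
      mul_le_mul_of_nonneg_left ih' (by linarith)
    have h6 : (cf w 0 + cf w 1) * (S * (cf w 1 * Real.log w)) ≤ 1 * (S * (cf w 1 * Real.log w)) :=
      mul_le_mul_of_nonneg_right hsum (by positivity)
    nlinarith

/-- The total weight of the squarefree box is at least `1/4`. -/
theorem sum_wt_one_ge (z : ℕ) : 1 / 4 ≤ ∑ m ∈ box (P z) 1, wt (P z) m := by
  rw [sum_wt (fun w hw => (mem_P.mp hw).1)]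
  have h1 : ∏ w ∈ (P z).filter (fun w => w ≤ 2), (1 - ((w : ℝ) ^ 1)⁻¹ / (w - 1)) ≥ 1 / 2 := by
    have hsub : (P z).filter (fun w => w ≤ 2) ⊆ {2} := by
      intro w hw
      rw [Finset.mem_filter, mem_P] at hw
      have := hw.1.1.two_le
      rw [Finset.mem_singleton]
      omega
    rcases Finset.subset_singleton_iff.mp hsub with h | h
    · rw [h]; norm_num
    · rw [h]; norm_num
  have h2 : ∏ w ∈ (P z).filter (fun w => ¬ w ≤ 2), (1 - ((w : ℝ) ^ 1)⁻¹ / (w - 1)) ≥ 1 / 2 := by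
    have h3 := (prod_one_sub_ge ((P z).filter (fun w => ¬ w ≤ 2)) (fun w => ((w : ℝ) ^ 1)⁻¹ / (w - 1)) (by
      intro w hw
      rw [Finset.mem_filter, mem_P] at hw
      obtain ⟨h1, h2⟩ := coeff_le hw.1.1.two_le 1
      refine ⟨h1, h2.trans ?_⟩
      norm_num)).1
    have h4 : ∑ w ∈ (P z).filter (fun w => ¬ w ≤ 2), ((w : ℝ) ^ 1)⁻¹ / (w - 1) ≤ 1 / 2 := by
      have h5 : ∀ z : ℕ, ∑ w ∈ Finset.Ioc 2 (2 + z), ((w : ℝ) ^ 1)⁻¹ / (w - 1) = 1 / 2 - 1 / ((2 + z : ℕ) : ℝ) := by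
        intro z
        induction z with
        | zero => simp
        | succ z ih =>
          have hins : Finset.Ioc 2 (2 + (z + 1)) = insert (2 + z + 1) (Finset.Ioc 2 (2 + z)) := by
            ext x
            rw [Finset.mem_insert, Finset.mem_Ioc, Finset.mem_Ioc]
            omega
          rw [hins, Finset.sum_insert (by rw [Finset.mem_Ioc]; omega), ih]
          push_cast
          have : (2 : ℝ) + z ≠ 0 := by positivity
          have h6 : (2 : ℝ) + z + 1 ≠ 0 := by positivity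
          have h7 : (2 : ℝ) + z + 1 - 1 ≠ 0 := by
            have : (2 : ℝ) + z + 1 - 1 = 2 + z := by ring
            rw [this]; positivity
          field_simp
          ring
      calc ∑ w ∈ (P z).filter (fun w => ¬ w ≤ 2), ((w : ℝ) ^ 1)⁻¹ / (w - 1)
          ≤ ∑ w ∈ Finset.Ioc 2 (2 + z), ((w : ℝ) ^ 1)⁻¹ / (w - 1) := by
            apply Finset.sum_le_sum_of_subset_of_nonneg
            · intro w hw
              rw [Finset.mem_filter, mem_P] at hw
              rw [Finset.mem_Ioc]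
              omega
            · intro w hw _
              rw [Finset.mem_Ioc] at hw
              exact (coeff_le (by omega) 1).1
        _ = _ := h5 z
        _ ≤ _ := by
            have : (0 : ℝ) ≤ 1 / ((2 + z : ℕ) : ℝ) := by positivity
            linarith
    linarith
  rw [← Finset.prod_filter_mul_prod_filter_not (P z) (fun w => w ≤ 2)]
  nlinarith

/-- `Σ_{w ≤ z} log w / w` is unbounded. -/
theorem sum_log_div_unbounded (C : ℝ) : ∃ z : ℕ, 2 ≤ z ∧ C ≤ ∑ w ∈ P z, Real.log w / w := by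
  obtain ⟨K, hK, h⟩ := Pool.Agent.CoprimeSieve.mertens_first
  obtain ⟨z, hz⟩ := exists_nat_ge (Real.exp (|C| + K + 1))
  have h0 : (2 : ℝ) ≤ z := by
    have h1 := Real.add_one_le_exp (|C| + K + 1)
    have := abs_nonneg C
    linarith
  refine ⟨z, by exact_mod_cast h0, ?_⟩
  have h1 := (abs_le.mp (h z (by linarith))).1
  have h2 : |C| + K + 1 ≤ Real.log z := by
    rw [← Real.log_exp (|C| + K + 1)]
    exact Real.log_le_log (Real.exp_pos _) hz
  have h3 : Pool.Agent.CoprimeSieve.mE z = ∑ w ∈ P z, Real.log w / w := by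
    unfold Pool.Agent.CoprimeSieve.mE
    rw [pr_eq]
  rw [← h3]
  have := le_abs_self C
  linarith

end

end Pool.Agent.H6.HR
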