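import Mathlib
import Pool.Agent.H6.HR.Box

/-!
# The choice of the parameters
-/

set_option autoImplicit false

open Finset Filter Topology

namespace Pool.Agent.H6.HR

noncomputable section

/-- `log log x`. -/
def LL (x : ℝ) : ℝ := Real.log (Real.log x)

/-- The lower end of the range of large primes. -/
def yy (k : ℕ) (x : ℝ) : ℕ := ⌈x / ((LL x) ^ k * Real.log x)⌉₊

/-- The upper end of the range of large primes. -/
def KK (x : ℝ) : ℕ := ⌊8 * x / Real.log x⌋₊

/-- The half length. -/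
def NN (x : ℝ) : ℕ := ⌈x / 2⌉₊ - 1

def ww (x : ℝ) : ℕ := ⌊Real.log x / 5⌋₊

def w3 (x : ℝ) : ℕ := ⌊Real.exp (√(LL x))⌋₊

def DD (x : ℝ) : ℕ := ⌊Real.exp (Real.log x / 10)⌋₊

def Lam (k : ℕ) (x : ℝ) : ℝ := 1 + Real.log (1 + 12 * (LL x) ^ k)

theorem ev_L (A : ℝ) : ∀ᶠ x : ℝ in atTop, A ≤ Real.log x := Real.tendsto_log_atTop.eventually_ge_atTop A

theorem ev_v (A : ℝ) : ∀ᶠ x : ℝ in atTop, A ≤ LL x :=
  (Real.tendsto_log_atTop.comp Real.tendsto_log_atTop).eventually_ge_atTop A

theorem ev_pow_exp (n : ℕ) (c : ℝ) (hc : 0 < c) : ∀ᶠ u : ℝ in atTop, u ^ n ≤ Real.exp (c * u) := by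
  have h := (isLittleO_pow_exp_pos_mul_atTop n hc).bound (show (0 : ℝ) < 1 by norm_num)
  filter_upwards [h, eventually_ge_atTop 0] with u hu hu0
  rw [Real.norm_of_nonneg (by positivity), Real.norm_of_nonneg (Real.exp_pos _).le, one_mul] at hu
  exact hu

theorem ev3 (k : ℕ) : ∀ᶠ x : ℝ in atTop, (LL x) ^ k * Real.log x ≤ Real.exp (Real.log x / 10) := by
  have h := Real.tendsto_log_atTop.eventually (ev_pow_exp (k + 1) (1 / 10) (by norm_num))
  filter_upwards [h, ev_L 1, ev_v 0] with x h1 h2 h3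
  have h4 : LL x ≤ Real.log x := by
    have := Real.log_le_sub_one_of_pos (show 0 < Real.log x by linarith)
    unfold LL
    linarith
  calc (LL x) ^ k * Real.log x ≤ (Real.log x) ^ k * Real.log x := by
        apply mul_le_mul_of_nonneg_right _ (by linarith)
        exact pow_le_pow_left₀ h3 h4 k
    _ = (Real.log x) ^ (k + 1) := by rw [pow_succ]
    _ ≤ Real.exp (1 / 10 * Real.log x) := h1
    _ = _ := by ring_nf

theorem ev4 : ∀ᶠ x : ℝ in atTop, 4 * LL x ≤ √(Real.log x) := by
  have h := (isLittleO_log_rpow_atTop (show (0 : ℝ) < 1 / 2 by norm_num)).bound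
    (show (0 : ℝ) < 1 / 4 by norm_num)
  have h' := Real.tendsto_log_atTop.eventually h
  filter_upwards [h', ev_L 1, ev_v 0] with x h1 h2 h3
  unfold LL at h3 ⊢
  rw [Real.norm_of_nonneg h3, Real.norm_of_nonneg (by positivity), ← Real.sqrt_eq_rpow] at h1
  linarith

theorem ev5 : ∀ᶠ x : ℝ in atTop, (√(LL x)) ^ 5 * (3 / 4 : ℝ) ^ (√(LL x) / 4) ≤ 1 := by
  have hc : 0 < Real.log (4 / 3) / 4 := by
    have := Real.log_pos (show (1 : ℝ) < 4 / 3 by norm_num)
    positivity
  have h := ev_pow_exp 5 (Real.log (4 / 3) / 4) hc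
  have ht : Tendsto (fun x : ℝ => √(LL x)) atTop atTop :=
    Real.tendsto_sqrt_atTop.comp (Real.tendsto_log_atTop.comp Real.tendsto_log_atTop)
  filter_upwards [ht.eventually h] with x h1
  have e : (3 / 4 : ℝ) ^ (√(LL x) / 4) = Real.exp (-(Real.log (4 / 3) / 4 * √(LL x))) := by
    rw [Real.rpow_def_of_pos (by norm_num)]
    congr 1
    have : Real.log (3 / 4) = - Real.log (4 / 3) := by
      rw [← Real.log_inv]
      norm_num
    rw [this]
    ring
  rw [e, Real.exp_neg]
  rw [mul_inv_le_iff₀ (Real.exp_pos _), one_mul]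
  exact h1

theorem ev6 : ∀ᶠ x : ℝ in atTop,
    Real.exp (2 / 5 * Real.log x) * Real.log x + 1 ≤ Real.exp (3 / 5 * Real.log x) := by
  have h := Real.tendsto_log_atTop.eventually (ev_pow_exp 2 (1 / 5) (by norm_num))
  filter_upwards [h, ev_L 2] with x h1 h2
  have e : Real.exp (3 / 5 * Real.log x) = Real.exp (2 / 5 * Real.log x) * Real.exp (1 / 5 * Real.log x) := by
    rw [← Real.exp_add]; ring_nf
  rw [e]
  have h3 : 1 ≤ Real.exp (2 / 5 * Real.log x) := Real.one_le_exp (by positivity)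
  calc Real.exp (2 / 5 * Real.log x) * Real.log x + 1
      ≤ Real.exp (2 / 5 * Real.log x) * Real.log x + Real.exp (2 / 5 * Real.log x) := by linarith
    _ = Real.exp (2 / 5 * Real.log x) * (Real.log x + 1) := by ring
    _ ≤ Real.exp (2 / 5 * Real.log x) * (Real.log x) ^ 2 := by
        apply mul_le_mul_of_nonneg_left _ (by positivity)
        nlinarith
    _ ≤ _ := mul_le_mul_of_nonneg_left h1 (by positivity)

/-- The facts about the parameters, for all large `x`. -/
structure Facts (z k : ℕ) (x : ℝ) : Prop where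
  x4 : 4 ≤ x
  L100 : 100 ≤ Real.log x
  v4 : 4 ≤ LL x
  v_le : LL x ≤ Real.log x
  zw3 : z ≤ w3 x
  w32 : 2 ≤ w3 x
  w3w : w3 x ≤ ww x
  wy : ww x ≤ yy k x
  D2 : 2 ≤ DD x
  Dy : DD x ≤ yy k x
  lw3 : √(LL x) / 2 ≤ Real.log (w3 x)
  lw3' : Real.log (w3 x) ≤ √(LL x)
  lw : LL x / 2 ≤ Real.log (ww x)
  lw' : Real.log (ww x) ≤ LL x
  w6 : Real.log x / 6 ≤ ww x
  w5 : (ww x : ℝ) ≤ Real.log x / 5
  lD : Real.log x / 20 ≤ Real.log (DD x)
  lD' : Real.log (DD x) ≤ Real.log x / 10
  D4 : ((DD x : ℕ) : ℝ) ^ 4 ≤ Real.exp (2 / 5 * Real.log x)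
  v_sqrt : 4 * LL x ≤ √(Real.log x)
  decay : (√(LL x)) ^ 5 * (3 / 4 : ℝ) ^ (√(LL x) / 4) ≤ 1
  lamL : (LL x) ^ k * Real.log x ≤ Real.exp (Real.log x / 10)
  ylow : Real.exp (9 / 10 * Real.log x) ≤ yy k x
  Bexp : Real.exp (2 / 5 * Real.log x) * Real.log x + 1 ≤ Real.exp (3 / 5 * Real.log x)
  ly : Real.log x / 2 ≤ Real.log (yy k x)

theorem facts (z k : ℕ) : ∀ᶠ x : ℝ in atTop, Facts z k x := by
  filter_upwards [eventually_ge_atTop 4, ev_L 100, ev_v 4, ev_v ((2 * Real.log (z + 2)) ^ 2), ev3 k, ev4, ev5,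
    ev6] with x hx hL hv hvz h3 h4 h5 h6
  have hL0 : 0 < Real.log x := by linarith
  have hx0 : 0 < x := by linarith
  have hv0 : 0 < LL x := by linarith
  have hexpL : Real.exp (Real.log x) = x := Real.exp_log hx0
  have hexpv : Real.exp (LL x) = Real.log x := Real.exp_log hL0
  have hvL : LL x ≤ Real.log x := by
    have := Real.log_le_sub_one_of_pos hL0
    unfold LL
    linarith
  have hsv : 2 ≤ √(LL x) := by
    rw [show (2 : ℝ) = √4 by rw [show (4 : ℝ) = 2 ^ 2 by norm_num, Real.sqrt_sq (by norm_num)]]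
    exact Real.sqrt_le_sqrt hv
  have hsv2 : √(LL x) * √(LL x) = LL x := Real.mul_self_sqrt hv0.le
  have hsvle : √(LL x) ≤ LL x / 2 := by nlinarith
  -- w3
  have hs2 : 2 ≤ Real.exp (√(LL x) / 2) := by
    have := Real.add_one_le_exp (√(LL x) / 2)
    linarith
  have hse : Real.exp (√(LL x)) = Real.exp (√(LL x) / 2) * Real.exp (√(LL x) / 2) := by
    rw [← Real.exp_add]; ring_nf
  have hw3low : Real.exp (√(LL x) / 2) ≤ (w3 x : ℝ) := by
    have h1 := Nat.lt_floor_add_one (Real.exp (√(LL x)))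
    unfold w3
    nlinarith
  have hw3up : (w3 x : ℝ) ≤ Real.exp (√(LL x)) := Nat.floor_le (Real.exp_pos _).le
  have hw32 : (2 : ℝ) ≤ (w3 x : ℝ) := hs2.trans hw3low
  have hzw3 : (z : ℝ) ≤ w3 x := by
    refine le_trans ?_ hw3low
    have h1 : Real.log (z + 2) ≤ √(LL x) / 2 := by
      have h2 : 2 * Real.log (z + 2) ≤ √(LL x) := by
        apply Real.le_sqrt_of_sq_le hvz
      linarith
    calc (z : ℝ) ≤ z + 2 := by linarith
      _ = Real.exp (Real.log (z + 2)) := (Real.exp_log (by positivity)).symm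
      _ ≤ _ := Real.exp_le_exp.mpr h1
  have hw5 : (ww x : ℝ) ≤ Real.log x / 5 := Nat.floor_le (by positivity)
  have hw6 : Real.log x / 6 ≤ ww x := by
    have h1 := Nat.lt_floor_add_one (Real.log x / 5)
    unfold ww
    linarith
  have hw0 : (0 : ℝ) < ww x := by linarith
  have hsL : √(Real.log x) * √(Real.log x) = Real.log x := Real.mul_self_sqrt hL0.le
  have hsL10 : 10 ≤ √(Real.log x) := by
    rw [show (10 : ℝ) = √100 by rw [show (100 : ℝ) = 10 ^ 2 by norm_num, Real.sqrt_sq (by norm_num)]]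
    exact Real.sqrt_le_sqrt hL
  have hlogsL : Real.log (√(Real.log x)) = LL x / 2 := Real.log_sqrt hL0.le
  have hD20 : Real.exp (Real.log x / 20) ≤ (DD x : ℝ) := by
    have h1 := Nat.lt_floor_add_one (Real.exp (Real.log x / 10))
    have h2 : 2 ≤ Real.exp (Real.log x / 20) := by
      have := Real.add_one_le_exp (Real.log x / 20)
      linarith
    have h3 : Real.exp (Real.log x / 10) = Real.exp (Real.log x / 20) * Real.exp (Real.log x / 20) := by
      rw [← Real.exp_add]; ring_nf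
    unfold DD
    nlinarith
  have hDup : (DD x : ℝ) ≤ Real.exp (Real.log x / 10) := Nat.floor_le (Real.exp_pos _).le
  have hD2 : (2 : ℝ) ≤ DD x := by
    have := Real.add_one_le_exp (Real.log x / 20)
    linarith
  have hylow : Real.exp (9 / 10 * Real.log x) ≤ yy k x := by
    refine le_trans ?_ (Nat.le_ceil _)
    rw [le_div_iff₀ (by positivity)]
    calc Real.exp (9 / 10 * Real.log x) * ((LL x) ^ k * Real.log x)
        ≤ Real.exp (9 / 10 * Real.log x) * Real.exp (Real.log x / 10) :=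
          mul_le_mul_of_nonneg_left h3 (Real.exp_pos _).le
      _ = Real.exp (Real.log x) := by rw [← Real.exp_add]; ring_nf
      _ = x := hexpL
  have hexp1 : Real.exp (Real.log x / 10) ≤ Real.exp (9 / 10 * Real.log x) :=
    Real.exp_le_exp.mpr (by linarith)
  refine
    { x4 := hx
      L100 := hL
      v4 := hv
      v_le := hvL
      zw3 := by exact_mod_cast hzw3
      w32 := by exact_mod_cast hw32
      w3w := ?_
      wy := ?_
      D2 := by exact_mod_cast hD2
      Dy := ?_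
      lw3 := ?_
      lw3' := ?_
      lw := ?_
      lw' := ?_
      w6 := hw6
      w5 := hw5
      lD := ?_
      lD' := ?_
      D4 := ?_
      v_sqrt := h4
      decay := h5
      lamL := h3
      ylow := hylow
      Bexp := h6
      ly := ?_ }
  · apply Nat.floor_le_floor
    have h1 : √(LL x) ≤ LL x - 2 := by linarith
    calc Real.exp (√(LL x)) ≤ Real.exp (LL x - 2) := Real.exp_le_exp.mpr h1
      _ = Real.log x / Real.exp 2 := by rw [Real.exp_sub, hexpv]
      _ ≤ Real.log x / 5 := by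
          apply div_le_div_of_nonneg_left hL0.le (by norm_num)
          have h7 := Real.quadratic_le_exp_of_nonneg (show (0 : ℝ) ≤ 2 by norm_num)
          linarith
  · have : (ww x : ℝ) ≤ yy k x := by
      have h7 := Real.add_one_le_exp (9 / 10 * Real.log x)
      linarith
    exact_mod_cast this
  · have : (DD x : ℝ) ≤ yy k x := by linarith
    exact_mod_cast this
  · calc √(LL x) / 2 = Real.log (Real.exp (√(LL x) / 2)) := (Real.log_exp _).symm
      _ ≤ _ := Real.log_le_log (Real.exp_pos _) hw3low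
  · calc Real.log (w3 x) ≤ Real.log (Real.exp (√(LL x))) := Real.log_le_log (by linarith) hw3up
      _ = _ := Real.log_exp _
  · rw [← hlogsL]
    apply Real.log_le_log (by positivity)
    nlinarith
  · have h7 : Real.log (ww x) ≤ Real.log (Real.log x) := Real.log_le_log hw0 (by linarith)
    exact h7
  · calc Real.log x / 20 = Real.log (Real.exp (Real.log x / 20)) := (Real.log_exp _).symm
      _ ≤ _ := Real.log_le_log (Real.exp_pos _) hD20
  · calc Real.log (DD x) ≤ Real.log (Real.exp (Real.log x / 10)) := Real.log_le_log (by linarith) hDup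
      _ = _ := Real.log_exp _
  · calc ((DD x : ℕ) : ℝ) ^ 4 ≤ (Real.exp (Real.log x / 10)) ^ 4 := by
          apply pow_le_pow_left₀ (by positivity) hDup
      _ = Real.exp (2 / 5 * Real.log x) := by
          rw [← Real.exp_nat_mul]
          congr 1
          push_cast
          ring
  · calc Real.log x / 2 ≤ 9 / 10 * Real.log x := by linarith
      _ = Real.log (Real.exp (9 / 10 * Real.log x)) := (Real.log_exp _).symm
      _ ≤ _ := Real.log_le_log (Real.exp_pos _) hylow

end

end Pool.Agent.H6.HR
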