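import Mathlib
import Pool.Agent.H6.HR.Params

/-!
# The loss caused by one large prime, and by all of them
-/

set_option autoImplicit false

open Finset Filter Topology

namespace Pool.Agent.H6.HR

noncomputable section

theorem primorial_part_le (z w : ℕ) : ∏ p ∈ (P w).filter (fun p => z < p), p ≤ 4 ^ w := by
  have h1 : ∏ p ∈ (P w).filter (fun p => z < p), p ∣ primorial w := by
    unfold primorial
    apply Finset.prod_dvd_prod_of_subset
    intro p hp
    rw [Finset.mem_filter, mem_P] at hp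
    rw [Finset.mem_filter, Finset.mem_range]
    exact ⟨by omega, hp.1.1⟩
  exact (Nat.le_of_dvd (primorial_pos w) h1).trans (primorial_le_four_pow w)

theorem loss_one (z k : ℕ) : ∃ C : ℝ, 0 < C ∧ ∀ x : ℝ, Facts z k x → ∀ T : Finset ℤ,
    (∀ n ∈ T, -(NN x : ℤ) ≤ n ∧ n ≤ NN x) → (∀ n ∈ T, ∀ p ∈ P (yy k x), z < p → ¬ (p : ℤ) ∣ n) →
    ∀ q : ℕ, q.Prime → yy k x < q → q ≤ KK x →
      ∃ a : ℤ, ((T.filter (fun n => (q : ℤ) ∣ n - a)).card : ℝ) ≤
        C * (x * Lam k x / (√(LL x) * Real.log x)) * (1 / q) := by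
  obtain ⟨C1, hC1, hcov⟩ := cover z
  obtain ⟨c2, hc2, hpg⟩ := prod_ge
  refine ⟨600 * C1 * 2 / c2 * 10, by positivity, ?_⟩
  intro x F T hTN hT q hq hyq hqK
  have hL := F.L100
  have hL0 : 0 < Real.log x := by linarith
  have hx0 : 0 < x := by linarith [F.x4]
  have hexpL : Real.exp (Real.log x) = x := Real.exp_log hx0
  have hv0 : 0 < LL x := by linarith [F.v4]
  have hsv0 : 0 < √(LL x) := Real.sqrt_pos.mpr hv0
  have hsv2 : √(LL x) * √(LL x) = LL x := Real.mul_self_sqrt hv0.le
  have hq0 : (0 : ℝ) < q := by exact_mod_cast hq.pos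
  have hqy : (yy k x : ℝ) ≤ q := by exact_mod_cast hyq.le
  have hqK' : (q : ℝ) ≤ 8 * x / Real.log x :=
    le_trans (by exact_mod_cast hqK) (Nat.floor_le (by positivity))
  -- the number of positions
  set J := 2 * NN x / q + 1 with hJ
  have hNup : 2 * (NN x : ℝ) ≤ x := by
    unfold NN
    have h1 : 0 < ⌈x / 2⌉₊ := Nat.ceil_pos.mpr (by linarith)
    have h2 := Nat.ceil_lt_add_one (show 0 ≤ x / 2 by linarith)
    rw [Nat.cast_sub h1]
    push_cast
    linarith
  have hNlow : x - 2 ≤ 2 * (NN x : ℝ) := by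
    unfold NN
    have h1 : 0 < ⌈x / 2⌉₊ := Nat.ceil_pos.mpr (by linarith)
    have h2 := Nat.le_ceil (x / 2)
    rw [Nat.cast_sub h1]
    push_cast
    linarith
  have hxq : 1 ≤ x / q := by
    rw [le_div_iff₀ hq0, one_mul]
    refine hqK'.trans ?_
    rw [div_le_iff₀ hL0]
    nlinarith
  have hJup : (J : ℝ) ≤ 2 * (x / q) := by
    rw [hJ]
    push_cast
    have h1 : ((2 * NN x / q : ℕ) : ℝ) ≤ (2 * NN x : ℕ) / (q : ℝ) := Nat.cast_div_le
    push_cast at h1
    have h2 : 2 * (NN x : ℝ) / q ≤ x / q := by gcongr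
    linarith
  have hJlow : Real.log x / 16 ≤ (J : ℝ) := by
    have h1 : 2 * (NN x : ℝ) / q ≤ J := by
      rw [div_le_iff₀ hq0]
      have h2 : 2 * NN x < (2 * NN x / q + 1) * q := by
        have := Nat.lt_div_mul_add hq.pos (a := 2 * NN x)
        rw [add_mul, one_mul]
        exact this
      exact_mod_cast h2.le
    refine le_trans ?_ h1
    rw [le_div_iff₀ hq0]
    calc Real.log x / 16 * q ≤ Real.log x / 16 * (8 * x / Real.log x) := by
          apply mul_le_mul_of_nonneg_left hqK'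
          positivity
      _ = x / 2 := by field_simp; ring
      _ ≤ 2 * (NN x : ℝ) := by linarith [F.x4]
  have hJ1 : 1 ≤ J := Nat.le_add_left 1 _
  have hJ0 : (0 : ℝ) < J := by exact_mod_cast hJ1
  have hlamL0 : 0 < (LL x) ^ k * Real.log x := by positivity
  have hJup2 : (J : ℝ) ≤ 2 * ((LL x) ^ k * Real.log x) := by
    refine hJup.trans ?_
    have h1 : x / q ≤ (LL x) ^ k * Real.log x := by
      rw [div_le_iff₀ hq0]
      have h2 : x / ((LL x) ^ k * Real.log x) ≤ q := (Nat.le_ceil _).trans hqy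
      rw [div_le_iff₀ hlamL0] at h2
      linarith
    linarith
  obtain ⟨h, hh⟩ := hcov (w3 x) (ww x) J F.w32 F.zw3 F.w3w hJ1
  set R := (range J).filter (fun j => ∀ p ∈ P (ww x), z < p → ¬ j ≡ h p [MOD p]) with hR
  -- bound for `R`
  have hlw3 : 0 < Real.log (w3 x) := lt_of_lt_of_le (by positivity) F.lw3
  have hlww : 0 < Real.log (ww x) := lt_of_lt_of_le (by positivity) F.lw
  have hLam1 : 1 ≤ Lam k x := by
    unfold Lam
    have : 0 ≤ Real.log (1 + 12 * (LL x) ^ k) := Real.log_nonneg (by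
      have : 0 ≤ (LL x) ^ k := by positivity
      linarith)
    linarith
  have hlogJ : LL x / 2 ≤ Real.log J := by
    have h1 : √(Real.log x) ≤ J := by
      refine le_trans ?_ hJlow
      have h2 : 16 ≤ √(Real.log x) := by
        have := F.v_sqrt
        have := F.v4
        linarith
      have h3 : √(Real.log x) * √(Real.log x) = Real.log x := Real.mul_self_sqrt hL0.le
      nlinarith
    rw [show LL x / 2 = Real.log (√(Real.log x)) from (Real.log_sqrt hL0.le).symm]
    exact Real.log_le_log (Real.sqrt_pos.mpr hL0) h1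
  have hb1 : 1 + √(J : ℝ) ≤ 2 * (J / LL x) := by
    have h1 : LL x ≤ √(J : ℝ) := by
      apply Real.le_sqrt_of_sq_le
      have h2 := F.v_sqrt
      have h3 : √(Real.log x) * √(Real.log x) = Real.log x := Real.mul_self_sqrt hL0.le
      nlinarith [Real.sqrt_nonneg (Real.log x)]
    have h2 : √(J : ℝ) * √(J : ℝ) = J := Real.mul_self_sqrt hJ0.le
    have h3 : 1 ≤ √(J : ℝ) := by
      rw [show (1 : ℝ) = √1 by rw [Real.sqrt_one]]
      exact Real.sqrt_le_sqrt (by exact_mod_cast hJ1)
    have h4 : √(J : ℝ) ≤ J / LL x := by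
      rw [le_div_iff₀ hv0]
      nlinarith
    linarith
  have hb2 : (J : ℝ) * (Real.log (w3 x)) ^ 3 * (3 / 4 : ℝ) ^ (Real.log J / (2 * Real.log (w3 x))) ≤
      J / LL x := by
    have h1 : √(LL x) / 4 ≤ Real.log J / (2 * Real.log (w3 x)) := by
      rw [le_div_iff₀ (by positivity)]
      have h2 := F.lw3'
      nlinarith
    have h2 : (3 / 4 : ℝ) ^ (Real.log J / (2 * Real.log (w3 x))) ≤ (3 / 4 : ℝ) ^ (√(LL x) / 4) :=
      Real.rpow_le_rpow_of_exponent_ge (by norm_num) (by norm_num) h1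
    have h3 : (Real.log (w3 x)) ^ 3 ≤ (√(LL x)) ^ 3 := pow_le_pow_left₀ hlw3.le F.lw3' 3
    have h4 : (Real.log (w3 x)) ^ 3 * (3 / 4 : ℝ) ^ (Real.log J / (2 * Real.log (w3 x))) ≤
        (√(LL x)) ^ 3 * (3 / 4 : ℝ) ^ (√(LL x) / 4) :=
      mul_le_mul h3 h2 (by positivity) (by positivity)
    have h5 : (√(LL x)) ^ 3 * (3 / 4 : ℝ) ^ (√(LL x) / 4) ≤ 1 / LL x := by
      rw [le_div_iff₀ hv0]
      have h6 := F.decay
      have e : (√(LL x)) ^ 3 * (3 / 4 : ℝ) ^ (√(LL x) / 4) * LL x =
          (√(LL x)) ^ 5 * (3 / 4 : ℝ) ^ (√(LL x) / 4) := by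
        conv_lhs => rw [← hsv2]
        rw [hsv2]
        ring_nf
        rw [show (√(LL x)) ^ 5 = (√(LL x)) ^ 3 * (√(LL x) * √(LL x)) by ring, hsv2]
        ring
      rw [e]
      exact h6
    calc _ = (J : ℝ) * ((Real.log (w3 x)) ^ 3 * (3 / 4 : ℝ) ^ (Real.log J / (2 * Real.log (w3 x)))) := by ring
      _ ≤ (J : ℝ) * (1 / LL x) := mul_le_mul_of_nonneg_left (h4.trans h5) hJ0.le
      _ = _ := by ring
  have hb3 : (J : ℝ) / Real.log (ww x) * (1 + Real.log (1 + J / ww x)) ≤ 2 * (J / LL x) * Lam k x := by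
    have hw0 : (0 : ℝ) < ww x := by
      have := F.w6
      linarith
    have h1 : (J : ℝ) / Real.log (ww x) ≤ 2 * (J / LL x) := by
      rw [div_le_iff₀ hlww]
      have h2 := F.lw
      calc (J : ℝ) = 2 * (J / LL x) * (LL x / 2) := by field_simp
        _ ≤ _ := mul_le_mul_of_nonneg_left h2 (by positivity)
    have h2 : (J : ℝ) / ww x ≤ 12 * (LL x) ^ k := by
      rw [div_le_iff₀ hw0]
      have h3 := F.w6
      calc (J : ℝ) ≤ 2 * ((LL x) ^ k * Real.log x) := hJup2
        _ = 12 * (LL x) ^ k * (Real.log x / 6) := by ring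
        _ ≤ _ := mul_le_mul_of_nonneg_left h3 (by positivity)
    have h3 : 1 + Real.log (1 + J / ww x) ≤ Lam k x := by
      unfold Lam
      have : Real.log (1 + J / ww x) ≤ Real.log (1 + 12 * (LL x) ^ k) := by
        apply Real.log_le_log (by positivity)
        linarith
      linarith
    apply mul_le_mul h1 h3 _ (by positivity)
    have : 0 ≤ Real.log (1 + (J : ℝ) / ww x) := Real.log_nonneg (by
      have : (0 : ℝ) ≤ (J : ℝ) / ww x := by positivity
      linarith)
    linarith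
  have hRle : (R.card : ℝ) ≤ 10 * C1 * (J * Lam k x / (√(LL x) * LL x)) := by
    refine hh.trans ?_
    have h1 : C1 / Real.log (w3 x) ≤ 2 * C1 / √(LL x) := by
      rw [div_le_div_iff₀ hlw3 hsv0]
      have := F.lw3
      nlinarith
    have h2 : 1 + √(J : ℝ) + J * (Real.log (w3 x)) ^ 3 * (3 / 4 : ℝ) ^ (Real.log J / (2 * Real.log (w3 x)))
        + J / Real.log (ww x) * (1 + Real.log (1 + J / ww x)) ≤ 5 * (J / LL x) * Lam k x := by
      have h3 : 0 ≤ (J : ℝ) / LL x := by positivity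
      nlinarith
    have h3 : 0 ≤ 1 + √(J : ℝ) + J * (Real.log (w3 x)) ^ 3 * (3 / 4 : ℝ) ^ (Real.log J / (2 * Real.log (w3 x)))
        + J / Real.log (ww x) * (1 + Real.log (1 + J / ww x)) := by
      have h4 : 0 ≤ Real.log (1 + (J : ℝ) / ww x) := Real.log_nonneg (by
        have : (0 : ℝ) ≤ (J : ℝ) / ww x := by positivity
        linarith)
      positivity
    calc _ ≤ 2 * C1 / √(LL x) * (5 * (J / LL x) * Lam k x) := mul_le_mul h1 h2 h3 (by positivity)
      _ = _ := by field_simp; ring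
  -- the class
  have hqbig : Real.exp (9 / 10 * Real.log x) ≤ q := F.ylow.trans hqy
  set P1 := ∏ p ∈ (P (ww x)).filter (fun p => z < p), p with hP1
  have hP1pos : 0 < P1 := Finset.prod_pos (fun p hp => (mem_P.mp (Finset.mem_filter.mp hp).1).1.pos)
  have hP1le : (P1 : ℝ) ≤ Real.exp (3 / 10 * Real.log x) := by
    have h1 : (P1 : ℝ) ≤ (4 : ℝ) ^ (ww x) := by exact_mod_cast primorial_part_le z (ww x)
    refine h1.trans ?_
    rw [← Real.rpow_natCast, Real.rpow_def_of_pos (by norm_num)]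
    apply Real.exp_le_exp.mpr
    have h2 : Real.log 4 ≤ 3 / 2 := by
      rw [show (4 : ℝ) = 2 ^ 2 by norm_num, Real.log_pow]
      have := Real.log_two_lt_d9
      push_cast
      linarith
    have h3 := F.w5
    have h4 : (0 : ℝ) ≤ ww x := by positivity
    nlinarith
  set B := q / P1 with hBd
  have hBlow : Real.exp (3 / 5 * Real.log x) - 1 ≤ (B : ℝ) := by
    have h1 : (q : ℝ) / P1 < B + 1 := by
      have h2 := Nat.lt_div_mul_add hP1pos (a := q)
      rw [div_lt_iff₀ (by exact_mod_cast hP1pos)]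
      have h3 : q < (B + 1) * P1 := by rw [add_mul, one_mul]; exact h2
      exact_mod_cast h3
    have h2 : Real.exp (3 / 5 * Real.log x) ≤ (q : ℝ) / P1 := by
      rw [le_div_iff₀ (by exact_mod_cast hP1pos)]
      calc Real.exp (3 / 5 * Real.log x) * P1
          ≤ Real.exp (3 / 5 * Real.log x) * Real.exp (3 / 10 * Real.log x) :=
            mul_le_mul_of_nonneg_left hP1le (Real.exp_pos _).le
        _ = Real.exp (9 / 10 * Real.log x) := by rw [← Real.exp_add]; ring_nf
        _ ≤ q := hqbig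
    linarith
  have hBD : Real.exp (2 / 5 * Real.log x) * Real.log x ≤ (B : ℝ) := by
    have := F.Bexp
    linarith
  have hB1 : (1 : ℝ) ≤ B := by
    have h1 : 1 ≤ Real.exp (2 / 5 * Real.log x) := Real.one_le_exp (by positivity)
    nlinarith
  have hB0 : 0 < B := by exact_mod_cast (by linarith : (0 : ℝ) < B)
  obtain ⟨a, ha⟩ := exists_class_few z (ww x) (DD x) (yy k x) (NN x) q J T h (F.zw3.trans F.w3w) F.wy F.D2 F.Dy
    hq hyq (le_of_eq hJ.symm) hTN hT hB0
  refine ⟨a, ?_⟩
  set A := ((T.filter (fun n => (q : ℤ) ∣ n - a)).card : ℝ) with hA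
  set W := ∏ p ∈ P (ww x), (1 - 1 / (p : ℝ)) with hW
  have hlD0 : 0 < Real.log (DD x) := lt_of_lt_of_le (by positivity) F.lD
  have h2w : 2 ≤ ww x := F.w32.trans F.w3w
  have hWlow : c2 / LL x ≤ W := by
    refine le_trans ?_ (hpg (ww x) h2w)
    apply div_le_div_of_nonneg_left hc2.le hlww F.lw'
  have hBr0 : (0 : ℝ) < B := by linarith
  have hD4 : (DD x : ℝ) ^ 4 ≤ B / Real.log (DD x) := by
    rw [le_div_iff₀ hlD0]
    calc (DD x : ℝ) ^ 4 * Real.log (DD x) ≤ Real.exp (2 / 5 * Real.log x) * Real.log x := by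
          apply mul_le_mul F.D4 _ hlD0.le (Real.exp_pos _).le
          have := F.lD'
          linarith
      _ ≤ B := hBD
  have h1 : A * (c2 / LL x * B) ≤ (R.card : ℝ) * (3 * B / Real.log (DD x)) := by
    calc A * (c2 / LL x * B) ≤ A * (W * B) := by
          apply mul_le_mul_of_nonneg_left _ (by positivity)
          exact mul_le_mul_of_nonneg_right hWlow hBr0.le
      _ ≤ (R.card : ℝ) * (2 * B / Real.log (DD x) + (DD x : ℝ) ^ 4) := ha
      _ ≤ (R.card : ℝ) * (3 * B / Real.log (DD x)) := by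
          apply mul_le_mul_of_nonneg_left _ (by positivity)
          have e : 3 * (B : ℝ) / Real.log (DD x) = 2 * B / Real.log (DD x) + B / Real.log (DD x) := by ring
          rw [e]
          linarith
  have h2 : A ≤ (R.card : ℝ) * (3 / Real.log (DD x)) * (LL x / c2) := by
    have h3 : A * (c2 / LL x * B) * (LL x / c2 / B) ≤ (R.card : ℝ) * (3 * B / Real.log (DD x)) * (LL x / c2 / B) :=
      mul_le_mul_of_nonneg_right h1 (by positivity)
    calc A = A * (c2 / LL x * B) * (LL x / c2 / B) := by field_simp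
      _ ≤ _ := h3
      _ = _ := by field_simp
  have h3 : 3 / Real.log (DD x) ≤ 60 / Real.log x := by
    rw [div_le_div_iff₀ hlD0 hL0]
    have := F.lD
    linarith
  calc A ≤ (R.card : ℝ) * (3 / Real.log (DD x)) * (LL x / c2) := h2
    _ ≤ (10 * C1 * (J * Lam k x / (√(LL x) * LL x))) * (60 / Real.log x) * (LL x / c2) := by
        apply mul_le_mul_of_nonneg_right _ (by positivity)
        apply mul_le_mul hRle h3 (by positivity) (by positivity)
    _ ≤ (10 * C1 * (2 * (x / q) * Lam k x / (√(LL x) * LL x))) * (60 / Real.log x) * (LL x / c2) := by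
        gcongr
    _ = (600 * C1 * 2 / c2) * (x * Lam k x / (√(LL x) * Real.log x)) * (1 / q) := by
        field_simp
        ring
    _ ≤ _ := by
        apply mul_le_mul_of_nonneg_right _ (by positivity)
        apply mul_le_mul_of_nonneg_right _ (by positivity)
        have : 0 ≤ 600 * C1 * 2 / c2 := by positivity
        linarith

end

end Pool.Agent.H6.HR
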