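import Mathlib
import Pool.Agent.H6.HR.Loss

/-!
# Large admissible sets
-/

set_option autoImplicit false

open Finset Filter Topology

namespace Pool.Agent.H6.HR

noncomputable section

theorem g_le_one (z m : ℕ) : g z m ≤ 1 := by
  unfold g
  apply Finset.prod_le_one
  · intro w hw
    exact phi_nonneg (mem_P.mp hw).1.two_le _
  · intro w hw
    have h2 : (2 : ℝ) ≤ w := by exact_mod_cast (mem_P.mp hw).1.two_le
    unfold phi
    split_ifs
    · exact le_rfl
    · rw [div_le_one (by linarith)]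
      linarith

theorem loss_all (z k : ℕ) : ∃ C : ℝ, 0 < C ∧ ∀ x : ℝ, Facts z k x → ∀ T : Finset ℤ,
    (∀ n ∈ T, -(NN x : ℤ) ≤ n ∧ n ≤ NN x) → (∀ n ∈ T, ∀ p ∈ P (yy k x), z < p → ¬ (p : ℤ) ∣ n) →
    ∃ T' : Finset ℤ, T' ⊆ T ∧ (∀ q : ℕ, q.Prime → yy k x < q → q ≤ KK x → ∃ r : ℤ, ∀ n ∈ T', ¬ (q : ℤ) ∣ n - r) ∧
      (T.card : ℝ) - C * ((Lam k x) ^ 2 / √(LL x)) * (x / (Real.log x) ^ 2) ≤ (T'.card : ℝ) := by
  classical
  obtain ⟨C1, hC1, h1⟩ := loss_one z k
  obtain ⟨C2, hC2, h2⟩ := sum_recip_le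
  refine ⟨C1 * (2 * (1 + C2)), by positivity, ?_⟩
  intro x F T hTN hT
  have hL := F.L100
  have hL0 : 0 < Real.log x := by linarith
  have hx0 : 0 < x := by linarith [F.x4]
  have hv0 : 0 < LL x := by linarith [F.v4]
  have hsv0 : 0 < √(LL x) := Real.sqrt_pos.mpr hv0
  have hLam1 : 1 ≤ Lam k x := by
    unfold Lam
    have : 0 ≤ Real.log (1 + 12 * (LL x) ^ k) := Real.log_nonneg (by
      have : 0 ≤ (LL x) ^ k := by positivity
      linarith)
    linarith
  have hex : ∀ q : ℕ, ∃ a : ℤ, q.Prime → yy k x < q → q ≤ KK x →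
      ((T.filter (fun n => (q : ℤ) ∣ n - a)).card : ℝ) ≤
        C1 * (x * Lam k x / (√(LL x) * Real.log x)) * (1 / q) := by
    intro q
    by_cases hq : q.Prime ∧ yy k x < q ∧ q ≤ KK x
    · obtain ⟨a, ha⟩ := h1 x F T hTN hT q hq.1 hq.2.1 hq.2.2
      exact ⟨a, fun _ _ _ => ha⟩
    · exact ⟨0, fun h h' h'' => absurd ⟨h, h', h''⟩ hq⟩
  choose a ha using hex
  set QL := (P (KK x)).filter (fun q => yy k x < q) with hQL
  refine ⟨T.filter (fun n => ∀ q ∈ QL, ¬ (q : ℤ) ∣ n - a q), Finset.filter_subset _ _, ?_, ?_⟩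
  · intro q hq hyq hqK
    refine ⟨a q, ?_⟩
    intro n hn
    exact (Finset.mem_filter.mp hn).2 q (Finset.mem_filter.mpr ⟨mem_P.mpr ⟨hq, hqK⟩, hyq⟩)
  · have hsub : T ⊆ T.filter (fun n => ∀ q ∈ QL, ¬ (q : ℤ) ∣ n - a q) ∪
        QL.biUnion (fun q => T.filter (fun n => (q : ℤ) ∣ n - a q)) := by
      intro n hn
      rw [Finset.mem_union, Finset.mem_biUnion]
      by_cases h : ∀ q ∈ QL, ¬ (q : ℤ) ∣ n - a q
      · exact Or.inl (Finset.mem_filter.mpr ⟨hn, h⟩)
      · push Not at h
        obtain ⟨q, hq, hd⟩ := h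
        exact Or.inr ⟨q, hq, Finset.mem_filter.mpr ⟨hn, hd⟩⟩
    have h3 : (T.card : ℝ) ≤ ((T.filter (fun n => ∀ q ∈ QL, ¬ (q : ℤ) ∣ n - a q)).card : ℝ) +
        ∑ q ∈ QL, ((T.filter (fun n => (q : ℤ) ∣ n - a q)).card : ℝ) := by
      have h4 := (Finset.card_le_card hsub).trans (Finset.card_union_le _ _)
      have h5 := h4.trans (Nat.add_le_add_left Finset.card_biUnion_le _)
      exact_mod_cast h5
    have h4 : ∑ q ∈ QL, ((T.filter (fun n => (q : ℤ) ∣ n - a q)).card : ℝ) ≤
        C1 * (x * Lam k x / (√(LL x) * Real.log x)) * ∑ q ∈ QL, (1 : ℝ) / q := by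
      rw [Finset.mul_sum]
      apply Finset.sum_le_sum
      intro q hq
      rw [hQL, Finset.mem_filter, mem_P] at hq
      exact ha q hq.1.1 hq.2 hq.1.2
    have hly := F.ly
    have hly0 : 0 < Real.log (yy k x) := by linarith
    have h5 : ∑ q ∈ QL, (1 : ℝ) / q ≤ 2 * (1 + C2) * Lam k x / Real.log x := by
      by_cases hyK : yy k x ≤ KK x
      · have h6 := h2 (yy k x) (KK x) (F.D2.trans F.Dy) hyK
        refine h6.trans ?_
        have hy0 : (0 : ℝ) < yy k x := by
          have := F.D2.trans F.Dy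
          exact_mod_cast (by omega : 0 < yy k x)
        have hK0 : (0 : ℝ) < KK x := lt_of_lt_of_le hy0 (by exact_mod_cast hyK)
        have hlK : Real.log (KK x) - Real.log (yy k x) ≤ Lam k x - 1 := by
          have e1 : Real.log (KK x) ≤ Real.log (8 * x / Real.log x) :=
            Real.log_le_log hK0 (Nat.floor_le (by positivity))
          have e2 : Real.log (x / ((LL x) ^ k * Real.log x)) ≤ Real.log (yy k x) :=
            Real.log_le_log (by positivity) (Nat.le_ceil _)
          have e3 : Real.log (8 * x / Real.log x) - Real.log (x / ((LL x) ^ k * Real.log x)) =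
              Real.log (8 * (LL x) ^ k) := by
            rw [← Real.log_div (by positivity) (by positivity)]
            congr 1
            field_simp
          have e4 : Real.log (8 * (LL x) ^ k) ≤ Real.log (1 + 12 * (LL x) ^ k) := by
            apply Real.log_le_log (by positivity)
            have : 0 ≤ (LL x) ^ k := by positivity
            linarith
          unfold Lam
          linarith
        have hlogK0 : 0 < Real.log (KK x) := by
          have : Real.log (yy k x) ≤ Real.log (KK x) := Real.log_le_log hy0 (by exact_mod_cast hyK)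
          linarith
        have h7 : Real.log (Real.log (KK x) / Real.log (yy k x)) ≤ (Lam k x - 1) / Real.log (yy k x) := by
          have h8 := Real.log_le_sub_one_of_pos (show 0 < Real.log (KK x) / Real.log (yy k x) by positivity)
          refine h8.trans ?_
          have e : Real.log (KK x) / Real.log (yy k x) - 1 =
              (Real.log (KK x) - Real.log (yy k x)) / Real.log (yy k x) := by
            field_simp
          rw [e]
          exact div_le_div_of_nonneg_right hlK hly0.le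
        calc _ ≤ (Lam k x - 1) / Real.log (yy k x) + C2 / Real.log (yy k x) := by linarith
          _ = (Lam k x - 1 + C2) / Real.log (yy k x) := by ring
          _ ≤ ((1 + C2) * Lam k x) / Real.log (yy k x) := by
              apply div_le_div_of_nonneg_right _ hly0.le
              nlinarith
          _ ≤ ((1 + C2) * Lam k x) / (Real.log x / 2) := by
              apply div_le_div_of_nonneg_left (by positivity) (by positivity) hly
          _ = _ := by ring
      · have hem : QL = ∅ := by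
          rw [hQL, Finset.filter_eq_empty_iff]
          intro q hq
          rw [mem_P] at hq
          omega
        rw [hem, Finset.sum_empty]
        positivity
    have h6 : C1 * (x * Lam k x / (√(LL x) * Real.log x)) * ∑ q ∈ QL, (1 : ℝ) / q ≤
        C1 * (x * Lam k x / (√(LL x) * Real.log x)) * (2 * (1 + C2) * Lam k x / Real.log x) :=
      mul_le_mul_of_nonneg_left h5 (by positivity)
    have h7 : C1 * (x * Lam k x / (√(LL x) * Real.log x)) * (2 * (1 + C2) * Lam k x / Real.log x) =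
        C1 * (2 * (1 + C2)) * ((Lam k x) ^ 2 / √(LL x)) * (x / (Real.log x) ^ 2) := by
      field_simp
    linarith

/-- Subsets of a set that misses a class modulo each prime up to `K`. -/
theorem admissible_of {x : ℝ} {N K t : ℕ} (T : Finset ℤ) (hx : 2 * (N : ℝ) < x)
    (hTN : ∀ n ∈ T, -(N : ℤ) ≤ n ∧ n ≤ N) (hT : ∀ q : ℕ, q.Prime → q ≤ K → ∃ r : ℤ, ∀ n ∈ T, ¬ (q : ℤ) ∣ n - r)
    (ht1 : 1 ≤ t) (htT : t ≤ T.card) (htK : t ≤ K) :
    ∃ S : Finset ℤ, 0 ∈ S ∧ (∀ s ∈ S, 0 ≤ s ∧ (s : ℝ) < x) ∧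
      (∀ q : ℕ, q.Prime → q ≤ S.card → ∃ r : ℤ, ∀ s ∈ S, ¬ ((q : ℤ) ∣ s - r)) ∧ S.card = t := by
  classical
  obtain ⟨S0, hS0, hcard⟩ := Finset.exists_subset_card_eq htT
  have hne : S0.Nonempty := by
    rw [← Finset.card_pos, hcard]
    omega
  set m := S0.min' hne with hm
  have hinj : Function.Injective (fun n : ℤ => n - m) := fun a b h => by
    dsimp only at h
    linarith
  refine ⟨S0.image (fun n => n - m), ?_, ?_, ?_, ?_⟩
  · rw [Finset.mem_image]
    exact ⟨m, Finset.min'_mem _ _, by ring⟩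
  · intro s hs
    rw [Finset.mem_image] at hs
    obtain ⟨n, hn, rfl⟩ := hs
    have h1 := Finset.min'_le S0 n hn
    have h2 := hTN n (hS0 hn)
    have h3 := hTN m (hS0 (Finset.min'_mem _ _))
    refine ⟨by omega, ?_⟩
    have h4 : n - m ≤ 2 * N := by omega
    have h5 : ((n - m : ℤ) : ℝ) ≤ 2 * N := by exact_mod_cast h4
    linarith
  · intro q hq hqc
    rw [Finset.card_image_of_injective _ hinj, hcard] at hqc
    obtain ⟨r, hr⟩ := hT q hq (hqc.trans htK)
    refine ⟨r - m, ?_⟩
    intro s hs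
    rw [Finset.mem_image] at hs
    obtain ⟨n, hn, rfl⟩ := hs
    have := hr n (hS0 hn)
    have e : n - m - (r - m) = n - r := by ring
    rw [e]
    exact this
  · rw [Finset.card_image_of_injective _ hinj, hcard]

theorem primeCounting_succ_le (n : ℕ) : Nat.primeCounting (n + 1) ≤ Nat.primeCounting n + 1 := by
  rw [← card_P, ← card_P]
  have : P (n + 1) ⊆ insert (n + 1) (P n) := by
    intro p hp
    rw [mem_P] at hp
    rw [Finset.mem_insert, mem_P]
    rcases Nat.lt_or_ge n p with h | h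
    · left; omega
    · right; exact ⟨hp.1, h⟩
  exact (Finset.card_le_card this).trans (Finset.card_insert_le _ _)

theorem ev_Lam (k : ℕ) (δ : ℝ) (hδ : 0 < δ) : ∀ᶠ x : ℝ in atTop, (Lam k x) ^ 2 / √(LL x) ≤ δ := by
  have hv : Tendsto (fun x : ℝ => LL x) atTop atTop := Real.tendsto_log_atTop.comp Real.tendsto_log_atTop
  have h1 : ∀ᶠ v : ℝ in atTop, Real.log v ≤ √δ / (k + 4) * v ^ ((1 : ℝ) / 4) := by
    have h := (isLittleO_log_rpow_atTop (show (0 : ℝ) < 1 / 4 by norm_num)).bound
      (show (0 : ℝ) < √δ / (k + 4) by positivity)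
    filter_upwards [h, eventually_ge_atTop 1] with v h1 h2
    rw [Real.norm_of_nonneg (Real.log_nonneg h2), Real.norm_of_nonneg (by positivity)] at h1
    exact h1
  have h2 : ∀ᶠ v : ℝ in atTop, (1 + Real.log (1 + 12 * v ^ k)) ^ 2 / √v ≤ δ := by
    filter_upwards [h1, eventually_ge_atTop 13] with v h1 h2
    have hv0 : 0 < v := by linarith
    have hlv : 1 ≤ Real.log v := by
      have h3 : Real.exp 1 ≤ v := by
        have := Real.exp_one_lt_d9
        linarith
      rw [← Real.log_exp 1]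
      exact Real.log_le_log (Real.exp_pos _) h3
    have hvk : 1 ≤ v ^ k := one_le_pow₀ (by linarith)
    have h3 : 1 + 12 * v ^ k ≤ v ^ (k + 1) := by
      rw [pow_succ]
      nlinarith
    have h4 : Real.log (1 + 12 * v ^ k) ≤ (k + 1) * Real.log v := by
      calc Real.log (1 + 12 * v ^ k) ≤ Real.log (v ^ (k + 1)) := Real.log_le_log (by positivity) h3
        _ = _ := by rw [Real.log_pow]; push_cast; ring
    have h5 : 1 + Real.log (1 + 12 * v ^ k) ≤ (k + 4) * Real.log v := by nlinarith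
    have h6 : (k + 4) * Real.log v ≤ √δ * v ^ ((1 : ℝ) / 4) := by
      calc (k + 4) * Real.log v ≤ (k + 4) * (√δ / (k + 4) * v ^ ((1 : ℝ) / 4)) :=
            mul_le_mul_of_nonneg_left h1 (by positivity)
        _ = _ := by field_simp
    have h7 : 0 ≤ 1 + Real.log (1 + 12 * v ^ k) := by
      have : 0 ≤ Real.log (1 + 12 * v ^ k) := Real.log_nonneg (by linarith)
      linarith
    have h8 : (1 + Real.log (1 + 12 * v ^ k)) ^ 2 ≤ (√δ * v ^ ((1 : ℝ) / 4)) ^ 2 :=
      pow_le_pow_left₀ h7 (h5.trans h6) 2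
    have h9 : (√δ * v ^ ((1 : ℝ) / 4)) ^ 2 = δ * √v := by
      rw [mul_pow, Real.sq_sqrt hδ.le, ← Real.rpow_natCast, ← Real.rpow_mul hv0.le, Real.sqrt_eq_rpow]
      norm_num
    rw [div_le_iff₀ (Real.sqrt_pos.mpr hv0), ← h9]
    exact h8
  exact hv.eventually h2

/-- **Large admissible sets.** -/
theorem stageA (z : ℕ) (ε : ℝ) (hε : 0 < ε) : ∀ᶠ x : ℝ in atTop, ∀ V : ℕ, (V : ℝ) + 1 ≤ 10 * LL x →
    ∀ t : ℕ, 1 ≤ t → t ≤ KK x →
      (t : ℝ) ≤ ∑ m ∈ box (P z) V, 2 * g z m * (Nat.primeCounting ⌊x / (2 * m)⌋₊ : ℝ) -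
        ε * (x / (Real.log x) ^ 2) →
      ∃ S : Finset ℤ, 0 ∈ S ∧ (∀ s ∈ S, 0 ≤ s ∧ (s : ℝ) < x) ∧
        (∀ q : ℕ, q.Prime → q ≤ S.card → ∃ r : ℤ, ∀ s ∈ S, ¬ ((q : ℤ) ∣ s - r)) ∧ S.card = t := by
  classical
  set k := (P z).card + 1 with hk
  obtain ⟨C, hC, hloss⟩ := loss_all z k
  obtain ⟨Cp, hCp, hpi⟩ := pi_le
  filter_upwards [facts z k, ev_Lam k (ε / (2 * C)) (by positivity),
    ev_v (2 * (2 * (10 : ℝ) ^ (P z).card * (1 + 4 * Cp)) / ε)] with x F hLam hvbig
  intro V hV t ht1 htK ht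
  have hL := F.L100
  have hL0 : 0 < Real.log x := by linarith
  have hx0 : 0 < x := by linarith [F.x4]
  have hv0 : 0 < LL x := by linarith [F.v4]
  have hPz : ∀ w ∈ P z, w.Prime := fun w hw => (mem_P.mp hw).1
  have hbox : ∀ m ∈ box (P z) V, m ≠ 0 ∧ ∀ p ∈ m.primeFactors, p ≤ z := by
    intro m hm
    obtain ⟨h1, h2, -⟩ := box_mem hPz hm
    exact ⟨h1, fun p hp => (mem_P.mp (h2 p hp)).2⟩
  have hzy : z ≤ yy k x := F.zw3.trans (F.w3w.trans F.wy)
  obtain ⟨c, T, hTN, hTc, hTp, hTcard⟩ := exists_T z (yy k x) (NN x) (box (P z) V) hbox hzy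
  obtain ⟨T', hT'T, hT'q, hT'card⟩ := hloss x F T hTN hTp
  -- every prime up to `K` is fine
  have hall : ∀ q : ℕ, q.Prime → q ≤ KK x → ∃ r : ℤ, ∀ n ∈ T', ¬ (q : ℤ) ∣ n - r := by
    intro q hq hqK
    rcases Nat.lt_or_ge (yy k x) q with h | h
    · exact hT'q q hq h hqK
    · rcases Nat.lt_or_ge z q with h' | h'
      · refine ⟨0, fun n hn => ?_⟩
        rw [sub_zero]
        exact hTp n (hT'T hn) q (mem_P.mpr ⟨hq, h⟩) h'
      · exact ⟨c q, fun n hn => hTc n (hT'T hn) q (mem_P.mpr ⟨hq, h'⟩)⟩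
  have hNx : 2 * (NN x : ℝ) < x := by
    unfold NN
    have h1 : 0 < ⌈x / 2⌉₊ := Nat.ceil_pos.mpr (by linarith)
    have h2 := Nat.ceil_lt_add_one (show 0 ≤ x / 2 by linarith)
    rw [Nat.cast_sub h1]
    push_cast
    linarith
  -- the size
  have hloss1 : C * ((Lam k x) ^ 2 / √(LL x)) * (x / (Real.log x) ^ 2) ≤ ε / 2 * (x / (Real.log x) ^ 2) := by
    apply mul_le_mul_of_nonneg_right _ (by positivity)
    calc C * ((Lam k x) ^ 2 / √(LL x)) ≤ C * (ε / (2 * C)) := mul_le_mul_of_nonneg_left hLam hC.le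
      _ = ε / 2 := by field_simp
  have hfloor : ∀ m ∈ box (P z) V, (Nat.primeCounting ⌊x / (2 * m)⌋₊ : ℝ) ≤
      (Nat.primeCounting (NN x / m) : ℝ) + 1 := by
    intro m hm
    have hm0 : 0 < m := Nat.pos_of_ne_zero (hbox m hm).1
    have hm0' : (0 : ℝ) < m := by exact_mod_cast hm0
    have h1 : ⌊x / (2 * m)⌋₊ ≤ NN x / m + 1 := by
      have h2 : x / (2 * m) ≤ ((NN x + 1 : ℕ) : ℝ) / m := by
        rw [div_le_div_iff₀ (by positivity) hm0']
        have h3 : x / 2 ≤ ((NN x + 1 : ℕ) : ℝ) := by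
          unfold NN
          have h4 : 0 < ⌈x / 2⌉₊ := Nat.ceil_pos.mpr (by linarith)
          rw [Nat.sub_add_cancel h4]
          exact Nat.le_ceil _
        nlinarith
      calc ⌊x / (2 * m)⌋₊ ≤ ⌊((NN x + 1 : ℕ) : ℝ) / m⌋₊ := Nat.floor_le_floor h2
        _ = (NN x + 1) / m := Nat.floor_div_eq_div _ _
        _ ≤ (NN x + m) / m := Nat.div_le_div_right (by omega)
        _ = NN x / m + 1 := Nat.add_div_right _ hm0
    have h2 : Nat.primeCounting ⌊x / (2 * m)⌋₊ ≤ Nat.primeCounting (NN x / m) + 1 :=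
      (Nat.monotone_primeCounting h1).trans (primeCounting_succ_le _)
    exact_mod_cast h2
  have hlamL : 0 < (LL x) ^ k * Real.log x := by positivity
  have hpiy : 1 + (Nat.primeCounting (yy k x) : ℝ) ≤ (1 + 4 * Cp) * (x / ((LL x) ^ k * (Real.log x) ^ 2)) := by
    have hy2 : (2 : ℝ) ≤ yy k x := by exact_mod_cast F.D2.trans F.Dy
    have h1 := hpi (yy k x) hy2
    rw [Nat.floor_natCast] at h1
    have h2 : (yy k x : ℝ) ≤ 2 * (x / ((LL x) ^ k * Real.log x)) := by
      have h3 := Nat.ceil_lt_add_one (show 0 ≤ x / ((LL x) ^ k * Real.log x) by positivity)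
      have h4 : 1 ≤ x / ((LL x) ^ k * Real.log x) := by
        by_contra hcon
        push Not at hcon
        have h5 : yy k x ≤ 1 := by
          unfold yy
          rw [Nat.ceil_le]
          push_cast
          exact hcon.le
        have h6 := F.D2.trans F.Dy
        omega
      unfold yy
      linarith
    have hly0 : 0 < Real.log (yy k x) := Real.log_pos (by linarith)
    have h3 : (Nat.primeCounting (yy k x) : ℝ) ≤ 4 * Cp * (x / ((LL x) ^ k * (Real.log x) ^ 2)) := by
      calc (Nat.primeCounting (yy k x) : ℝ) ≤ Cp * (yy k x) / Real.log (yy k x) := h1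
        _ ≤ Cp * (2 * (x / ((LL x) ^ k * Real.log x))) / (Real.log x / 2) := by
            apply div_le_div₀ (by positivity) _ (by positivity) F.ly
            exact mul_le_mul_of_nonneg_left h2 hCp.le
        _ = _ := by field_simp; ring
    have h4 : 1 ≤ x / ((LL x) ^ k * (Real.log x) ^ 2) := by
      rw [le_div_iff₀ (by positivity), one_mul]
      calc (LL x) ^ k * (Real.log x) ^ 2 = ((LL x) ^ k * Real.log x) * Real.log x := by ring
        _ ≤ Real.exp (Real.log x / 10) * Real.exp (Real.log x / 2) := by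
            apply mul_le_mul F.lamL _ hL0.le (Real.exp_pos _).le
            have := Real.add_one_le_exp (Real.log x / 2)
            have h5 := Real.quadratic_le_exp_of_nonneg (show 0 ≤ Real.log x / 2 by positivity)
            nlinarith
        _ = Real.exp (6 / 10 * Real.log x) := by rw [← Real.exp_add]; ring_nf
        _ ≤ Real.exp (Real.log x) := Real.exp_le_exp.mpr (by linarith)
        _ = x := Real.exp_log hx0
    linarith
  have hcardbox : ((box (P z) V).card : ℝ) ≤ (10 : ℝ) ^ (P z).card * (LL x) ^ (P z).card := by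
    rw [card_box hPz]
    push_cast
    rw [← mul_pow]
    exact pow_le_pow_left₀ (by positivity) hV _
  have hmain : ∑ m ∈ box (P z) V, 2 * g z m * (Nat.primeCounting ⌊x / (2 * m)⌋₊ : ℝ) -
      ε / 2 * (x / (Real.log x) ^ 2) ≤ (T.card : ℝ) := by
    refine le_trans ?_ hTcard
    have h1 : ∑ m ∈ box (P z) V, 2 * g z m * (Nat.primeCounting ⌊x / (2 * m)⌋₊ : ℝ) ≤
        ∑ m ∈ box (P z) V, 2 * g z m * ((Nat.primeCounting (NN x / m) : ℝ) - Nat.primeCounting (yy k x)) +
        ∑ m ∈ box (P z) V, 2 * (1 + (Nat.primeCounting (yy k x) : ℝ)) := by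
      rw [← Finset.sum_add_distrib]
      apply Finset.sum_le_sum
      intro m hm
      have e1 := hfloor m hm
      have e2 := g_nonneg z m
      have e3 := g_le_one z m
      have e4 : (0 : ℝ) ≤ 1 + (Nat.primeCounting (yy k x) : ℝ) := by positivity
      nlinarith
    rw [Finset.sum_const, nsmul_eq_mul] at h1
    have h2 : ((box (P z) V).card : ℝ) * (2 * (1 + (Nat.primeCounting (yy k x) : ℝ))) ≤
        ε / 2 * (x / (Real.log x) ^ 2) := by
      calc ((box (P z) V).card : ℝ) * (2 * (1 + (Nat.primeCounting (yy k x) : ℝ)))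
          ≤ ((10 : ℝ) ^ (P z).card * (LL x) ^ (P z).card) *
              (2 * ((1 + 4 * Cp) * (x / ((LL x) ^ k * (Real.log x) ^ 2)))) := by
            apply mul_le_mul hcardbox _ (by positivity) (by positivity)
            linarith
        _ = (2 * (10 : ℝ) ^ (P z).card * (1 + 4 * Cp)) / LL x * (x / (Real.log x) ^ 2) := by
            rw [hk, pow_succ]
            field_simp
        _ ≤ ε / 2 * (x / (Real.log x) ^ 2) := by
            apply mul_le_mul_of_nonneg_right _ (by positivity)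
            rw [div_le_iff₀ hv0]
            have h3 : 2 * (2 * (10 : ℝ) ^ (P z).card * (1 + 4 * Cp)) / ε * (ε / 2) ≤ LL x * (ε / 2) :=
              mul_le_mul_of_nonneg_right hvbig (by positivity)
            have e : 2 * (2 * (10 : ℝ) ^ (P z).card * (1 + 4 * Cp)) / ε * (ε / 2) =
                2 * (10 : ℝ) ^ (P z).card * (1 + 4 * Cp) := by field_simp
            rw [e] at h3
            linarith
    linarith
  have htT : t ≤ T'.card := by
    have h1 : (t : ℝ) ≤ (T'.card : ℝ) := by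
      have e : ε * (x / (Real.log x) ^ 2) = ε / 2 * (x / (Real.log x) ^ 2) + ε / 2 * (x / (Real.log x) ^ 2) := by
        ring
      linarith
    exact_mod_cast h1
  exact admissible_of T' hNx (fun n hn => hTN n (hT'T hn)) hall ht1 htT htK

end

end Pool.Agent.H6.HR
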