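import Mathlib
import Pool.Agent.H6.HR.StageA

/-!
# The primitive of the prime density
-/

set_option autoImplicit false

open Finset Filter Topology MeasureTheory

namespace Pool.Agent.H6.HR

noncomputable section

/-- The normalised prime counting function at `exp t`. -/
def H (t : ℝ) : ℝ := (Nat.primeCounting ⌊Real.exp t⌋₊ : ℝ) * Real.exp (-t)

/-- Its primitive. -/
def F (u : ℝ) : ℝ := ∫ t in (0 : ℝ)..u, H t

theorem H_nonneg (t : ℝ) : 0 ≤ H t := by
  unfold H
  positivity

theorem primeCounting_le_self (n : ℕ) : Nat.primeCounting n ≤ n := by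
  rw [← card_P]
  have : P n ⊆ Finset.Icc 1 n := by
    intro p hp
    rw [mem_P] at hp
    rw [Finset.mem_Icc]
    exact ⟨hp.1.one_le, hp.2⟩
  have h := Finset.card_le_card this
  simpa using h

theorem H_le_one (t : ℝ) : H t ≤ 1 := by
  unfold H
  have h1 : (Nat.primeCounting ⌊Real.exp t⌋₊ : ℝ) ≤ Real.exp t :=
    calc (Nat.primeCounting ⌊Real.exp t⌋₊ : ℝ) ≤ (⌊Real.exp t⌋₊ : ℝ) := by
          exact_mod_cast primeCounting_le_self _
      _ ≤ Real.exp t := Nat.floor_le (Real.exp_pos _).le
  calc (Nat.primeCounting ⌊Real.exp t⌋₊ : ℝ) * Real.exp (-t) ≤ Real.exp t * Real.exp (-t) :=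
        mul_le_mul_of_nonneg_right h1 (Real.exp_pos _).le
    _ = 1 := by rw [← Real.exp_add, add_neg_cancel, Real.exp_zero]

theorem H_le : ∃ C : ℝ, 0 < C ∧ ∀ t : ℝ, 1 ≤ t → H t ≤ C / t := by
  obtain ⟨C, hC, h⟩ := pi_le
  refine ⟨C, hC, ?_⟩
  intro t ht
  have h1 : (2 : ℝ) ≤ Real.exp t := by
    have := Real.add_one_le_exp t
    linarith
  have h2 := h (Real.exp t) h1
  rw [Real.log_exp] at h2
  unfold H
  calc (Nat.primeCounting ⌊Real.exp t⌋₊ : ℝ) * Real.exp (-t) ≤ (C * Real.exp t / t) * Real.exp (-t) :=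
        mul_le_mul_of_nonneg_right h2 (Real.exp_pos _).le
    _ = C / t * (Real.exp t * Real.exp (-t)) := by ring
    _ = C / t := by rw [← Real.exp_add, add_neg_cancel, Real.exp_zero, mul_one]

theorem int_H (a b : ℝ) : IntervalIntegrable H volume a b := by
  have hmono : Monotone (fun t : ℝ => (Nat.primeCounting ⌊Real.exp t⌋₊ : ℝ)) := by
    intro s t hst
    dsimp only
    exact_mod_cast Nat.monotone_primeCounting (Nat.floor_le_floor (Real.exp_le_exp.mpr hst))
  have h1 : IntervalIntegrable (fun t : ℝ => (Nat.primeCounting ⌊Real.exp t⌋₊ : ℝ)) volume a b :=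
    hmono.intervalIntegrable
  exact h1.mul_continuousOn (by fun_prop)

theorem F_sub (a b : ℝ) : F b - F a = ∫ t in a..b, H t :=
  intervalIntegral.integral_interval_sub_left (int_H 0 b) (int_H 0 a)

theorem F_mono : Monotone F := by
  intro a b hab
  have h1 := F_sub a b
  have h2 : 0 ≤ ∫ t in a..b, H t := intervalIntegral.integral_nonneg hab (fun t _ => H_nonneg t)
  linarith

theorem F_zero : F 0 = 0 := by
  unfold F
  exact intervalIntegral.integral_same

theorem F_lip {a b : ℝ} (hab : a ≤ b) : F b - F a ≤ b - a := by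
  rw [F_sub]
  have h := intervalIntegral.integral_mono_on hab (int_H a b) (intervalIntegrable_const (c := (1 : ℝ)))
    (fun t _ => H_le_one t)
  rw [intervalIntegral.integral_const, smul_eq_mul, mul_one] at h
  exact h

theorem F_cont : Continuous F := intervalIntegral.continuous_primitive (fun a b => int_H a b) 0

theorem F_int (a b : ℝ) : IntervalIntegrable F volume a b := F_cont.intervalIntegrable a b

theorem F_le_of {C : ℝ} (hC : ∀ t : ℝ, 1 ≤ t → H t ≤ C / t) (hC0 : 0 < C) {U s : ℝ} (hs : 0 ≤ s) (hsU : s ≤ U / 2)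
    (hU : 2 ≤ U) : F U - F (U - s) ≤ s * (2 * C / U) := by
  rw [F_sub]
  have h := intervalIntegral.integral_mono_on (show U - s ≤ U by linarith) (int_H (U - s) U)
    (intervalIntegrable_const (c := 2 * C / U)) (fun t ht => by
      rw [Set.mem_Icc] at ht
      have h1 : 1 ≤ t := by linarith [ht.1]
      refine (hC t h1).trans ?_
      rw [div_le_div_iff₀ (by linarith) (by linarith)]
      nlinarith [ht.1])
  rw [intervalIntegral.integral_const, smul_eq_mul] at h
  have e : U - (U - s) = s := by ring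
  rw [e] at h
  exact h

/-- The primitive dominates the sum of the reciprocals of the primes. -/
theorem F_ge (u : ℝ) (hu : 0 ≤ u) : ∑ p ∈ P ⌊Real.exp u⌋₊, (1 : ℝ) / p - 1 ≤ F u := by
  classical
  set N := ⌊Real.exp u⌋₊ with hN
  have hp : ∀ p ∈ P N, 0 ≤ Real.log p ∧ Real.log p ≤ u := by
    intro p hp
    rw [mem_P] at hp
    have h1 : (1 : ℝ) ≤ p := by exact_mod_cast hp.1.one_le
    refine ⟨Real.log_nonneg h1, ?_⟩
    rw [Real.log_le_iff_le_exp (by linarith)]
    exact (Nat.cast_le.mpr hp.2).trans (Nat.floor_le (Real.exp_pos _).le)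
  have hH : ∀ t ∈ Set.uIcc 0 u, H t = ∑ p ∈ P N, if Real.log p ≤ t then Real.exp (-t) else 0 := by
    intro t ht
    rw [Set.uIcc_of_le hu, Set.mem_Icc] at ht
    unfold H
    rw [← card_P]
    have h1 : P ⌊Real.exp t⌋₊ = (P N).filter (fun p : ℕ => Real.log p ≤ t) := by
      ext p
      rw [Finset.mem_filter, mem_P, mem_P]
      constructor
      · rintro ⟨h1, h2⟩
        have hp0 : (0 : ℝ) < p := by exact_mod_cast h1.pos
        refine ⟨⟨h1, h2.trans (Nat.floor_le_floor (Real.exp_le_exp.mpr ht.2))⟩, ?_⟩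
        rw [Real.log_le_iff_le_exp hp0]
        exact (Nat.cast_le.mpr h2).trans (Nat.floor_le (Real.exp_pos _).le)
      · rintro ⟨⟨h1, -⟩, h3⟩
        have hp0 : (0 : ℝ) < p := by exact_mod_cast h1.pos
        refine ⟨h1, ?_⟩
        rw [Real.log_le_iff_le_exp hp0] at h3
        exact Nat.le_floor h3
    rw [h1, ← Finset.sum_filter, Finset.sum_const, nsmul_eq_mul]
  have hint : ∀ p : ℕ, IntervalIntegrable (fun t : ℝ => if Real.log p ≤ t then Real.exp (-t) else 0) volume 0 u := by
    intro p
    have h1 : (fun t : ℝ => if Real.log p ≤ t then Real.exp (-t) else 0) =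
        Set.indicator (Set.Ici (Real.log p)) (fun t => Real.exp (-t)) := by
      ext t
      simp [Set.indicator, Set.mem_Ici]
    rw [h1, intervalIntegrable_iff]
    apply IntegrableOn.indicator _ measurableSet_Ici
    rw [← intervalIntegrable_iff]
    apply Continuous.intervalIntegrable
    fun_prop
  have h2 : F u = ∑ p ∈ P N, ∫ t in (0 : ℝ)..u, (if Real.log p ≤ t then Real.exp (-t) else 0) := by
    unfold F
    rw [intervalIntegral.integral_congr hH, intervalIntegral.integral_finsetSum (fun p _ => hint p)]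
  have h3 : ∀ p ∈ P N, (1 : ℝ) / p - Real.exp (-u) ≤
      ∫ t in (0 : ℝ)..u, (if Real.log p ≤ t then Real.exp (-t) else 0) := by
    intro p hpN
    obtain ⟨hp1, hp2⟩ := hp p hpN
    rw [mem_P] at hpN
    have hp0 : (0 : ℝ) < p := by exact_mod_cast hpN.1.pos
    have hsub1 : Set.uIcc 0 (Real.log p) ⊆ Set.uIcc 0 u := by
      rw [Set.uIcc_of_le hp1, Set.uIcc_of_le hu]
      exact Set.Icc_subset_Icc le_rfl hp2
    have hsub2 : Set.uIcc (Real.log p) u ⊆ Set.uIcc 0 u := by
      rw [Set.uIcc_of_le hp2, Set.uIcc_of_le hu]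
      exact Set.Icc_subset_Icc hp1 le_rfl
    rw [← intervalIntegral.integral_add_adjacent_intervals ((hint p).mono_set hsub1) ((hint p).mono_set hsub2)]
    have e1 : 0 ≤ ∫ t in (0 : ℝ)..Real.log p, (if Real.log p ≤ t then Real.exp (-t) else 0) := by
      apply intervalIntegral.integral_nonneg hp1
      intro t _
      split_ifs
      · exact (Real.exp_pos _).le
      · exact le_rfl
    have e2 : ∫ t in (Real.log p)..u, (if Real.log p ≤ t then Real.exp (-t) else 0) =
        ∫ t in (Real.log p)..u, Real.exp (-t) := by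
      apply intervalIntegral.integral_congr
      intro t ht
      rw [Set.uIcc_of_le hp2, Set.mem_Icc] at ht
      dsimp only
      rw [if_pos ht.1]
    have e3 : ∫ t in (Real.log p)..u, Real.exp (-t) = 1 / p - Real.exp (-u) := by
      rw [intervalIntegral.integral_comp_neg (fun t => Real.exp t), integral_exp, Real.exp_neg (Real.log p),
        Real.exp_log hp0, one_div]
    linarith
  have h4 : ∑ p ∈ P N, ((1 : ℝ) / p - Real.exp (-u)) ≤ F u := by
    rw [h2]
    exact Finset.sum_le_sum h3
  rw [Finset.sum_sub_distrib, Finset.sum_const, nsmul_eq_mul, card_P] at h4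
  have h5 := H_le_one u
  unfold H at h5
  linarith

end

end Pool.Agent.H6.HR
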