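import Mathlib
import Pool.Agent.H6.HR.Prim

/-!
# Averaging over the length
-/

set_option autoImplicit false

open Finset Filter Topology MeasureTheory

namespace Pool.Agent.H6.HR

noncomputable section

/-- `S` is admissible and lies in `[0, x)`. -/
def Adm (x : ℝ) (S : Finset ℤ) : Prop :=
  0 ∈ S ∧ (∀ s ∈ S, 0 ≤ s ∧ (s : ℝ) < x) ∧
    ∀ q : ℕ, q.Prime → q ≤ S.card → ∃ r : ℤ, ∀ s ∈ S, ¬ ((q : ℤ) ∣ s - r)

theorem pi_le_five {x : ℝ} (hx : 2 ≤ x) : (Nat.primeCounting ⌊x⌋₊ : ℝ) ≤ 5 * x / Real.log x := by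
  have h := Chebyshev.pi_le_log4_mul_div (show 1 < x by linarith)
  refine h.trans ?_
  have hx0 : 0 < x := by linarith
  have hlog : 0 < Real.log x := Real.log_pos (by linarith)
  have h1 : Real.log √x = Real.log x / 2 := Real.log_sqrt hx0.le
  have hs0 : 0 < √x := Real.sqrt_pos.mpr hx0
  have hs : √x * √x = x := Real.mul_self_sqrt hx0.le
  have h2 : Real.log x ≤ 2 * √x := by
    have := Real.log_le_sub_one_of_pos hs0
    rw [h1] at this
    linarith
  have h3 : √x ≤ 2 * x / Real.log x := by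
    rw [le_div_iff₀ hlog]
    nlinarith
  have h4 : Real.log 4 ≤ 3 / 2 := by
    have h41 : Real.log 4 = 2 * Real.log 2 := by
      rw [show (4 : ℝ) = 2 ^ 2 by norm_num, Real.log_pow]
      norm_num
    have := Real.log_two_lt_d9
    rw [h41]
    linarith
  rw [h1]
  have h5 : Real.log 4 * x / (Real.log x / 2) ≤ 3 * x / Real.log x := by
    have e : Real.log 4 * x / (Real.log x / 2) = (2 * Real.log 4) * x / Real.log x := by
      field_simp
    rw [e]
    apply div_le_div_of_nonneg_right _ hlog.le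
    nlinarith
  have h6 : 5 * x / Real.log x = 3 * x / Real.log x + 2 * x / Real.log x := by
    ring
  rw [h6]
  linarith

/-- If no admissible set is large, then the weighted sum is small. -/
theorem weighted_le (z : ℕ) (C x0 : ℝ) (hC : 0 ≤ C)
    (hneg : ∀ x : ℝ, x0 ≤ x → ∀ S : Finset ℤ, Adm x S →
      (S.card : ℝ) ≤ (Nat.primeCounting ⌊x⌋₊ : ℝ) + C * x / (Real.log x) ^ 2) :
    ∀ᶠ x : ℝ in atTop, ∀ V : ℕ, (V : ℝ) + 1 ≤ 10 * LL x →
      ∑ m ∈ box (P z) V, 2 * g z m * (Nat.primeCounting ⌊x / (2 * m)⌋₊ : ℝ) ≤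
        (Nat.primeCounting ⌊x⌋₊ : ℝ) + (C + 2) * (x / (Real.log x) ^ 2) := by
  filter_upwards [stageA z 1 one_pos, eventually_ge_atTop x0, eventually_ge_atTop 2, ev_L (C + 2),
    Real.tendsto_log_atTop.eventually (ev_pow_exp 2 1 one_pos)] with x hA hx0 hx2 hL hexp
  intro V hV
  by_contra hcon
  push Not at hcon
  have hxpos : 0 < x := by linarith
  have hL0 : 0 < Real.log x := by linarith
  rw [one_mul, Real.exp_log hxpos] at hexp
  have hone : 1 ≤ x / (Real.log x) ^ 2 := by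
    rw [le_div_iff₀ (by positivity), one_mul]
    exact hexp
  have hpos : 0 ≤ (Nat.primeCounting ⌊x⌋₊ : ℝ) + C * x / (Real.log x) ^ 2 := by positivity
  set t := ⌊(Nat.primeCounting ⌊x⌋₊ : ℝ) + C * x / (Real.log x) ^ 2⌋₊ + 1 with ht
  have ht1 : (t : ℝ) ≤ (Nat.primeCounting ⌊x⌋₊ : ℝ) + C * x / (Real.log x) ^ 2 + 1 := by
    rw [ht]
    push_cast
    have := Nat.floor_le hpos
    linarith
  have ht2 : (Nat.primeCounting ⌊x⌋₊ : ℝ) + C * x / (Real.log x) ^ 2 < (t : ℝ) := by
    rw [ht]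
    push_cast
    exact Nat.lt_floor_add_one _
  have e1 : C * x / (Real.log x) ^ 2 = C * (x / (Real.log x) ^ 2) := by ring
  have htK : t ≤ KK x := by
    unfold KK
    apply Nat.le_floor
    refine ht1.trans ?_
    have h1 := pi_le_five hx2
    have h2 : C * x / (Real.log x) ^ 2 + 1 ≤ x / Real.log x := by
      rw [e1]
      have h3 : x / Real.log x = Real.log x * (x / (Real.log x) ^ 2) := by
        field_simp
      rw [h3]
      nlinarith
    have h4 : 8 * x / Real.log x = 5 * x / Real.log x + 3 * (x / Real.log x) := by ring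
    have h5 : 0 ≤ x / Real.log x := by positivity
    rw [h4]
    linarith
  obtain ⟨S, hS0, hS1, hS2, hS3⟩ := hA V hV t (by omega) htK (by
    rw [one_mul]
    rw [e1] at ht1
    have e2 : (C + 2) * (x / (Real.log x) ^ 2) = C * (x / (Real.log x) ^ 2) + 2 * (x / (Real.log x) ^ 2) := by ring
    linarith)
  have h := hneg x hx0 S ⟨hS0, hS1, hS2⟩
  rw [hS3] at h
  linarith

/-- The same inequality on the logarithmic scale. -/
theorem weighted_le_H (z : ℕ) (C x0 : ℝ) (hC : 0 ≤ C)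
    (hneg : ∀ x : ℝ, x0 ≤ x → ∀ S : Finset ℤ, Adm x S →
      (S.card : ℝ) ≤ (Nat.primeCounting ⌊x⌋₊ : ℝ) + C * x / (Real.log x) ^ 2) :
    ∃ T0 : ℝ, 1 ≤ T0 ∧ ∀ T : ℝ, T0 ≤ T → ∀ V : ℕ, (V : ℝ) + 1 ≤ 10 * Real.log T →
      ∑ m ∈ box (P z) V, wt (P z) m * H (T - Real.log (2 * m)) ≤ H T + (C + 2) * T ^ (-2 : ℤ) := by
  have h := Real.tendsto_exp_atTop.eventually (weighted_le z C x0 hC hneg)
  obtain ⟨T0, hT0⟩ := (h.and (eventually_ge_atTop 1)).exists_forall_of_atTop
  refine ⟨max T0 1, le_max_right _ _, ?_⟩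
  intro T hT V hV
  obtain ⟨h1, -⟩ := hT0 T ((le_max_left _ _).trans hT)
  have hT1 : 1 ≤ T := (le_max_right _ _).trans hT
  have h2 := h1 V (by unfold LL; rw [Real.log_exp]; exact hV)
  rw [Real.log_exp] at h2
  have hE : 0 < Real.exp T := Real.exp_pos _
  have h3 := mul_le_mul_of_nonneg_right h2 (Real.exp_pos (-T)).le
  rw [Finset.sum_mul] at h3
  have e1 : Real.exp T * Real.exp (-T) = 1 := by rw [← Real.exp_add, add_neg_cancel, Real.exp_zero]
  have e2 : ((Nat.primeCounting ⌊Real.exp T⌋₊ : ℝ) + (C + 2) * (Real.exp T / T ^ 2)) * Real.exp (-T) =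
      H T + (C + 2) * T ^ (-2 : ℤ) := by
    unfold H
    have : (C + 2) * (Real.exp T / T ^ 2) * Real.exp (-T) = (C + 2) * ((Real.exp T * Real.exp (-T)) / T ^ 2) := by
      ring
    rw [add_mul, this, e1, one_div, zpow_neg]
    norm_cast
  rw [e2] at h3
  refine le_trans (le_of_eq ?_) h3
  apply Finset.sum_congr rfl
  intro m hm
  have hm0 : m ≠ 0 := (box_mem (fun w hw => (mem_P.mp hw).1) hm).1
  have hm0' : (0 : ℝ) < m := by exact_mod_cast Nat.pos_of_ne_zero hm0
  have e3 : Real.exp (T - Real.log (2 * m)) = Real.exp T / (2 * m) := by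
    rw [Real.exp_sub, Real.exp_log (by positivity)]
  have e4 : Real.exp (-(T - Real.log (2 * m))) = Real.exp (-T) * (2 * m) := by
    rw [show -(T - Real.log (2 * m)) = -T + Real.log (2 * m) by ring, Real.exp_add, Real.exp_log (by positivity)]
  unfold H wt g
  rw [e3, e4]
  field_simp

/-- The truncated inequality after integration. -/
theorem integrated (z : ℕ) (C x0 : ℝ) (hC : 0 ≤ C)
    (hneg : ∀ x : ℝ, x0 ≤ x → ∀ S : Finset ℤ, Adm x S →
      (S.card : ℝ) ≤ (Nat.primeCounting ⌊x⌋₊ : ℝ) + C * x / (Real.log x) ^ 2) :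
    ∃ T0 : ℝ, 1 ≤ T0 ∧ ∀ T U : ℝ, T0 ≤ T → T ≤ U → ∀ V : ℕ, (V : ℝ) + 1 ≤ 10 * Real.log T →
      ∑ m ∈ box (P z) V, wt (P z) m * (F T - F (T - Real.log (2 * m))) ≤
        ∑ m ∈ box (P z) V, wt (P z) m * (F U - F (U - Real.log (2 * m))) +
          (1 - ∑ m ∈ box (P z) V, wt (P z) m) * (F U - F T) + (C + 2) / T := by
  obtain ⟨T0, hT01, h⟩ := weighted_le_H z C x0 hC hneg
  refine ⟨T0, hT01, ?_⟩
  intro T U hT hTU V hV
  have hT1 : 1 ≤ T := hT01.trans hT
  have hpt : ∀ τ ∈ Set.Icc T U, ∑ m ∈ box (P z) V, wt (P z) m * H (τ - Real.log (2 * m)) ≤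
      H τ + (C + 2) * τ ^ (-2 : ℤ) := by
    intro τ hτ
    rw [Set.mem_Icc] at hτ
    apply h τ (hT.trans hτ.1) V
    have : Real.log T ≤ Real.log τ := Real.log_le_log (by linarith) hτ.1
    linarith
  have hint1 : ∀ m ∈ box (P z) V, IntervalIntegrable
      (fun τ => wt (P z) m * H (τ - Real.log (2 * m))) volume T U := by
    intro m _
    apply IntervalIntegrable.const_mul
    have := (int_H (T - Real.log (2 * m)) (U - Real.log (2 * m))).comp_sub_right (Real.log (2 * m))
    simpa using this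
  have hint2 : IntervalIntegrable (fun τ : ℝ => (C + 2) * τ ^ (-2 : ℤ)) volume T U := by
    apply IntervalIntegrable.const_mul
    apply intervalIntegral.intervalIntegrable_zpow
    right
    rw [Set.uIcc_of_le hTU, Set.mem_Icc]
    intro hh
    linarith [hh.1]
  have hI := intervalIntegral.integral_mono_on hTU (IntervalIntegrable.sum _ hint1) ((int_H T U).add hint2)
    (fun τ hτ => by
      have := hpt τ hτ
      simpa [Finset.sum_apply] using this)
  have e1 : ∫ τ in T..U, (∑ m ∈ box (P z) V, fun τ => wt (P z) m * H (τ - Real.log (2 * m))) τ =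
      ∑ m ∈ box (P z) V, wt (P z) m * (F (U - Real.log (2 * m)) - F (T - Real.log (2 * m))) := by
    simp only [Finset.sum_apply]
    rw [intervalIntegral.integral_finsetSum hint1]
    apply Finset.sum_congr rfl
    intro m _
    rw [intervalIntegral.integral_const_mul, intervalIntegral.integral_comp_sub_right, F_sub]
  have e2 : ∫ τ in T..U, (H τ + (C + 2) * τ ^ (-2 : ℤ)) ≤ F U - F T + (C + 2) / T := by
    rw [intervalIntegral.integral_add (int_H T U) hint2, intervalIntegral.integral_const_mul, ← F_sub,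
      integral_zpow (by
        right
        refine ⟨by norm_num, ?_⟩
        rw [Set.uIcc_of_le hTU, Set.mem_Icc]
        intro hh
        linarith [hh.1])]
    have e3 : (C + 2) * ((U ^ (-2 + 1 : ℤ) - T ^ (-2 + 1 : ℤ)) / (((-2 : ℤ) : ℝ) + 1)) =
        (C + 2) / T - (C + 2) / U := by
      norm_num
      ring
    rw [e3]
    have : 0 ≤ (C + 2) / U := div_nonneg (by linarith) (by linarith)
    linarith
  rw [e1] at hI
  have hI2 := hI.trans e2
  have e5 : ∑ m ∈ box (P z) V, wt (P z) m * (F (U - Real.log (2 * m)) - F (T - Real.log (2 * m))) =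
      ∑ m ∈ box (P z) V, wt (P z) m * (F T - F (T - Real.log (2 * m))) -
      ∑ m ∈ box (P z) V, wt (P z) m * (F U - F (U - Real.log (2 * m))) +
      (∑ m ∈ box (P z) V, wt (P z) m) * (F U - F T) := by
    rw [Finset.sum_mul, ← Finset.sum_sub_distrib, ← Finset.sum_add_distrib]
    apply Finset.sum_congr rfl
    intro m _
    ring
  rw [e5] at hI2
  linarith

end

end Pool.Agent.H6.HR
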