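import Mathlib
import Pool.Agent.H6.HR.StageB

/-!
# The excess is unbounded on the scale of the second order term
-/

set_option autoImplicit false

open Finset Filter Topology MeasureTheory

namespace Pool.Agent.H6.HR

noncomputable section

theorem s_nonneg {m : ℕ} (hm : m ≠ 0) : 0 ≤ Real.log (2 * m) := by
  apply Real.log_nonneg
  have : (1 : ℝ) ≤ m := by exact_mod_cast Nat.one_le_iff_ne_zero.mpr hm
  linarith

theorem s_le {m V Q : ℕ} (hm : m ≠ 0) (h : m ≤ Q ^ V) : Real.log (2 * m) ≤ Real.log 2 + V * Real.log Q := by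
  have hm0 : (0 : ℝ) < m := by exact_mod_cast Nat.pos_of_ne_zero hm
  rw [Real.log_mul (by norm_num) hm0.ne', ← Real.log_pow]
  have h1 : (m : ℝ) ≤ (Q : ℝ) ^ V := by exact_mod_cast h
  have := Real.log_le_log hm0 h1
  linarith

theorem truncated (z : ℕ) (C x0 : ℝ) (hC : 0 ≤ C)
    (hneg : ∀ x : ℝ, x0 ≤ x → ∀ S : Finset ℤ, Adm x S →
      (S.card : ℝ) ≤ (Nat.primeCounting ⌊x⌋₊ : ℝ) + C * x / (Real.log x) ^ 2) :
    ∃ T0 : ℝ, 1 ≤ T0 ∧ ∀ T : ℝ, T0 ≤ T →
      ∑ m ∈ box (P z) 1, wt (P z) m * (F T - F (T - Real.log (2 * m))) ≤ (C + 3) * T⁻¹ := by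
  obtain ⟨T0, hT01, h⟩ := integrated z C x0 hC hneg
  obtain ⟨Cp, hCp, hH⟩ := H_le
  have hPz : ∀ w ∈ P z, w.Prime := fun w hw => (mem_P.mp hw).1
  set Q := ∏ w ∈ P z, w with hQ
  have hQ1 : 1 ≤ Q := Nat.one_le_iff_ne_zero.mpr (Finset.prod_ne_zero_iff.mpr (fun w hw => (hPz w hw).ne_zero))
  have hlQ : 0 ≤ Real.log Q := Real.log_nonneg (by exact_mod_cast hQ1)
  have hlog : ∀ᶠ T : ℝ in atTop, Real.log T ≤ (1 / ((4 * Cp + 2) * (1 + 10 * Real.log Q))) * T := by
    have h1 := Real.isLittleO_log_id_atTop.bound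
      (show (0 : ℝ) < 1 / ((4 * Cp + 2) * (1 + 10 * Real.log Q)) by positivity)
    filter_upwards [h1, eventually_ge_atTop 1] with T h1 h2
    rw [Real.norm_of_nonneg (Real.log_nonneg h2), id, Real.norm_of_nonneg (by linarith)] at h1
    exact h1
  obtain ⟨T1, hT1⟩ := (hlog.and ((eventually_ge_atTop T0).and ((eventually_ge_atTop (3 : ℝ)).and
    (eventually_ge_atTop (18 * ((P z).card : ℝ)))))).exists_forall_of_atTop
  refine ⟨max T1 1, le_max_right _ _, ?_⟩
  intro T hT
  obtain ⟨h1, h2, h3, h4⟩ := hT1 T ((le_max_left _ _).trans hT)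
  have hTpos : 0 < T := by linarith
  have hlT : 1 ≤ Real.log T := by
    rw [← Real.log_exp 1]
    apply Real.log_le_log (Real.exp_pos _)
    have := Real.exp_one_lt_d9
    linarith
  set V := ⌊10 * Real.log T⌋₊ - 1 with hV
  have hfl : 10 ≤ ⌊10 * Real.log T⌋₊ := Nat.le_floor (by push_cast; linarith)
  have hV1 : (V : ℝ) + 1 ≤ 10 * Real.log T := by
    have e : V + 1 = ⌊10 * Real.log T⌋₊ := by omega
    have e2 : (V : ℝ) + 1 = (⌊10 * Real.log T⌋₊ : ℝ) := by exact_mod_cast e
    rw [e2]
    exact Nat.floor_le (by linarith)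
  have hV2 : 10 * Real.log T - 2 ≤ (V : ℝ) := by
    have e : V + 1 = ⌊10 * Real.log T⌋₊ := by omega
    have e2 : (V : ℝ) + 1 = (⌊10 * Real.log T⌋₊ : ℝ) := by exact_mod_cast e
    have := Nat.lt_floor_add_one (10 * Real.log T)
    linarith
  have hTT : T ≤ T ^ 2 := by nlinarith
  have hI := h T (T ^ 2) h2 hTT V hV1
  obtain ⟨hW1, hW2⟩ := sum_wt_ge hPz V
  -- the bound for the shifts
  have hden : 0 < (4 * Cp + 2) * (1 + 10 * Real.log Q) := by positivity
  have hS : (4 * Cp + 2) * ((1 + 10 * Real.log Q) * Real.log T) ≤ T := by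
    have h5 := mul_le_mul_of_nonneg_left h1 hden.le
    have e : (4 * Cp + 2) * (1 + 10 * Real.log Q) * (1 / ((4 * Cp + 2) * (1 + 10 * Real.log Q)) * T) = T := by
      field_simp
    rw [e] at h5
    linarith
  have hS0 : 0 ≤ (1 + 10 * Real.log Q) * Real.log T := by positivity
  have hs : ∀ m ∈ box (P z) V, Real.log (2 * m) ≤ (1 + 10 * Real.log Q) * Real.log T := by
    intro m hm
    obtain ⟨hm0, -, hmle⟩ := box_mem hPz hm
    refine (s_le hm0 hmle).trans ?_
    have h5 := Real.log_two_lt_d9
    have h6 : (V : ℝ) * Real.log Q ≤ 10 * Real.log T * Real.log Q :=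
      mul_le_mul_of_nonneg_right (by linarith) hlQ
    nlinarith
  have hAU : ∑ m ∈ box (P z) V, wt (P z) m * (F (T ^ 2) - F (T ^ 2 - Real.log (2 * m))) ≤ (1 / 2) * T⁻¹ := by
    calc ∑ m ∈ box (P z) V, wt (P z) m * (F (T ^ 2) - F (T ^ 2 - Real.log (2 * m)))
        ≤ ∑ m ∈ box (P z) V, wt (P z) m * ((1 / 2) * T⁻¹) := by
          apply Finset.sum_le_sum
          intro m hm
          apply mul_le_mul_of_nonneg_left _ (wt_nonneg hPz m)
          have hm0 := (box_mem hPz hm).1
          have h5 := hs m hm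
          have h6 := s_nonneg hm0
          have h7 : Real.log (2 * m) ≤ T ^ 2 / 2 := by nlinarith
          refine (F_le_of hH hCp h6 h7 (by nlinarith)).trans ?_
          calc Real.log (2 * m) * (2 * Cp / T ^ 2) ≤
                ((1 + 10 * Real.log Q) * Real.log T) * (2 * Cp / T ^ 2) :=
                mul_le_mul_of_nonneg_right h5 (by positivity)
            _ = ((4 * Cp) * ((1 + 10 * Real.log Q) * Real.log T)) * (1 / (2 * T ^ 2)) := by
                field_simp
                ring
            _ ≤ T * (1 / (2 * T ^ 2)) := by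
                apply mul_le_mul_of_nonneg_right _ (by positivity)
                nlinarith
            _ = (1 / 2) * T⁻¹ := by field_simp
      _ = (∑ m ∈ box (P z) V, wt (P z) m) * ((1 / 2) * T⁻¹) := by rw [Finset.sum_mul]
      _ ≤ 1 * ((1 / 2) * T⁻¹) := mul_le_mul_of_nonneg_right hW2 (by positivity)
      _ = _ := by ring
  have h2V : T ^ 6 / 9 ≤ (2 : ℝ) ^ V := by
    have e1 : (2 : ℝ) ^ V = Real.exp (V * Real.log 2) := by
      rw [← Real.rpow_natCast, Real.rpow_def_of_pos (by norm_num), mul_comm]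
    have e2 : T ^ 6 = Real.exp (6 * Real.log T) := by
      rw [mul_comm, ← Real.rpow_def_of_pos hTpos]
      norm_cast
    have e3 : Real.exp 2 ≤ 9 := by
      have h5 := Real.exp_one_lt_d9
      have h6 : Real.exp 2 = Real.exp 1 * Real.exp 1 := by rw [← Real.exp_add]; norm_num
      have h7 := Real.exp_pos 1
      rw [h6]
      nlinarith
    have h5 := Real.log_two_gt_d9
    have h6 := Real.log_two_lt_d9
    calc T ^ 6 / 9 ≤ T ^ 6 / Real.exp 2 := div_le_div_of_nonneg_left (by positivity) (Real.exp_pos _) e3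
      _ = Real.exp (6 * Real.log T - 2) := by rw [e2, Real.exp_sub]
      _ ≤ Real.exp (V * Real.log 2) := by
          apply Real.exp_le_exp.mpr
          nlinarith
      _ = (2 : ℝ) ^ V := e1.symm
  have hTail : (1 - ∑ m ∈ box (P z) V, wt (P z) m) * (F (T ^ 2) - F T) ≤ (1 / 2) * T⁻¹ := by
    have h5 : F (T ^ 2) - F T ≤ T ^ 2 := by
      have := F_lip hTT
      linarith
    have h6 : 0 ≤ F (T ^ 2) - F T := by
      have := F_mono hTT
      linarith
    have h7 : 0 ≤ 1 - ∑ m ∈ box (P z) V, wt (P z) m := by linarith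
    calc (1 - ∑ m ∈ box (P z) V, wt (P z) m) * (F (T ^ 2) - F T)
        ≤ ((P z).card * ((2 : ℝ) ^ V)⁻¹) * T ^ 2 := by
          apply mul_le_mul _ h5 h6 (by positivity)
          linarith
      _ ≤ ((P z).card * (T ^ 6 / 9)⁻¹) * T ^ 2 := by
          apply mul_le_mul_of_nonneg_right _ (by positivity)
          apply mul_le_mul_of_nonneg_left _ (by positivity)
          exact inv_anti₀ (by positivity) h2V
      _ = (18 * ((P z).card : ℝ)) / (2 * T ^ 4) := by field_simp; ring
      _ ≤ T ^ 3 / (2 * T ^ 4) := by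
          apply div_le_div_of_nonneg_right _ (by positivity)
          have : T ≤ T ^ 3 := by nlinarith
          linarith
      _ = (1 / 2) * T⁻¹ := by field_simp
  have hsub : ∑ m ∈ box (P z) 1, wt (P z) m * (F T - F (T - Real.log (2 * m))) ≤
      ∑ m ∈ box (P z) V, wt (P z) m * (F T - F (T - Real.log (2 * m))) := by
    apply Finset.sum_le_sum_of_subset_of_nonneg (box_mono hPz (by omega))
    intro m hm _
    apply mul_nonneg (wt_nonneg hPz m)
    have h5 := s_nonneg (box_mem hPz hm).1
    have h6 := F_mono (show T - Real.log (2 * m) ≤ T by linarith)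
    linarith
  have e1 : (C + 2) / T = (C + 2) * T⁻¹ := by ring
  rw [e1] at hI
  have hTi : 0 < T⁻¹ := by positivity
  linarith

/-- A lower bound for the primitive. -/
theorem F_ge_log : ∃ C : ℝ, ∀ u : ℝ, 2 ≤ u → Real.log (u - 1) - C ≤ F u := by
  obtain ⟨C, hC, h⟩ := sum_P_ge
  refine ⟨C + 1, ?_⟩
  intro u hu
  have h1 := F_ge u (by linarith)
  have h2 : Real.exp (u - 1) ≤ (⌊Real.exp u⌋₊ : ℝ) := by
    have h3 := Nat.lt_floor_add_one (Real.exp u)
    have h4 : Real.exp u = Real.exp (u - 1) * Real.exp 1 := by rw [← Real.exp_add]; ring_nf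
    have h5 := Real.exp_one_gt_d9
    have h6 : 1 ≤ Real.exp (u - 1) := Real.one_le_exp (by linarith)
    nlinarith
  have h3 : 2 ≤ ⌊Real.exp u⌋₊ := by
    apply Nat.le_floor
    push_cast
    have := Real.add_one_le_exp u
    linarith
  have h4 := h _ h3
  have h5 : u - 1 ≤ Real.log (⌊Real.exp u⌋₊ : ℝ) := by
    rw [Real.le_log_iff_exp_le (by exact_mod_cast (by omega : 0 < ⌊Real.exp u⌋₊))]
    exact h2
  have h6 : Real.log (u - 1) ≤ Real.log (Real.log (⌊Real.exp u⌋₊ : ℝ)) :=
    Real.log_le_log (by linarith) h5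
  linarith

theorem shift_ge {A B s : ℝ} (hs : 0 ≤ s) :
    s * F (B - s) - s * F A ≤ ∫ T in A..B, (F T - F (T - s)) := by
  have hi1 : IntervalIntegrable (fun T => F (T - s)) volume A B :=
    (F_cont.comp (continuous_id.sub continuous_const)).intervalIntegrable A B
  rw [intervalIntegral.integral_sub (F_int A B) hi1, intervalIntegral.integral_comp_sub_right,
    intervalIntegral.integral_interval_sub_interval_comm (F_int _ _) (F_int _ _) (F_int _ _)]
  have h1 : s * F (B - s) ≤ ∫ T in (B - s)..B, F T := by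
    have h := intervalIntegral.integral_mono_on (show B - s ≤ B by linarith)
      (intervalIntegrable_const (c := F (B - s))) (F_int (B - s) B) (fun t ht => by
        rw [Set.mem_Icc] at ht
        exact F_mono ht.1)
    rw [intervalIntegral.integral_const, smul_eq_mul] at h
    have e : B - (B - s) = s := by ring
    rw [e] at h
    exact h
  have h2 : ∫ T in (A - s)..A, F T ≤ s * F A := by
    have h := intervalIntegral.integral_mono_on (show A - s ≤ A by linarith)
      (F_int (A - s) A) (intervalIntegrable_const (c := F A)) (fun t ht => by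
        rw [Set.mem_Icc] at ht
        exact F_mono ht.2)
    rw [intervalIntegral.integral_const, smul_eq_mul] at h
    have e : A - (A - s) = s := by ring
    rw [e] at h
    exact h
  rw [intervalIntegral.integral_symm (A - s) A, intervalIntegral.integral_symm (B - s) B]
  linarith

theorem contradiction (C x0 : ℝ) (hC : 0 ≤ C)
    (hneg : ∀ x : ℝ, x0 ≤ x → ∀ S : Finset ℤ, Adm x S →
      (S.card : ℝ) ≤ (Nat.primeCounting ⌊x⌋₊ : ℝ) + C * x / (Real.log x) ^ 2) : False := by
  obtain ⟨z, -, hz⟩ := sum_log_div_unbounded (4 * (C + 4))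
  obtain ⟨A, hA1, hA⟩ := truncated z C x0 hC hneg
  obtain ⟨C0, hC0⟩ := F_ge_log
  have hPz : ∀ w ∈ P z, w.Prime := fun w hw => (mem_P.mp hw).1
  set Q := ∏ w ∈ P z, w with hQ
  set sM := Real.log 2 + 1 * Real.log Q with hsM
  have hQ1 : 1 ≤ Q := Nat.one_le_iff_ne_zero.mpr (Finset.prod_ne_zero_iff.mpr (fun w hw => (hPz w hw).ne_zero))
  have hlQ : 0 ≤ Real.log Q := Real.log_nonneg (by exact_mod_cast hQ1)
  have hl2 : 0 < Real.log 2 := Real.log_pos (by norm_num)
  have hs : ∀ m ∈ box (P z) 1, 0 ≤ Real.log (2 * m) ∧ Real.log (2 * m) ≤ sM := by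
    intro m hm
    obtain ⟨hm0, -, hmle⟩ := box_mem hPz hm
    refine ⟨s_nonneg hm0, ?_⟩
    have := s_le hm0 hmle
    rw [Nat.cast_one] at this
    exact this
  set D := ∑ m ∈ box (P z) 1, wt (P z) m * Real.log (2 * m) with hD
  have hD1 : C + 4 ≤ D := by
    have h1 := sum_wt_log hPz
    have h2 := sum_wt_one_ge z
    have h3 : ∑ m ∈ box (P z) 1, wt (P z) m * Real.log m ≤ D := by
      apply Finset.sum_le_sum
      intro m hm
      apply mul_le_mul_of_nonneg_left _ (wt_nonneg hPz m)
      have hm0 : (0 : ℝ) < m := by exact_mod_cast Nat.pos_of_ne_zero (box_mem hPz hm).1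
      rw [Real.log_mul (by norm_num) hm0.ne']
      linarith
    nlinarith
  set K := Real.log 2 + C0 + F A with hK
  obtain ⟨B, hB1, hB2, hB3, hB4⟩ := ((eventually_ge_atTop A).and ((eventually_ge_atTop (2 * (sM + 2))).and
    ((ev_L ((C + 4) * K + 1)).and (ev_L K)))).exists
  have hBpos : 0 < B := by linarith
  -- integrate
  have hint : ∀ m ∈ box (P z) 1, IntervalIntegrable
      (fun T => wt (P z) m * (F T - F (T - Real.log (2 * m)))) volume A B := by
    intro m _
    apply Continuous.intervalIntegrable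
    exact continuous_const.mul (F_cont.sub (F_cont.comp (continuous_id.sub continuous_const)))
  have hint2 : IntervalIntegrable (fun T : ℝ => (C + 3) * T⁻¹) volume A B := by
    apply IntervalIntegrable.const_mul
    apply intervalIntegral.intervalIntegrable_inv _ continuousOn_id
    intro x hx
    rw [Set.uIcc_of_le hB1, Set.mem_Icc] at hx
    simp only [id]
    linarith [hx.1]
  have hI := intervalIntegral.integral_mono_on hB1 (IntervalIntegrable.sum _ hint) hint2
    (fun T hT => by
      rw [Set.mem_Icc] at hT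
      have := hA T hT.1
      simpa [Finset.sum_apply] using this)
  have e1 : ∫ T in A..B, (∑ m ∈ box (P z) 1, fun T => wt (P z) m * (F T - F (T - Real.log (2 * m)))) T =
      ∑ m ∈ box (P z) 1, wt (P z) m * ∫ T in A..B, (F T - F (T - Real.log (2 * m))) := by
    simp only [Finset.sum_apply]
    rw [intervalIntegral.integral_finsetSum hint]
    apply Finset.sum_congr rfl
    intro m _
    rw [intervalIntegral.integral_const_mul]
  rw [e1, intervalIntegral.integral_const_mul, integral_inv_of_pos (by linarith) hBpos] at hI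
  have h1 : D * (F (B - sM) - F A) ≤
      ∑ m ∈ box (P z) 1, wt (P z) m * ∫ T in A..B, (F T - F (T - Real.log (2 * m))) := by
    rw [hD, Finset.sum_mul]
    apply Finset.sum_le_sum
    intro m hm
    obtain ⟨hs1, hs2⟩ := hs m hm
    rw [mul_assoc]
    apply mul_le_mul_of_nonneg_left _ (wt_nonneg hPz m)
    refine le_trans ?_ (shift_ge hs1)
    have h2 := F_mono (show B - sM ≤ B - Real.log (2 * m) by linarith)
    nlinarith
  have hsM0 : 0 ≤ sM := by
    rw [hsM]
    linarith
  have h2 : Real.log B - Real.log 2 - C0 ≤ F (B - sM) := by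
    have h3 := hC0 (B - sM) (by linarith)
    have h4 : Real.log (B / 2) ≤ Real.log (B - sM - 1) := Real.log_le_log (by linarith) (by linarith)
    rw [Real.log_div hBpos.ne' (by norm_num)] at h4
    linarith
  have h3 : Real.log (B / A) ≤ Real.log B := by
    rw [Real.log_div hBpos.ne' (by linarith)]
    have := Real.log_nonneg hA1
    linarith
  have h4 : D * (Real.log B - K) ≤ (C + 3) * Real.log B := by
    have h5 : D * (Real.log B - K) ≤ D * (F (B - sM) - F A) := by
      apply mul_le_mul_of_nonneg_left _ (by linarith)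
      rw [hK]
      linarith
    have h6 : (C + 3) * Real.log (B / A) ≤ (C + 3) * Real.log B :=
      mul_le_mul_of_nonneg_left h3 (by linarith)
    linarith
  have h5 : (C + 4) * (Real.log B - K) ≤ D * (Real.log B - K) :=
    mul_le_mul_of_nonneg_right hD1 (by linarith)
  nlinarith

/-- **The excess of the largest admissible set over the prime counting function is unbounded on the
scale `x / (log x) ^ 2`.** -/
theorem excess (C x0 : ℝ) : ∃ x : ℝ, x0 ≤ x ∧ ∃ S : Finset ℤ, Adm x S ∧
    (Nat.primeCounting ⌊x⌋₊ : ℝ) + C * x / (Real.log x) ^ 2 < (S.card : ℝ) := by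
  by_contra hcon
  push Not at hcon
  apply contradiction |C| (max x0 1) (abs_nonneg C)
  intro x hx S hS
  refine (hcon x ((le_max_left _ _).trans hx) S hS).trans ?_
  have hx1 : 1 ≤ x := (le_max_right _ _).trans hx
  have : C * x / (Real.log x) ^ 2 ≤ |C| * x / (Real.log x) ^ 2 := by
    apply div_le_div_of_nonneg_right _ (by positivity)
    exact mul_le_mul_of_nonneg_right (le_abs_self C) (by linarith)
  linarith

end

end Pool.Agent.H6.HR
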